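import Pool.Agent.H40.ER.Num

/-!
# Large sets contain `K_{2,t}`
-/

set_option linter.unusedSectionVars false
set_option exponentiation.threshold 6000

namespace Pool.Agent.H40.ER

open Finset
open scoped Classical

/-- A state with all the properties used in the proof. -/
structure Nice {V 𝔹 : Type} [Fintype V] [LinearOrder V] [Fintype 𝔹] [DecidableEq 𝔹]
    (Q t : ℕ) (σ : St V 𝔹) : Prop where
  loc : Loc Q σ
  l6 : L6 Q σ
  d1 : D1 Q σ
  d2 : D2 Q σ
  dm : DM (Fin (Q ^ 498)) Q t σ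

theorem exists_nice (t : ℕ) : ∀ᶠ Q : ℕ in Filter.atTop,
    ∃ σ : St (Fin (Q ^ 1000)) (Blk Q), Nice Q t σ := by
  filter_upwards [num_D1, num_step t, Filter.eventually_ge_atTop 1001] with Q h1 hst hQ'
  have hQ : 100 ≤ Q := by omega
  have hQ0 : 0 < Q := by omega
  let M := model Q hQ0
  have : Nonempty (Dat Q) :=
    ⟨(fun _ => ⟨0, pow_pos hQ0 _⟩, fun _ => ⟨0, pow_pos hQ0 _⟩)⟩
  have hV : Fintype.card (Fin (Q ^ 1000)) ≤ Q ^ 1000 := (Fintype.card_fin _).le
  have hI : Fintype.card (Fin (Q ^ 498)) = Q ^ 498 := Fintype.card_fin _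
  have b1 := (local_fail (V := Fin (Q ^ 1000)) M hQ hV).trans (num_local hQ)
  have b2 := (fail_D1 (V := Fin (Q ^ 1000)) M hQ hV).trans h1
  have b3 := (fail_D2 (V := Fin (Q ^ 1000)) M hQ hV).trans (num_D2 hQ')
  have b4 := (fail_DM (V := Fin (Q ^ 1000)) (I := Fin (Q ^ 498)) M hQ hV hI t hst).trans
    (num_DM hQ)
  have hlt : pr (fun ω : Fin (Q ^ 1000) → Dat Q =>
      (¬ (Loc Q (st M ω) ∧ L6 Q (st M ω))) ∨ (¬ D1 Q (st M ω)) ∨
      (∃ X ∈ (univ : Finset (Fin (Q ^ 1000))).powersetCard (2 * Q ^ 498),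
        Q ^ 494 ≤ (X.filter fun v => PC Q X v (cut (st M ω) v) (st M ω v)).card) ∨
      (¬ DM (Fin (Q ^ 498)) Q t (st M ω))) < 1 := by
    have c1 := pr_or_le (fun ω : Fin (Q ^ 1000) → Dat Q => ¬ (Loc Q (st M ω) ∧ L6 Q (st M ω)))
      (fun ω => (¬ D1 Q (st M ω)) ∨
      (∃ X ∈ (univ : Finset (Fin (Q ^ 1000))).powersetCard (2 * Q ^ 498),
        Q ^ 494 ≤ (X.filter fun v => PC Q X v (cut (st M ω) v) (st M ω v)).card) ∨
      (¬ DM (Fin (Q ^ 498)) Q t (st M ω)))
    have c2 := pr_or_le (fun ω : Fin (Q ^ 1000) → Dat Q => ¬ D1 Q (st M ω))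
      (fun ω => (∃ X ∈ (univ : Finset (Fin (Q ^ 1000))).powersetCard (2 * Q ^ 498),
        Q ^ 494 ≤ (X.filter fun v => PC Q X v (cut (st M ω) v) (st M ω v)).card) ∨
      (¬ DM (Fin (Q ^ 498)) Q t (st M ω)))
    have c3 := pr_or_le (fun ω : Fin (Q ^ 1000) → Dat Q =>
      ∃ X ∈ (univ : Finset (Fin (Q ^ 1000))).powersetCard (2 * Q ^ 498),
        Q ^ 494 ≤ (X.filter fun v => PC Q X v (cut (st M ω) v) (st M ω v)).card)
      (fun ω => ¬ DM (Fin (Q ^ 498)) Q t (st M ω))
    linarith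
  obtain ⟨ω, hω⟩ := exists_of_pr_lt_one hlt
  push Not at hω
  obtain ⟨⟨w1, w1'⟩, w2, w3, w4⟩ := hω
  refine ⟨st M ω, w1, w1', w2, ?_, w4⟩
  intro X hX
  refine D2_of w1 hQ hX ?_
  have := w3 X (Finset.mem_powersetCard.2 ⟨Finset.subset_univ _, hX⟩)
  omega

section Det

variable {V 𝔹 : Type} [Fintype V] [LinearOrder V] [Fintype 𝔹] [DecidableEq 𝔹] {Q : ℕ}

lemma exists_initial (S : Finset V) (k : ℕ) (hk : k ≤ S.card) :
    ∃ A ⊆ S, A.card = k ∧ ∀ a ∈ A, ∀ b ∈ S \ A, a < b := by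
  induction k with
  | zero => exact ⟨∅, Finset.empty_subset _, rfl, by simp⟩
  | succ k ih =>
    obtain ⟨A, hA, hcard, hlt⟩ := ih (by omega)
    have hne : (S \ A).Nonempty := by
      rw [← Finset.card_pos, Finset.card_sdiff_of_subset hA]
      omega
    have hm := (S \ A).min'_mem hne
    set m := (S \ A).min' hne
    have hm' := Finset.mem_sdiff.1 hm
    refine ⟨insert m A, Finset.insert_subset hm'.1 hA, ?_, ?_⟩
    · rw [Finset.card_insert_of_notMem hm'.2, hcard]
    · intro a ha b hb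
      rw [Finset.mem_sdiff, Finset.mem_insert, not_or] at hb
      have hbS : b ∈ S \ A := Finset.mem_sdiff.2 ⟨hb.1, hb.2.2⟩
      rcases Finset.mem_insert.1 ha with rfl | ha
      · exact lt_of_le_of_ne ((S \ A).min'_le b hbS) (Ne.symm hb.2.1)
      · exact hlt a ha b hbS

/-- A family of pairs of partners. -/
lemma exists_family {σ : St V 𝔹} (hD1 : D1 Q σ) (h𝔹 : Q ^ 498 ≤ Fintype.card 𝔹)
    {S0 S1 : Finset V} (h0 : S0.card = 2 * Q ^ 498) (h1 : S1.card = 2 * Q ^ 498)
    (hlt : ∀ a ∈ S0, ∀ b ∈ S1, a < b) (j : ℕ) (hj : j ≤ Q ^ 498) :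
    ∃ (l : Fin j → 𝔹) (u v : Fin j → V), Function.Injective l ∧ Function.Injective u ∧
      Function.Injective v ∧ (∀ i, u i ∈ S0) ∧ (∀ i, v i ∈ S1) ∧ (∀ i, l i ∈ (σ (u i)).1) ∧
      (∀ i, l i ∈ (σ (v i)).1) := by
  induction j with
  | zero =>
    exact ⟨fun i => i.elim0, fun i => i.elim0, fun i => i.elim0, fun i => i.elim0,
      fun i => i.elim0, fun i => i.elim0, fun i => i.elim0, fun i => i.elim0,
      fun i => i.elim0, fun i => i.elim0⟩
  | succ j ih =>
    obtain ⟨l, u, v, hl, hu, hv, hu0, hv1, hlu, hlv⟩ := ih (by omega)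
    have cu : (univ.image u).card ≤ j := Finset.card_image_le.trans (by simp)
    have cv : (univ.image v).card ≤ j := Finset.card_image_le.trans (by simp)
    have cl : (univ.image l).card ≤ j := Finset.card_image_le.trans (by simp)
    have k0 : Q ^ 498 ≤ (S0 \ univ.image u).card := by
      have := Finset.le_card_sdiff (univ.image u) S0
      omega
    have k1 : Q ^ 498 ≤ (S1 \ univ.image v).card := by
      have := Finset.le_card_sdiff (univ.image v) S1
      omega
    obtain ⟨S0', hS0', c0⟩ := Finset.exists_subset_card_eq k0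
    obtain ⟨S1', hS1', c1⟩ := Finset.exists_subset_card_eq k1
    obtain ⟨L, hL1, -, hL2⟩ := Finset.exists_subsuperset_card_eq
      (Finset.subset_univ (univ.image l)) (n := Q ^ 498) (by omega)
      (by rw [Finset.card_univ]; exact h𝔹)
    obtain ⟨a, ha, b, hb, x, hx, hx', hxL⟩ := hD1 S0' S1' L c0 c1 hL2 (by
      intro a ha b hb
      exact hlt a (Finset.mem_sdiff.1 (hS0' ha)).1 b (Finset.mem_sdiff.1 (hS1' hb)).1)
    have ha' := Finset.mem_sdiff.1 (hS0' ha)
    have hb' := Finset.mem_sdiff.1 (hS1' hb)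
    refine ⟨Fin.cons x l, Fin.cons a u, Fin.cons b v, ?_, ?_, ?_, ?_, ?_, ?_, ?_⟩
    · rw [Fin.cons_injective_iff]
      refine ⟨?_, hl⟩
      rintro ⟨i, rfl⟩
      exact hxL (hL1 (Finset.mem_image_of_mem l (Finset.mem_univ i)))
    · rw [Fin.cons_injective_iff]
      refine ⟨?_, hu⟩
      rintro ⟨i, rfl⟩
      exact ha'.2 (Finset.mem_image_of_mem u (Finset.mem_univ i))
    · rw [Fin.cons_injective_iff]
      refine ⟨?_, hv⟩
      rintro ⟨i, rfl⟩
      exact hb'.2 (Finset.mem_image_of_mem v (Finset.mem_univ i))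
    · intro i
      refine Fin.cases ?_ (fun i => ?_) i
      · simpa using ha'.1
      · simpa using hu0 i
    · intro i
      refine Fin.cases ?_ (fun i => ?_) i
      · simpa using hb'.1
      · simpa using hv1 i
    · intro i
      refine Fin.cases ?_ (fun i => ?_) i
      · simpa using hx
      · simpa using hlu i
    · intro i
      refine Fin.cases ?_ (fun i => ?_) i
      · simpa using hx'
      · simpa using hlv i

lemma few_related {σ : St V 𝔹} {I : Type} [Fintype I] [DecidableEq I] (hD2 : D2 Q σ)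
    (hI : Fintype.card I = Q ^ 498) {u v : I → V} (hu : Function.Injective u)
    (hv : Function.Injective v) (huv : ∀ i j, u i ≠ v j) :
    Q ^ 3 * (univ.filter fun p : I × I => ¬ Unrel σ u v p.1 p.2).card ≤ 4 * Q ^ 996 := by
  set X : Finset V := univ.image u ∪ univ.image v with hX
  have hXcard : X.card = 2 * Q ^ 498 := by
    rw [hX, Finset.card_union_of_disjoint, Finset.card_image_of_injective _ hu,
      Finset.card_image_of_injective _ hv, Finset.card_univ, hI]
    · ring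
    · rw [Finset.disjoint_left]
      intro a ha hb
      obtain ⟨i, -, rfl⟩ := Finset.mem_image.1 ha
      obtain ⟨j, -, hj⟩ := Finset.mem_image.1 hb
      exact huv i j hj.symm
  have hmu : ∀ i, u i ∈ X := fun i =>
    Finset.mem_union_left _ (Finset.mem_image_of_mem u (Finset.mem_univ i))
  have hmv : ∀ i, v i ∈ X := fun i =>
    Finset.mem_union_right _ (Finset.mem_image_of_mem v (Finset.mem_univ i))
  have hP := hD2 X hXcard
  have key : ∀ f g : I → V, Function.Injective f → Function.Injective g → (∀ i, f i ∈ X) →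
      (∀ i, g i ∈ X) → (univ.filter fun p : I × I =>
        ¬ Disjoint (σ (f p.1)).1 (σ (g p.2)).1).card ≤ Q ^ 993 := by
    intro f g hf hg hfX hgX
    refine le_trans ?_ hP
    refine Finset.card_le_card_of_injOn (fun p => (f p.1, g p.2)) ?_ ?_
    · intro p hp
      have hp' := (Finset.mem_filter.1 hp).2
      exact Finset.mem_filter.2 ⟨Finset.mem_product.2 ⟨hfX _, hgX _⟩, hp'⟩
    · intro p _ q _ hpq
      rw [Prod.mk.injEq] at hpq
      exact Prod.ext (hf hpq.1) (hg hpq.2)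
  have hsub : (univ.filter fun p : I × I => ¬ Unrel σ u v p.1 p.2) ⊆
      ((univ.filter fun p : I × I => ¬ Disjoint (σ (u p.1)).1 (σ (u p.2)).1) ∪
      (univ.filter fun p : I × I => ¬ Disjoint (σ (u p.1)).1 (σ (v p.2)).1)) ∪
      ((univ.filter fun p : I × I => ¬ Disjoint (σ (v p.1)).1 (σ (u p.2)).1) ∪
      (univ.filter fun p : I × I => ¬ Disjoint (σ (v p.1)).1 (σ (v p.2)).1)) := by
    intro p hp
    have hp' := (Finset.mem_filter.1 hp).2
    simp only [Finset.mem_union, Finset.mem_filter, Finset.mem_univ, true_and]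
    unfold Unrel at hp'
    tauto
  have c0 := (Finset.card_le_card hsub).trans (Finset.card_union_le _ _)
  have c1 := Finset.card_union_le
    (univ.filter fun p : I × I => ¬ Disjoint (σ (u p.1)).1 (σ (u p.2)).1)
    (univ.filter fun p : I × I => ¬ Disjoint (σ (u p.1)).1 (σ (v p.2)).1)
  have c2 := Finset.card_union_le
    (univ.filter fun p : I × I => ¬ Disjoint (σ (v p.1)).1 (σ (u p.2)).1)
    (univ.filter fun p : I × I => ¬ Disjoint (σ (v p.1)).1 (σ (v p.2)).1)
  have k1 := key u u hu hu hmu hmu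
  have k2 := key u v hu hv hmu hmv
  have k3 := key v u hv hu hmv hmu
  have k4 := key v v hv hv hmv hmv
  have h5 : (univ.filter fun p : I × I => ¬ Unrel σ u v p.1 p.2).card ≤ 4 * Q ^ 993 := by omega
  calc Q ^ 3 * (univ.filter fun p : I × I => ¬ Unrel σ u v p.1 p.2).card
      ≤ Q ^ 3 * (4 * Q ^ 993) := Nat.mul_le_mul_left _ h5
    _ = 4 * Q ^ 996 := by rw [mul_left_comm, ← pow_add]

lemma adj_of_Gd {σ : St V 𝔹} {I : Type} {u v : I → V} {y : V} {i : I} (hu : u i < y)
    (hv : v i < y) (h : Gd (cut σ y) u v (σ y) i) :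
    (GG σ).Adj (u i) y ∧ (GG σ).Adj (v i) y := by
  have key : ∀ a, a < y → tri (cut σ y a) (σ y) → ¬ Tk (cut σ y) a (σ y) → (GG σ).Adj a y := by
    intro a ha h1 h2
    rw [GG_adj_of_lt ha]
    rw [cut_of_lt ha] at h1
    refine ⟨⟨ha, h1⟩, ?_⟩
    rintro ⟨w, w', r1, r2, r3, r4, r5⟩
    apply h2
    refine ⟨w, w', rel_cut.2 ⟨r4.1, r1⟩, rel_cut.2 ⟨r5.1, r2⟩, adj_cut.2 ⟨r4.1, r5.1, r3⟩, ?_, ?_⟩
    · rw [cut_of_lt r4.1]; exact r4.2
    · rw [cut_of_lt r5.1]; exact r5.2
  exact ⟨key _ hu h.1.1 h.2.1, key _ hv h.1.2 h.2.2⟩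

/-- The main deterministic statement. -/
theorem Nice.exists_K2t {t : ℕ} {σ : St V 𝔹} (h : Nice Q t σ) (hQ : 100 ≤ Q) (ht : 1 ≤ t)
    (h𝔹 : Q ^ 498 ≤ Fintype.card 𝔹) (S : Finset V) (hS : 55 * Q ^ 498 ≤ S.card) :
    ∃ a ∈ S, ∃ b ∈ S, a ≠ b ∧ ∃ T ⊆ S, T.card = t ∧ ∀ y ∈ T,
      (GG σ).Adj a y ∧ (GG σ).Adj b y := by
  have hm : 1 ≤ Q ^ 498 := Nat.one_le_pow _ _ (by omega)
  obtain ⟨S0, hS0, c0, lt0⟩ := exists_initial S (2 * Q ^ 498) (by omega)
  have hS' : 53 * Q ^ 498 ≤ (S \ S0).card := by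
    rw [Finset.card_sdiff_of_subset hS0]; omega
  obtain ⟨S1, hS1, c1, lt1⟩ := exists_initial (S \ S0) (2 * Q ^ 498) (by omega)
  set R := (S \ S0) \ S1 with hR
  have hRcard : 51 * Q ^ 498 ≤ R.card := by
    rw [hR, Finset.card_sdiff_of_subset hS1]; omega
  have hRS : R ⊆ S := Finset.sdiff_subset.trans Finset.sdiff_subset
  have hS1S : S1 ⊆ S := hS1.trans Finset.sdiff_subset
  obtain ⟨l, u, v, hl, hu, hv, hu0, hv1, hlu, hlv⟩ := exists_family h.d1 h𝔹 c0 c1
    (fun a ha b hb => lt0 a ha b (hS1 hb)) (Q ^ 498) le_rfl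
  have huR : ∀ i, ∀ y ∈ R, u i < y := fun i y hy => lt0 _ (hu0 i) y (Finset.sdiff_subset hy)
  have hvR : ∀ i, ∀ y ∈ R, v i < y := fun i y hy => lt1 _ (hv1 i) y hy
  have huv : ∀ i j, u i ≠ v j := fun i j => (lt0 _ (hu0 i) _ (hS1 (hv1 j))).ne
  have hfew := few_related h.d2 (Fintype.card_fin _) hu hv huv
  have hgood : ∀ y ∈ R, Good Q (cut σ y) l u v := by
    intro y hy
    refine ⟨Fintype.card_fin _, h.loc.cut y, h.l6.cut y, hl, hu, hv, ?_, ?_, ?_⟩
    · intro i
      exact mem_cut_fst.2 ⟨huR i y hy, hlu i⟩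
    · intro i
      exact mem_cut_fst.2 ⟨hvR i y hy, hlv i⟩
    · have : ∀ i j, Unrel (cut σ y) u v i j ↔ Unrel σ u v i j := by
        intro i j
        unfold Unrel
        rw [cut_of_lt (huR i y hy), cut_of_lt (huR j y hy), cut_of_lt (hvR i y hy),
          cut_of_lt (hvR j y hy)]
      simp only [this]
      exact hfew
  set RB := R.filter fun y => Bad (cut σ y) u v t (σ y) with hRB
  have hRBcard : RB.card < 50 * Q ^ 498 := by
    refine lt_of_le_of_lt (Finset.card_le_card ?_) (h.dm l u v)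
    intro y hy
    rw [hRB, Finset.mem_filter] at hy
    exact Finset.mem_filter.2 ⟨Finset.mem_univ _, hgood y hy.1, hy.2⟩
  have hRG : Q ^ 498 < (R \ RB).card := by
    have hsubR : RB ⊆ R := Finset.filter_subset _ _
    have := Finset.card_sdiff_add_card_eq_card hsubR
    omega
  -- double counting
  have hex : ∃ i, t ≤ ((R \ RB).filter fun y => Gd (cut σ y) u v (σ y) i).card := by
    by_contra hno
    push Not at hno
    have s1 : (R \ RB).card * t ≤
        ∑ y ∈ R \ RB, (univ.filter fun i => Gd (cut σ y) u v (σ y) i).card := by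
      rw [← smul_eq_mul]
      refine Finset.card_nsmul_le_sum _ _ _ fun y hy => ?_
      by_contra hlt
      push Not at hlt
      have hy' := Finset.mem_sdiff.1 hy
      exact hy'.2 (Finset.mem_filter.2 ⟨hy'.1, hlt⟩)
    have s2 : ∑ y ∈ R \ RB, (univ.filter fun i => Gd (cut σ y) u v (σ y) i).card =
        ∑ i, ((R \ RB).filter fun y => Gd (cut σ y) u v (σ y) i).card := by
      simp only [Finset.card_filter]
      exact Finset.sum_comm
    have s3 : ∑ i, ((R \ RB).filter fun y => Gd (cut σ y) u v (σ y) i).card ≤ Q ^ 498 * t := by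
      refine (Finset.sum_le_card_nsmul _ _ t fun i _ => (hno i).le).trans (le_of_eq ?_)
      rw [Finset.card_univ, Fintype.card_fin, smul_eq_mul]
    have s4 : Q ^ 498 * t < (R \ RB).card * t := Nat.mul_lt_mul_of_pos_right hRG ht
    omega
  obtain ⟨i, hi⟩ := hex
  obtain ⟨T, hT, hTcard⟩ := Finset.exists_subset_card_eq hi
  refine ⟨u i, hS0 (hu0 i), v i, hS1S (hv1 i), huv i i, T, ?_, hTcard, ?_⟩
  · exact hT.trans ((Finset.filter_subset _ _).trans (Finset.sdiff_subset.trans hRS))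
  · intro y hy
    have hy' := Finset.mem_filter.1 (hT hy)
    have hyR := (Finset.mem_sdiff.1 hy'.1).1
    exact adj_of_Gd (huR i y hyR) (hvR i y hyR) hy'.2

end Det

/-- Turn the vertices into a copy of `K_{2,t}`. -/
lemma not_free_of {n t : ℕ} {G : SimpleGraph (Fin n)} {S : Finset (Fin n)} {a b : Fin n}
    (ha : a ∈ S) (hb : b ∈ S) (hab : a ≠ b) {T : Finset (Fin n)} (hT : T ⊆ S)
    (hcard : T.card = t) (hadj : ∀ y ∈ T, G.Adj a y ∧ G.Adj b y) :
    ¬ (completeBipartiteGraph (Fin 2) (Fin t)).Free (G.induce (S : Set (Fin n))) := by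
  rw [SimpleGraph.not_free]
  let e := T.orderEmbOfFin hcard
  have he : ∀ j, e j ∈ T := fun j => T.orderEmbOfFin_mem hcard j
  let p : Fin 2 → Fin n := ![a, b]
  have hp : ∀ i, p i ∈ S := by
    intro i
    fin_cases i
    · exact ha
    · exact hb
  have hpadj : ∀ i, ∀ y ∈ T, G.Adj (p i) y := by
    intro i y hy
    fin_cases i
    · exact (hadj y hy).1
    · exact (hadj y hy).2
  have hpinj : Function.Injective p := by
    intro i j hij
    fin_cases i <;> fin_cases j
    · rfl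
    · exact absurd hij hab
    · exact absurd hij hab.symm
    · rfl
  let φ : Fin 2 ⊕ Fin t → (S : Set (Fin n)) :=
    Sum.elim (fun i => ⟨p i, hp i⟩) (fun j => ⟨e j, hT (he j)⟩)
  refine ⟨⟨⟨φ, ?_⟩, ?_⟩⟩
  · rintro (i | i) (j | j) hij
    · simp [completeBipartiteGraph] at hij
    · exact hpadj i _ (he j)
    · exact (hpadj j _ (he i)).symm
    · simp [completeBipartiteGraph] at hij
  · rintro (i | i) (j | j) hij
    · have := congrArg Subtype.val hij
      exact congrArg Sum.inl (hpinj this)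
    · have h1 : p i = e j := congrArg Subtype.val hij
      exact absurd (h1 ▸ hpadj i _ (he j)) (by simp)
    · have h1 : e i = p j := congrArg Subtype.val hij
      exact absurd (h1 ▸ hpadj j _ (he i)) (by simp)
    · have := congrArg Subtype.val hij
      exact congrArg Sum.inr (e.injective this)

/-- **Main theorem**: exponent `0.498`. -/
theorem main (t : ℕ) (ht : 2 ≤ t) : ∃ C : ℝ, 0 < C ∧ ∀ n : ℕ,
    ∃ G : SimpleGraph (Fin n), G.CliqueFree 4 ∧
      ∀ S : Finset (Fin n),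
        (completeBipartiteGraph (Fin 2) (Fin t)).Free (G.induce (S : Set (Fin n))) →
          (S.card : ℝ) ≤ C * (n : ℝ) ^ ((1 : ℝ) / 2 - 1 / 500) := by
  obtain ⟨Q0, hQ0⟩ := Filter.eventually_atTop.1 (exists_nice t)
  set q : ℕ := Q0 + 100 with hq
  refine ⟨55 * ((q : ℝ) + 2) ^ 498, by positivity, ?_⟩
  intro n
  rcases Nat.eq_zero_or_pos n with rfl | hn
  · refine ⟨⊥, ?_, ?_⟩
    · intro s hs
      have := hs.card_eq
      have h2 : s.card ≤ 0 := (Finset.card_le_univ s).trans (by simp)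
      omega
    · intro S _
      have h2 : S.card = 0 := by
        have := (Finset.card_le_univ S).trans (le_of_eq (Fintype.card_fin 0))
        omega
      rw [h2]
      simp only [Nat.cast_zero]
      positivity
  · set z : ℝ := (n : ℝ) ^ ((1 : ℝ) / 1000) with hz
    have hn1 : (1 : ℝ) ≤ n := by exact_mod_cast hn
    have hz1 : 1 ≤ z := Real.one_le_rpow hn1 (by norm_num)
    have hzpow : z ^ 1000 = n := by
      rw [hz, ← Real.rpow_natCast, ← Real.rpow_mul (by positivity)]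
      norm_num
    set Q : ℕ := q + ⌈z⌉₊ with hQdef
    have hQge : Q0 ≤ Q := by omega
    have hQ100 : 100 ≤ Q := by omega
    have hzQ : z ≤ Q := by
      rw [hQdef]; push_cast
      have := Nat.le_ceil z
      have : (0 : ℝ) ≤ q := Nat.cast_nonneg q
      linarith
    have hQz : (Q : ℝ) ≤ (q + 2) * z := by
      rw [hQdef]; push_cast
      have h1 := (Nat.ceil_lt_add_one (by linarith : 0 ≤ z)).le
      have h2 : (0 : ℝ) ≤ q := Nat.cast_nonneg q
      nlinarith
    have hnQ : n ≤ Q ^ 1000 := by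
      have : (n : ℝ) ≤ (Q : ℝ) ^ 1000 := by
        rw [← hzpow]
        exact pow_le_pow_left₀ (by linarith) hzQ _
      exact_mod_cast this
    obtain ⟨σ, hσ⟩ := hQ0 Q hQge
    let f : Fin n ↪ Fin (Q ^ 1000) := Fin.castLEEmb hnQ
    refine ⟨(GG σ).comap f, ?_, ?_⟩
    · exact (GG_cliqueFree σ).comap ⟨(SimpleGraph.Embedding.comap f (GG σ)).toCopy⟩
    · intro S hfree
      by_contra hcon
      push Not at hcon
      have hSlarge : 55 * Q ^ 498 ≤ S.card := by
        have h1 : z ^ 498 = (n : ℝ) ^ ((1 : ℝ) / 2 - 1 / 500) := by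
          rw [hz, ← Real.rpow_natCast, ← Real.rpow_mul (by positivity)]
          norm_num
        rw [← h1, mul_assoc, ← mul_pow] at hcon
        have h2 : 55 * (Q : ℝ) ^ 498 ≤ (S.card : ℝ) := by
          refine le_trans ?_ hcon.le
          gcongr
        exact_mod_cast h2
      have h𝔹 : Q ^ 498 ≤ Fintype.card (Blk Q) := by
        rw [Fintype.card_fin]
        exact Nat.pow_le_pow_right (by omega) (by norm_num)
      obtain ⟨a, ha, b, hb, hab, T, hTS, hTcard, hadj⟩ :=
        hσ.exists_K2t hQ100 (by omega) h𝔹 (S.map f) (by rwa [Finset.card_map])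
      obtain ⟨a', ha', rfl⟩ := Finset.mem_map.1 ha
      obtain ⟨b', hb', rfl⟩ := Finset.mem_map.1 hb
      obtain ⟨T', hT'S, rfl⟩ := Finset.subset_map_iff.1 hTS
      refine not_free_of (G := (GG σ).comap f) ha' hb' (fun h => hab (by rw [h])) hT'S
        (by rwa [Finset.card_map] at hTcard) ?_ hfree
      intro y hy
      exact hadj (f y) (Finset.mem_map_of_mem f hy)

end Pool.Agent.H40.ER
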