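import Pool.Agent.H40.ER.Prob

/-!
# The deterministic part: neighbourhoods, the pairs `TT`, and the bound for their intersections
-/

set_option linter.unusedSectionVars false

namespace Pool.Agent.H40.ER

open Finset
open scoped Classical

variable {V 𝔹 : Type} [Fintype V] [LinearOrder V] [Fintype 𝔹] [DecidableEq 𝔹]

/-- data of one vertex -/
abbrev Sd (𝔹 : Type) : Type := Finset 𝔹 × Finset 𝔹

/-- data of all the vertices -/
abbrev St (V 𝔹 : Type) : Type := V → Sd 𝔹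

/-- the relation between the data of two vertices (the first one being the earlier one) -/
def tri (s s' : Sd 𝔹) : Prop := (s.1 ∩ s'.2).Nonempty ∧ Disjoint s.1 s'.1

/-- forward relation -/
def rel (σ : St V 𝔹) (u v : V) : Prop := u < v ∧ tri (σ u) (σ v)

/-- adjacency -/
def adj (σ : St V 𝔹) (a b : V) : Prop := rel σ a b ∨ rel σ b a

/-- forward neighbourhood -/
noncomputable def D (σ : St V 𝔹) (u : V) : Finset V := univ.filter (rel σ u)

/-- forget all vertices from `y` on -/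
def cut (σ : St V 𝔹) (y : V) : St V 𝔹 := fun v => if v < y then σ v else (∅, ∅)

/-- pairs of blocks witnessed by edges in the forward neighbourhood of `u` -/
noncomputable def TT (σ : St V 𝔹) (u : V) : Finset (𝔹 × 𝔹) :=
  univ.filter fun p => ∃ w w', rel σ u w ∧ rel σ u w' ∧ adj σ w w' ∧ p.1 ∈ (σ w).1 ∧
    p.2 ∈ (σ w').1

section Basic

variable {σ : St V 𝔹} {u v w w' y : V} {x x' : 𝔹}

lemma mem_D : v ∈ D σ u ↔ rel σ u v := by simp [D]

lemma mem_TT : (x, x') ∈ TT σ u ↔ ∃ w w', rel σ u w ∧ rel σ u w' ∧ adj σ w w' ∧ x ∈ (σ w).1 ∧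
    x' ∈ (σ w').1 := by simp [TT]

lemma adj.symm (h : adj σ u v) : adj σ v u := Or.symm h

lemma adj.ne (h : adj σ u v) : u ≠ v := by
  rintro rfl
  rcases h with h | h <;> exact lt_irrefl _ h.1

lemma adj.rel_of_lt (h : adj σ u v) (hlt : u < v) : rel σ u v := by
  rcases h with h | h
  · exact h
  · exact absurd h.1 (not_lt.2 hlt.le)

lemma rel.disj (h : rel σ u v) : Disjoint (σ u).1 (σ v).1 := h.2.2

lemma adj.disj (h : adj σ u v) : Disjoint (σ u).1 (σ v).1 := by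
  rcases h with h | h
  · exact h.disj
  · exact h.disj.symm

lemma TT_swap (h : (x, x') ∈ TT σ u) : (x', x) ∈ TT σ u := by
  rw [mem_TT] at h ⊢
  obtain ⟨w, w', h1, h2, h3, h4, h5⟩ := h
  exact ⟨w', w, h2, h1, h3.symm, h5, h4⟩

lemma cut_of_lt (h : v < y) : cut σ y v = σ v := if_pos h

lemma cut_of_not_lt (h : ¬ v < y) : cut σ y v = (∅, ∅) := if_neg h

lemma mem_cut_fst : x ∈ (cut σ y v).1 ↔ v < y ∧ x ∈ (σ v).1 := by
  by_cases h : v < y
  · simp [cut_of_lt h, h]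
  · simp [cut_of_not_lt h, h]

lemma rel_cut : rel (cut σ y) u v ↔ v < y ∧ rel σ u v := by
  constructor
  · rintro ⟨h1, h2⟩
    by_cases hv : v < y
    · rw [cut_of_lt hv, cut_of_lt (h1.trans hv)] at h2
      exact ⟨hv, h1, h2⟩
    · rw [cut_of_not_lt hv] at h2
      simp [tri] at h2
  · rintro ⟨hv, h1, h2⟩
    refine ⟨h1, ?_⟩
    rw [cut_of_lt hv, cut_of_lt (h1.trans hv)]
    exact h2

lemma adj_cut : adj (cut σ y) u v ↔ u < y ∧ v < y ∧ adj σ u v := by
  unfold adj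
  rw [rel_cut, rel_cut]
  constructor
  · rintro (⟨h1, h2⟩ | ⟨h1, h2⟩)
    · exact ⟨h2.1.trans h1, h1, Or.inl h2⟩
    · exact ⟨h1, h2.1.trans h1, Or.inr h2⟩
  · rintro ⟨h1, h2, h3 | h3⟩
    · exact Or.inl ⟨h2, h3⟩
    · exact Or.inr ⟨h1, h3⟩

lemma D_cut_subset : D (cut σ y) u ⊆ D σ u := by
  intro v hv
  rw [mem_D, rel_cut] at hv
  exact mem_D.2 hv.2

lemma D_cut_of_not_lt (h : ¬ u < y) : D (cut σ y) u = ∅ := by
  rw [Finset.eq_empty_iff_forall_notMem]
  intro v hv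
  rw [mem_D, rel_cut] at hv
  exact h (hv.2.1.trans hv.1)

lemma mem_TT_cut : (x, x') ∈ TT (cut σ y) u ↔ ∃ w w', w < y ∧ w' < y ∧ rel σ u w ∧ rel σ u w' ∧
    adj σ w w' ∧ x ∈ (σ w).1 ∧ x' ∈ (σ w').1 := by
  rw [mem_TT]
  constructor
  · rintro ⟨w, w', h1, h2, h3, h4, h5⟩
    rw [rel_cut] at h1 h2
    rw [adj_cut] at h3
    rw [mem_cut_fst] at h4 h5
    exact ⟨w, w', h1.1, h2.1, h1.2, h2.2, h3.2.2, h4.2, h5.2⟩
  · rintro ⟨w, w', h1, h2, h3, h4, h5, h6, h7⟩
    exact ⟨w, w', rel_cut.2 ⟨h1, h3⟩, rel_cut.2 ⟨h2, h4⟩, adj_cut.2 ⟨h1, h2, h5⟩,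
      mem_cut_fst.2 ⟨h1, h6⟩, mem_cut_fst.2 ⟨h2, h7⟩⟩

lemma TT_cut_subset : TT (cut σ y) u ⊆ TT σ u := by
  rintro ⟨x, x'⟩ h
  rw [mem_TT_cut] at h
  obtain ⟨w, w', h1, h2, h3, h4, h5, h6, h7⟩ := h
  exact mem_TT.2 ⟨w, w', h3, h4, h5, h6, h7⟩

lemma TT_cut_of_not_lt (h : ¬ u < y) : TT (cut σ y) u = ∅ := by
  rw [Finset.eq_empty_iff_forall_notMem]
  rintro ⟨x, x'⟩ hp
  rw [mem_TT_cut] at hp
  obtain ⟨w, w', h1, h2, h3, -⟩ := hp
  exact h (h3.1.trans h1)

end Basic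

/-- The local properties. -/
structure Loc (Q : ℕ) (σ : St V 𝔹) : Prop where
  hJ : ∀ v, (σ v).1.card ≤ Q ^ 16
  hG : ∀ v, (σ v).2.card ≤ Q ^ 32
  L0 : ∀ x, (univ.filter fun v => x ∈ (σ v).1).card ≤ Q ^ 489
  L1 : ∀ u, (D σ u).card ≤ Q ^ 521
  L2 : ∀ u x, ((D σ u).filter fun v => x ∈ (σ v).1).card ≤ Q ^ 9
  L3 : ∀ u w, Disjoint (σ u).1 (σ w).1 → (D σ u ∩ D σ w).card ≤ Q ^ 41

/-- Few common pairs. -/
def L6 (Q : ℕ) (σ : St V 𝔹) : Prop :=
  ∀ u w, Disjoint (σ u).1 (σ w).1 → (TT σ u ∩ TT σ w).card ≤ Q ^ 300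

lemma Loc.cut {Q : ℕ} {σ : St V 𝔹} (h : Loc Q σ) (y : V) : Loc Q (cut σ y) where
  hJ v := by
    by_cases hv : v < y
    · rw [cut_of_lt hv]; exact h.hJ v
    · rw [cut_of_not_lt hv]; simp
  hG v := by
    by_cases hv : v < y
    · rw [cut_of_lt hv]; exact h.hG v
    · rw [cut_of_not_lt hv]; simp
  L0 x := by
    refine (Finset.card_le_card ?_).trans (h.L0 x)
    intro v hv
    rw [Finset.mem_filter, mem_cut_fst] at hv
    rw [Finset.mem_filter]
    exact ⟨Finset.mem_univ _, hv.2.2⟩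
  L1 u := (Finset.card_le_card D_cut_subset).trans (h.L1 u)
  L2 u x := by
    refine (Finset.card_le_card ?_).trans (h.L2 u x)
    intro v hv
    rw [Finset.mem_filter, mem_cut_fst] at hv
    rw [Finset.mem_filter]
    exact ⟨D_cut_subset hv.1, hv.2.2⟩
  L3 u w hd := by
    by_cases hu : u < y
    · by_cases hw : w < y
      · rw [cut_of_lt hu, cut_of_lt hw] at hd
        exact (Finset.card_le_card (Finset.inter_subset_inter D_cut_subset D_cut_subset)).trans
          (h.L3 u w hd)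
      · rw [D_cut_of_not_lt hw]; simp
    · rw [D_cut_of_not_lt hu]; simp

lemma L6.cut {Q : ℕ} {σ : St V 𝔹} (h : L6 Q σ) (y : V) : L6 Q (cut σ y) := by
  intro u w hd
  by_cases hu : u < y
  · by_cases hw : w < y
    · rw [cut_of_lt hu, cut_of_lt hw] at hd
      exact (Finset.card_le_card (Finset.inter_subset_inter TT_cut_subset TT_cut_subset)).trans
        (h u w hd)
    · rw [TT_cut_of_not_lt hw]; simp
  · rw [TT_cut_of_not_lt hu]; simp

section Counting

variable {Q : ℕ} {σ : St V 𝔹}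

lemma card_biUnion_le_mul {α β : Type*} [DecidableEq β] (s : Finset α) (t : α → Finset β)
    {a b : ℕ} (hs : s.card ≤ a) (ht : ∀ i ∈ s, (t i).card ≤ b) : (s.biUnion t).card ≤ a * b :=
  (Finset.card_biUnion_le_card_mul s t b ht).trans (Nat.mul_le_mul_right b hs)

/-- vertices of `D u` before `w` related to `w` -/
lemma Loc.back_card (h : Loc Q σ) (u w : V) :
    ((D σ u).filter fun v => rel σ v w).card ≤ Q ^ 41 := by
  have hsub : ((D σ u).filter fun v => rel σ v w) ⊆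
      (σ w).2.biUnion fun x => (D σ u).filter fun v => x ∈ (σ v).1 := by
    intro v hv
    rw [Finset.mem_filter] at hv
    obtain ⟨x, hx⟩ := hv.2.2.1
    rw [Finset.mem_inter] at hx
    rw [Finset.mem_biUnion]
    exact ⟨x, hx.2, Finset.mem_filter.2 ⟨hv.1, hx.1⟩⟩
  refine (Finset.card_le_card hsub).trans ((card_biUnion_le_mul _ _ (h.hG w)
    (fun x _ => h.L2 u x)).trans (le_of_eq ?_))
  rw [← pow_add]

lemma Loc.adj_card (h : Loc Q σ) {u w : V} (hw : rel σ u w) :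
    ((D σ u).filter fun v => adj σ w v).card ≤ 2 * Q ^ 41 := by
  have hsub : ((D σ u).filter fun v => adj σ w v) ⊆
      (D σ u ∩ D σ w) ∪ ((D σ u).filter fun v => rel σ v w) := by
    intro v hv
    rw [Finset.mem_filter] at hv
    rw [Finset.mem_union, Finset.mem_inter, Finset.mem_filter]
    rcases hv.2 with h1 | h1
    · exact Or.inl ⟨hv.1, mem_D.2 h1⟩
    · exact Or.inr ⟨hv.1, h1⟩
  refine (Finset.card_le_card hsub).trans ((Finset.card_union_le _ _).trans ?_)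
  have h1 := h.L3 u w hw.disj
  have h2 := h.back_card u w
  omega

/-- pairs coming from `w ∈ A`, `w' ∈ D u` adjacent to `w` -/
noncomputable def pairsFrom (σ : St V 𝔹) (u : V) (A : Finset V) : Finset (𝔹 × 𝔹) :=
  A.biUnion fun w => ((D σ u).filter fun v => adj σ w v).biUnion fun w' => (σ w).1 ×ˢ (σ w').1

lemma mem_pairsFrom {u : V} {A : Finset V} {x x' : 𝔹} : (x, x') ∈ pairsFrom σ u A ↔
    ∃ w ∈ A, ∃ w', rel σ u w' ∧ adj σ w w' ∧ x ∈ (σ w).1 ∧ x' ∈ (σ w').1 := by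
  simp only [pairsFrom, Finset.mem_biUnion, Finset.mem_filter, Finset.mem_product, mem_D, and_assoc]

lemma Loc.pairsFrom_card (h : Loc Q σ) {u : V} {A : Finset V} (hA : A ⊆ D σ u) {a : ℕ}
    (ha : A.card ≤ a) : (pairsFrom σ u A).card ≤ a * (2 * Q ^ 73) := by
  refine card_biUnion_le_mul _ _ ha fun w hw => ?_
  have h1 := h.adj_card (mem_D.1 (hA hw))
  refine (card_biUnion_le_mul _ _ h1 (b := Q ^ 32) fun w' _ => ?_).trans (le_of_eq ?_)
  · rw [Finset.card_product]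
    refine (Nat.mul_le_mul (h.hJ w) (h.hJ w')).trans (le_of_eq ?_)
    rw [← pow_add]
  · rw [mul_assoc, ← pow_add]

lemma Loc.TT_card (h : Loc Q σ) (u : V) : (TT σ u).card ≤ 2 * Q ^ 594 := by
  have hsub : TT σ u ⊆ pairsFrom σ u (D σ u) := by
    rintro ⟨x, x'⟩ hp
    rw [mem_TT] at hp
    obtain ⟨w, w', h1, h2, h3, h4, h5⟩ := hp
    exact mem_pairsFrom.2 ⟨w, mem_D.2 h1, w', h2, h3, h4, h5⟩
  refine (Finset.card_le_card hsub).trans
    ((h.pairsFrom_card (Finset.Subset.refl _) (h.L1 u)).trans (le_of_eq ?_))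
  rw [mul_left_comm, ← pow_add]

lemma Loc.TT_row (h : Loc Q σ) (u : V) (z : 𝔹) :
    ((TT σ u).filter fun p => p.1 = z).card ≤ 2 * Q ^ 82 := by
  have hsub : ((TT σ u).filter fun p => p.1 = z) ⊆
      pairsFrom σ u ((D σ u).filter fun v => z ∈ (σ v).1) := by
    rintro ⟨x, x'⟩ hp
    rw [Finset.mem_filter, mem_TT] at hp
    obtain ⟨⟨w, w', h1, h2, h3, h4, h5⟩, h6⟩ := hp
    simp only at h6
    subst h6
    exact mem_pairsFrom.2 ⟨w, Finset.mem_filter.2 ⟨mem_D.2 h1, h4⟩, w', h2, h3, h4, h5⟩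
  refine (Finset.card_le_card hsub).trans
    ((h.pairsFrom_card (Finset.filter_subset _ _) (h.L2 u z)).trans (le_of_eq ?_))
  rw [mul_left_comm, ← pow_add]

lemma Loc.TT_col (h : Loc Q σ) (u : V) (z : 𝔹) :
    ((TT σ u).filter fun p => p.2 = z).card ≤ 2 * Q ^ 82 := by
  refine le_trans (le_of_eq ?_) (h.TT_row u z)
  refine Finset.card_bij (fun p _ => p.swap) ?_ ?_ ?_
  · rintro ⟨x, x'⟩ hp
    rw [Finset.mem_filter] at hp
    exact Finset.mem_filter.2 ⟨TT_swap hp.1, hp.2⟩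
  · intro p _ q _ hpq
    exact Prod.swap_injective hpq
  · rintro ⟨x, x'⟩ hp
    rw [Finset.mem_filter] at hp
    exact ⟨(x', x), Finset.mem_filter.2 ⟨TT_swap hp.1, hp.2⟩, rfl⟩

/-- The event which produces common pairs at the vertex `q`. -/
def Fe (σ : St V 𝔹) (u u' q : V) : Prop :=
  rel σ u' q ∧ ∃ x x' z, (x, x') ∈ TT (ER.cut σ q) u ∧ rel σ u' z ∧ rel σ z q ∧ x ∈ (σ z).1 ∧
    x' ∈ (σ q).1

/-- The pairs produced. -/
noncomputable def prodPairs (σ : St V 𝔹) (u u' : V) : Finset (𝔹 × 𝔹) :=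
  (univ.filter (Fe σ u u')).biUnion fun q =>
    ((D σ u').filter fun z => rel σ z q).biUnion fun z => (σ z).1 ×ˢ (σ q).1

lemma Loc.prodPairs_card (h : Loc Q σ) {u u' : V} (hF : (univ.filter (Fe σ u u')).card ≤ Q ^ 133) :
    (prodPairs σ u u').card ≤ Q ^ 206 := by
  refine (card_biUnion_le_mul _ _ hF (b := Q ^ 73) fun q _ => ?_).trans (le_of_eq ?_)
  · refine (card_biUnion_le_mul _ _ (h.back_card u' q) (b := Q ^ 32) fun z _ => ?_).trans
      (le_of_eq ?_)
    · rw [Finset.card_product]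
      refine (Nat.mul_le_mul (h.hJ z) (h.hJ q)).trans (le_of_eq ?_)
      rw [← pow_add]
    · rw [← pow_add]
  · rw [← pow_add]

lemma mem_prodPairs_of {u u' w w' z z' : V} {x x' : 𝔹}
    (h1 : rel σ u w) (h2 : rel σ u w') (h3 : adj σ w w') (h4 : x ∈ (σ w).1) (h5 : x' ∈ (σ w').1)
    (k1 : rel σ u' z) (k2 : rel σ u' z') (k3 : adj σ z z') (k4 : x ∈ (σ z).1)
    (k5 : x' ∈ (σ z').1) (l1 : w < z') (l2 : w' < z') (l3 : z < z') :
    (x, x') ∈ prodPairs σ u u' := by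
  have hr := k3.rel_of_lt l3
  refine Finset.mem_biUnion.2 ⟨z', Finset.mem_filter.2 ⟨Finset.mem_univ _, k2, x, x', z,
    mem_TT_cut.2 ⟨w, w', l1, l2, h1, h2, h3, h4, h5⟩, k1, hr, k4, k5⟩, ?_⟩
  refine Finset.mem_biUnion.2 ⟨z, Finset.mem_filter.2 ⟨mem_D.2 k1, hr⟩, ?_⟩
  exact Finset.mem_product.2 ⟨k4, k5⟩

lemma card_image_swap_le (s : Finset (𝔹 × 𝔹)) : (s.image Prod.swap).card ≤ s.card :=
  Finset.card_image_le

lemma Loc.inter_card (h : Loc Q σ) (hQ : 100 ≤ Q)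
    (hF : ∀ u u', Disjoint (σ u).1 (σ u').1 → (univ.filter (Fe σ u u')).card ≤ Q ^ 133) :
    L6 Q σ := by
  intro u u' hd
  set C := pairsFrom σ u (D σ u ∩ D σ u') with hC
  have hCcard : C.card ≤ 2 * Q ^ 114 := by
    refine (h.pairsFrom_card Finset.inter_subset_left (h.L3 u u' hd)).trans (le_of_eq ?_)
    rw [mul_left_comm, ← pow_add]
  have hP1 := h.prodPairs_card (hF u u' hd)
  have hP2 := h.prodPairs_card (hF u' u hd.symm)
  have hsub : TT σ u ∩ TT σ u' ⊆ (C ∪ C.image Prod.swap) ∪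
      ((prodPairs σ u u' ∪ (prodPairs σ u u').image Prod.swap) ∪
      (prodPairs σ u' u ∪ (prodPairs σ u' u).image Prod.swap)) := by
    rintro ⟨x, x'⟩ hp
    rw [Finset.mem_inter, mem_TT, mem_TT] at hp
    obtain ⟨⟨w, w', h1, h2, h3, h4, h5⟩, ⟨z, z', k1, k2, k3, k4, k5⟩⟩ := hp
    simp only [Finset.mem_union]
    by_cases hwz : w = z ∨ w = z'
    · have hw : rel σ u' w := by
        rcases hwz with rfl | rfl
        · exact k1
        · exact k2
      refine Or.inl (Or.inl (mem_pairsFrom.2 ⟨w, ?_, w', h2, h3, h4, h5⟩))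
      exact Finset.mem_inter.2 ⟨mem_D.2 h1, mem_D.2 hw⟩
    by_cases hwz' : w' = z ∨ w' = z'
    · have hw : rel σ u' w' := by
        rcases hwz' with rfl | rfl
        · exact k1
        · exact k2
      refine Or.inl (Or.inr (Finset.mem_image.2 ⟨(x', x), mem_pairsFrom.2
        ⟨w', ?_, w, h1, h3.symm, h5, h4⟩, rfl⟩))
      exact Finset.mem_inter.2 ⟨mem_D.2 h2, mem_D.2 hw⟩
    push Not at hwz hwz'
    right
    have hww := h3.ne
    have hzz := k3.ne
    rcases lt_or_gt_of_ne hzz with hlt | hlt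
    · -- z < z'
      rcases lt_or_gt_of_ne hww with hlt' | hlt'
      · rcases lt_or_gt_of_ne hwz'.2 with h6 | h6
        · -- w < w' < z'
          exact Or.inl (Or.inl (mem_prodPairs_of h1 h2 h3 h4 h5 k1 k2 k3 k4 k5
            (hlt'.trans h6) h6 hlt))
        · -- z' < w'
          exact Or.inr (Or.inl (mem_prodPairs_of k1 k2 k3 k4 k5 h1 h2 h3 h4 h5
            (hlt.trans h6) h6 hlt'))
      · rcases lt_or_gt_of_ne hwz.2 with h6 | h6
        · -- w' < w < z'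
          exact Or.inl (Or.inl (mem_prodPairs_of h1 h2 h3 h4 h5 k1 k2 k3 k4 k5
            h6 (hlt'.trans h6) hlt))
        · -- z' < w, w' < w
          refine Or.inr (Or.inr (Finset.mem_image.2 ⟨(x', x), ?_, rfl⟩))
          exact mem_prodPairs_of k2 k1 k3.symm k5 k4 h2 h1 h3.symm h5 h4
            h6 (hlt.trans h6) hlt'
    · -- z' < z
      rcases lt_or_gt_of_ne hww with hlt' | hlt'
      · rcases lt_or_gt_of_ne hwz'.1 with h6 | h6
        · -- w < w' < z
          refine Or.inl (Or.inr (Finset.mem_image.2 ⟨(x', x), ?_, rfl⟩))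
          exact mem_prodPairs_of h2 h1 h3.symm h5 h4 k2 k1 k3.symm k5 k4
            h6 (hlt'.trans h6) hlt
        · -- z < w'
          exact Or.inr (Or.inl (mem_prodPairs_of k1 k2 k3 k4 k5 h1 h2 h3 h4 h5
            h6 (hlt.trans h6) hlt'))
      · rcases lt_or_gt_of_ne hwz.1 with h6 | h6
        · -- w' < w < z
          refine Or.inl (Or.inr (Finset.mem_image.2 ⟨(x', x), ?_, rfl⟩))
          exact mem_prodPairs_of h2 h1 h3.symm h5 h4 k2 k1 k3.symm k5 k4
            (hlt'.trans h6) h6 hlt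
        · -- z < w
          refine Or.inr (Or.inr (Finset.mem_image.2 ⟨(x', x), ?_, rfl⟩))
          exact mem_prodPairs_of k2 k1 k3.symm k5 k4 h2 h1 h3.symm h5 h4
            (hlt.trans h6) h6 hlt'
  have hcard := Finset.card_le_card hsub
  have e1 := Finset.card_union_le (C ∪ C.image Prod.swap)
      ((prodPairs σ u u' ∪ (prodPairs σ u u').image Prod.swap) ∪
      (prodPairs σ u' u ∪ (prodPairs σ u' u).image Prod.swap))
  have e2 := Finset.card_union_le C (C.image Prod.swap)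
  have e3 := Finset.card_union_le (prodPairs σ u u' ∪ (prodPairs σ u u').image Prod.swap)
      (prodPairs σ u' u ∪ (prodPairs σ u' u).image Prod.swap)
  have e4 := Finset.card_union_le (prodPairs σ u u') ((prodPairs σ u u').image Prod.swap)
  have e5 := Finset.card_union_le (prodPairs σ u' u) ((prodPairs σ u' u).image Prod.swap)
  have e6 := card_image_swap_le C
  have e7 := card_image_swap_le (prodPairs σ u u')
  have e8 := card_image_swap_le (prodPairs σ u' u)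
  have f1 : Q ^ 114 ≤ Q ^ 206 := Nat.pow_le_pow_right (by omega) (by norm_num)
  have f2 : 8 * Q ^ 206 ≤ Q ^ 300 := by
    calc 8 * Q ^ 206 ≤ Q * Q ^ 206 := Nat.mul_le_mul_right _ (by omega)
      _ = Q ^ 207 := by rw [← pow_succ']
      _ ≤ Q ^ 300 := Nat.pow_le_pow_right (by omega) (by norm_num)
  omega

end Counting

/-- `u, v` are joined through an edge between earlier common neighbours -/
def Tr (σ : St V 𝔹) (u v : V) : Prop :=
  ∃ w w', rel σ u w ∧ rel σ u w' ∧ adj σ w w' ∧ rel σ w v ∧ rel σ w' v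

/-- The graph. -/
def GG (σ : St V 𝔹) : SimpleGraph V where
  Adj a b := (rel σ a b ∧ ¬ Tr σ a b) ∨ (rel σ b a ∧ ¬ Tr σ b a)
  symm := ⟨fun _ _ h => Or.symm h⟩
  loopless := ⟨fun _ h => by rcases h with h | h <;> exact lt_irrefl _ h.1.1⟩

lemma GG_adj_of_lt {σ : St V 𝔹} {a b : V} (h : a < b) :
    (GG σ).Adj a b ↔ rel σ a b ∧ ¬ Tr σ a b := by
  constructor
  · rintro (h1 | h1)
    · exact h1
    · exact absurd h1.1.1 (not_lt.2 h.le)
  · exact fun h1 => Or.inl h1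

lemma GG_cliqueFree (σ : St V 𝔹) : (GG σ).CliqueFree 4 := by
  intro s hs
  have hcard : s.card = 4 := hs.card_eq
  have hne : s.Nonempty := Finset.card_pos.1 (by omega)
  set a := s.min' hne with ha
  set d := s.max' hne with hd
  have hamem : a ∈ s := s.min'_mem hne
  have hdmem : d ∈ s := s.max'_mem hne
  have had : a < d := Finset.min'_lt_max'_of_card s (by omega)
  have hc1 : ((s.erase a).erase d).card = 2 := by
    rw [Finset.card_erase_of_mem (Finset.mem_erase.2 ⟨had.ne', hdmem⟩),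
      Finset.card_erase_of_mem hamem]
    omega
  obtain ⟨b, c, hbc, hset⟩ := Finset.card_eq_two.1 hc1
  have hb : b ∈ (s.erase a).erase d := by rw [hset]; simp
  have hc : c ∈ (s.erase a).erase d := by rw [hset]; simp
  simp only [Finset.mem_erase] at hb hc
  have hab : a < b := lt_of_le_of_ne (s.min'_le b hb.2.2) (Ne.symm hb.2.1)
  have hac : a < c := lt_of_le_of_ne (s.min'_le c hc.2.2) (Ne.symm hc.2.1)
  have hbd : b < d := lt_of_le_of_ne (s.le_max' b hb.2.2) hb.1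
  have hcd : c < d := lt_of_le_of_ne (s.le_max' c hc.2.2) hc.1
  have hcl := hs.isClique
  have A1 := (GG_adj_of_lt had).1 (hcl hamem hdmem had.ne)
  have A2 := (GG_adj_of_lt hab).1 (hcl hamem hb.2.2 hab.ne)
  have A3 := (GG_adj_of_lt hac).1 (hcl hamem hc.2.2 hac.ne)
  have A4 := (GG_adj_of_lt hbd).1 (hcl hb.2.2 hdmem hbd.ne)
  have A5 := (GG_adj_of_lt hcd).1 (hcl hc.2.2 hdmem hcd.ne)
  have A6 : adj σ b c := by
    rcases hcl hb.2.2 hc.2.2 hbc with h | h
    · exact Or.inl h.1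
    · exact Or.inr h.1
  exact A1.2 ⟨b, c, A2.1, A3.1, A6, A4.1, A5.1⟩

end Pool.Agent.H40.ER
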