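import Pool.Agent.H40.ER.Model
import Pool.Agent.H40.ER.State

/-!
# One step: a new vertex is bad for the family with small probability
-/

set_option linter.unusedSectionVars false
set_option exponentiation.threshold 4000

namespace Pool.Agent.H40.ER

open Finset
open scoped Classical

variable {V 𝔹 I : Type} [Fintype V] [LinearOrder V] [Fintype 𝔹] [DecidableEq 𝔹] [Fintype I]
  [DecidableEq I]

/-- no partners between the `i`th and the `j`th pair -/
def Unrel (σ : St V 𝔹) (u v : I → V) (i j : I) : Prop :=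
  (Disjoint (σ (u i)).1 (σ (u j)).1 ∧ Disjoint (σ (u i)).1 (σ (v j)).1) ∧
    (Disjoint (σ (v i)).1 (σ (u j)).1 ∧ Disjoint (σ (v i)).1 (σ (v j)).1)

/-- The hypotheses on the past and on the family. -/
structure Good (Q : ℕ) (σ : St V 𝔹) (l : I → 𝔹) (u v : I → V) : Prop where
  card : Fintype.card I = Q ^ 498
  loc : Loc Q σ
  l6 : L6 Q σ
  linj : Function.Injective l
  uinj : Function.Injective u
  vinj : Function.Injective v
  lu : ∀ i, l i ∈ (σ (u i)).1
  lv : ∀ i, l i ∈ (σ (v i)).1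
  few : Q ^ 3 * (univ.filter fun p : I × I => ¬ Unrel σ u v p.1 p.2).card ≤ 4 * Q ^ 996

/-- the new vertex with data `s` is separated from `a` by an earlier edge -/
def Tk (σ : St V 𝔹) (a : V) (s : Sd 𝔹) : Prop :=
  ∃ w w', rel σ a w ∧ rel σ a w' ∧ adj σ w w' ∧ tri (σ w) s ∧ tri (σ w') s

/-- the new vertex is joined to both vertices of the `i`th pair -/
def Gd (σ : St V 𝔹) (u v : I → V) (s : Sd 𝔹) (i : I) : Prop :=
  (tri (σ (u i)) s ∧ tri (σ (v i)) s) ∧ ¬ Tk σ (u i) s ∧ ¬ Tk σ (v i) s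

/-- the new vertex is joined to fewer than `t` pairs -/
def Bad (σ : St V 𝔹) (u v : I → V) (t : ℕ) (s : Sd 𝔹) : Prop :=
  (univ.filter fun i => Gd σ u v s i).card < t

/-- pairs of blocks which kill the `i`th pair -/
noncomputable def TI (σ : St V 𝔹) (u v : I → V) (i : I) : Finset (𝔹 × 𝔹) :=
  TT σ (u i) ∪ TT σ (v i)

section Basic

variable {Q : ℕ} {σ : St V 𝔹} {l : I → 𝔹} {u v : I → V}

lemma TI_of_Tk {s : Sd 𝔹} {a : V} (h : Tk σ a s) :
    ∃ p ∈ TT σ a, p.1 ∈ s.2 ∧ p.2 ∈ s.2 := by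
  obtain ⟨w, w', h1, h2, h3, h4, h5⟩ := h
  obtain ⟨x, hx⟩ := h4.1
  obtain ⟨x', hx'⟩ := h5.1
  rw [Finset.mem_inter] at hx hx'
  exact ⟨(x, x'), mem_TT.2 ⟨w, w', h1, h2, h3, hx.1, hx'.1⟩, hx.2, hx'.2⟩

lemma TT_distinct {a : V} {b : 𝔹} (hb : b ∈ (σ a).1) {p : 𝔹 × 𝔹} (hp : p ∈ TT σ a) :
    b ≠ p.1 ∧ b ≠ p.2 ∧ p.1 ≠ p.2 := by
  obtain ⟨x, x'⟩ := p
  rw [mem_TT] at hp
  obtain ⟨w, w', h1, h2, h3, h4, h5⟩ := hp
  refine ⟨?_, ?_, ?_⟩
  · rintro rfl
    exact Finset.disjoint_left.1 h1.disj hb h4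
  · rintro rfl
    exact Finset.disjoint_left.1 h2.disj hb h5
  · rintro h
    simp only at h
    subst h
    exact Finset.disjoint_left.1 h3.disj h4 h5

lemma Good.distinct (h : Good Q σ l u v) {i : I} {p : 𝔹 × 𝔹} (hp : p ∈ TI σ u v i) :
    l i ≠ p.1 ∧ l i ≠ p.2 ∧ p.1 ≠ p.2 := by
  rcases Finset.mem_union.1 hp with hp | hp
  · exact TT_distinct (h.lu i) hp
  · exact TT_distinct (h.lv i) hp

lemma Good.TI_card (h : Good Q σ l u v) (i : I) : (TI σ u v i).card ≤ 4 * Q ^ 594 := by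
  refine (Finset.card_union_le _ _).trans ?_
  have h1 := h.loc.TT_card (u i)
  have h2 := h.loc.TT_card (v i)
  omega

lemma Good.TI_row (h : Good Q σ l u v) (i : I) (z : 𝔹) :
    ((TI σ u v i).filter fun p => p.1 = z).card ≤ 4 * Q ^ 82 := by
  unfold TI
  rw [Finset.filter_union]
  refine (Finset.card_union_le _ _).trans ?_
  have h1 := h.loc.TT_row (u i) z
  have h2 := h.loc.TT_row (v i) z
  omega

lemma Good.TI_col (h : Good Q σ l u v) (i : I) (z : 𝔹) :
    ((TI σ u v i).filter fun p => p.2 = z).card ≤ 4 * Q ^ 82 := by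
  unfold TI
  rw [Finset.filter_union]
  refine (Finset.card_union_le _ _).trans ?_
  have h1 := h.loc.TT_col (u i) z
  have h2 := h.loc.TT_col (v i) z
  omega

lemma Good.TI_inter (h : Good Q σ l u v) {i j : I} (hij : Unrel σ u v i j) :
    (TI σ u v i ∩ TI σ u v j).card ≤ 4 * Q ^ 300 := by
  have hsub : TI σ u v i ∩ TI σ u v j ⊆
      ((TT σ (u i) ∩ TT σ (u j)) ∪ (TT σ (u i) ∩ TT σ (v j))) ∪
      ((TT σ (v i) ∩ TT σ (u j)) ∪ (TT σ (v i) ∩ TT σ (v j))) := by
    intro p hp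
    simp only [TI, Finset.mem_inter, Finset.mem_union] at hp ⊢
    tauto
  refine (Finset.card_le_card hsub).trans ((Finset.card_union_le _ _).trans ?_)
  have e1 := Finset.card_union_le (TT σ (u i) ∩ TT σ (u j)) (TT σ (u i) ∩ TT σ (v j))
  have e2 := Finset.card_union_le (TT σ (v i) ∩ TT σ (u j)) (TT σ (v i) ∩ TT σ (v j))
  have f1 := h.l6 _ _ hij.1.1
  have f2 := h.l6 _ _ hij.1.2
  have f3 := h.l6 _ _ hij.2.1
  have f4 := h.l6 _ _ hij.2.2
  omega

end Basic

/-! ### Part A: pairs lost because the new vertex is a partner of one of their vertices -/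

section PartA

variable {Q : ℕ} {σ : St V 𝔹} {l : I → 𝔹} {u v : I → V}

/-- pairs which are lost -/
noncomputable def killed (σ : St V 𝔹) (u v : I → V) (J : Finset 𝔹) : Finset I :=
  univ.filter fun i => ¬ (Disjoint (σ (u i)).1 J ∧ Disjoint (σ (v i)).1 J)

/-- the multiplicity of a block -/
noncomputable def mult (σ : St V 𝔹) (u v : I → V) (x : 𝔹) : ℕ :=
  (univ.filter fun i => x ∈ (σ (u i)).1).card + (univ.filter fun i => x ∈ (σ (v i)).1).card

lemma killed_card_le (J : Finset 𝔹) : (killed σ u v J).card ≤ ∑ x ∈ J, mult σ u v x := by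
  have hsub : killed σ u v J ⊆ J.biUnion fun x => (univ.filter fun i => x ∈ (σ (u i)).1) ∪
      (univ.filter fun i => x ∈ (σ (v i)).1) := by
    intro i hi
    simp only [killed, Finset.mem_filter, Finset.mem_univ, true_and] at hi
    simp only [Finset.mem_biUnion, Finset.mem_union, Finset.mem_filter, Finset.mem_univ, true_and]
    by_contra hcon
    push Not at hcon
    apply hi
    rw [Finset.disjoint_left, Finset.disjoint_left]
    exact ⟨fun x hx hxJ => (hcon x hxJ).1 hx, fun x hx hxJ => (hcon x hxJ).2 hx⟩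
  refine (Finset.card_le_card hsub).trans (Finset.card_biUnion_le.trans ?_)
  exact Finset.sum_le_sum fun x _ => Finset.card_union_le _ _

lemma card_preimage_le (h : Loc Q σ) (hu : Function.Injective u) (x : 𝔹) :
    (univ.filter fun i => x ∈ (σ (u i)).1).card ≤ Q ^ 489 := by
  refine le_trans ?_ (h.L0 x)
  refine Finset.card_le_card_of_injOn u ?_ hu.injOn
  intro i hi
  simpa using hi

lemma Good.mult_le (h : Good Q σ l u v) (x : 𝔹) : mult σ u v x ≤ 2 * Q ^ 489 := by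
  have h1 := card_preimage_le h.loc h.uinj x
  have h2 := card_preimage_le h.loc h.vinj x
  unfold mult
  omega

lemma sum_preimage (w : I → V) : ∑ x, (univ.filter fun i => x ∈ (σ (w i)).1).card =
    ∑ i, (σ (w i)).1.card := by
  simp only [Finset.card_filter]
  rw [Finset.sum_comm]
  refine Finset.sum_congr rfl fun i _ => ?_
  rw [← Finset.card_filter]
  congr 1
  ext x; simp

lemma Good.sum_mult (h : Good Q σ l u v) : ∑ x, mult σ u v x ≤ 2 * Q ^ 514 := by
  unfold mult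
  rw [Finset.sum_add_distrib, sum_preimage, sum_preimage]
  have h1 : ∀ w : I → V, ∑ i, (σ (w i)).1.card ≤ Q ^ 514 := by
    intro w
    refine (Finset.sum_le_card_nsmul _ _ (Q ^ 16) fun i _ => h.loc.hJ (w i)).trans (le_of_eq ?_)
    rw [Finset.card_univ, h.card, smul_eq_mul, ← pow_add]
  have := h1 u
  have := h1 v
  omega

/-- blocks of large multiplicity -/
noncomputable def bigB (Q : ℕ) (σ : St V 𝔹) (u v : I → V) : Finset 𝔹 :=
  univ.filter fun x => Q ^ 400 ≤ mult σ u v x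

lemma Good.bigB_card (h : Good Q σ l u v) (hQ : 0 < Q) : (bigB Q σ u v).card ≤ 2 * Q ^ 114 := by
  have h1 : (bigB Q σ u v).card * Q ^ 400 ≤ ∑ x, mult σ u v x := by
    rw [← smul_eq_mul]
    refine (Finset.card_nsmul_le_sum _ _ _ ?_).trans
      (Finset.sum_le_sum_of_subset (Finset.subset_univ (bigB Q σ u v)))
    intro x hx
    exact (Finset.mem_filter.1 hx).2
  have h2 := h1.trans h.sum_mult
  have h3 : 2 * Q ^ 514 = (2 * Q ^ 114) * Q ^ 400 := by rw [mul_assoc, ← pow_add]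
  rw [h3] at h2
  exact Nat.le_of_mul_le_mul_right h2 (pow_pos hQ _)

lemma Good.killed_small (h : Good Q σ l u v) (hQ : 100 ≤ Q) {J : Finset 𝔹} (hJ : J.card ≤ Q ^ 16)
    (hb : (bigB Q σ u v ∩ J).card ≤ 1) : 2 * (killed σ u v J).card ≤ Q ^ 498 := by
  have h1 := killed_card_le (σ := σ) (u := u) (v := v) J
  have h2 : ∑ x ∈ J, mult σ u v x ≤ 2 * Q ^ 489 + Q ^ 416 := by
    rw [← Finset.sum_filter_add_sum_filter_not J (fun x => x ∈ bigB Q σ u v)]
    refine Nat.add_le_add ?_ ?_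
    · refine (Finset.sum_le_card_nsmul _ _ (2 * Q ^ 489) fun x _ => h.mult_le x).trans ?_
      rw [smul_eq_mul]
      have : (J.filter fun x => x ∈ bigB Q σ u v) = bigB Q σ u v ∩ J := by
        rw [Finset.filter_mem_eq_inter, Finset.inter_comm]
      rw [this]
      nlinarith [pow_pos (show 0 < Q by omega) 489]
    · refine (Finset.sum_le_card_nsmul _ _ (Q ^ 400) fun x hx => ?_).trans ?_
      · have := (Finset.mem_filter.1 hx).2
        simp only [bigB, Finset.mem_filter, Finset.mem_univ, true_and, not_le] at this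
        exact this.le
      · rw [smul_eq_mul]
        refine (Nat.mul_le_mul_right _ ((Finset.card_filter_le _ _).trans hJ)).trans (le_of_eq ?_)
        rw [← pow_add]
  have h3 : Q ^ 416 ≤ Q ^ 489 := Nat.pow_le_pow_right (by omega) (by norm_num)
  have h4 : 100 * Q ^ 489 ≤ Q ^ 490 := by
    calc 100 * Q ^ 489 ≤ Q * Q ^ 489 := Nat.mul_le_mul_right _ hQ
      _ = Q ^ 490 := by rw [← pow_succ']
  have h5 : Q ^ 490 ≤ Q ^ 498 := Nat.pow_le_pow_right (by omega) (by norm_num)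
  omega

variable {Ω : Type} [Fintype Ω]

lemma choose_le_pow' (n k : ℕ) : (n.choose k : ℝ) ≤ (n : ℝ) ^ k := by
  have h1 : (n.choose k : ℝ) ≤ (n : ℝ) ^ k / (k.factorial : ℝ) := Nat.choose_le_pow_div k n
  refine h1.trans (div_le_self (by positivity) ?_)
  exact_mod_cast Nat.factorial_pos k

lemma Good.probA (h : Good Q σ l u v) (M : Model Q Ω 𝔹) (hQ : 100 ≤ Q) :
    pr (fun ω => Q ^ 498 < 2 * (killed σ u v (M.J ω)).card) ≤
      (2 * (Q : ℝ) ^ 114) ^ 2 * (1 / (Q : ℝ) ^ 512) ^ 2 := by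
  refine le_trans (pr_mono (q := fun ω => 2 ≤ (bigB Q σ u v ∩ M.J ω).card) ?_) ?_
  · intro ω hω
    by_contra hcon
    have := h.killed_small hQ (M.cardJ ω).le (by omega)
    omega
  · refine (M.cntJ _ 2).trans (mul_le_mul_of_nonneg_right ?_ (by positivity))
    refine (choose_le_pow' _ 2).trans (pow_le_pow_left₀ (by positivity) ?_ 2)
    have := h.bigB_card (by omega)
    exact_mod_cast this

/-- blocks of the surviving pairs -/
noncomputable def okB (σ : St V 𝔹) (l : I → 𝔹) (u v : I → V) (J : Finset 𝔹) : Finset 𝔹 :=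
  (univ \ killed σ u v J).image l

lemma Good.okB_card (h : Good Q σ l u v) (J : Finset 𝔹) :
    (okB σ l u v J).card + (killed σ u v J).card = Q ^ 498 := by
  unfold okB
  rw [Finset.card_image_of_injective _ h.linj, ← h.card, ← Finset.card_univ,
    Finset.card_sdiff_of_subset (Finset.subset_univ _)]
  have := Finset.card_le_univ (killed σ u v J)
  rw [Finset.card_univ]
  omega

lemma probB (M : Model Q Ω 𝔹) (hh : ℕ) :
    pr (fun ω => (Q : ℝ) ^ 498 / 2 ≤ ((okB σ l u v (M.J ω)).card : ℝ) ∧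
      (okB σ l u v (M.J ω) ∩ M.G ω).card ≤ hh) ≤
      2 ^ hh * Real.exp (-((Q : ℝ) ^ 498 / 2 / (2 * (Q : ℝ) ^ 496))) :=
  M.lowG (okB σ l u v) _ hh

end PartA

/-! ### Part C: pairs of blocks -/

section PartC

variable {Q : ℕ} {σ : St V 𝔹} {l : I → 𝔹} {u v : I → V} {Ω : Type} [Fintype Ω]

/-- labelled triples of blocks -/
noncomputable def EE (σ : St V 𝔹) (u v : I → V) : Finset (I × (𝔹 × 𝔹)) :=
  univ.biUnion fun i => (TI σ u v i).image fun p => (i, p)

lemma mem_EE {e : I × (𝔹 × 𝔹)} : e ∈ EE σ u v ↔ e.2 ∈ TI σ u v e.1 := by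
  unfold EE
  rw [Finset.mem_biUnion]
  constructor
  · rintro ⟨i, -, hi⟩
    obtain ⟨p, hp, rfl⟩ := Finset.mem_image.1 hi
    exact hp
  · intro h
    exact ⟨e.1, Finset.mem_univ _, Finset.mem_image.2 ⟨e.2, h, rfl⟩⟩

/-- the three blocks of a labelled triple -/
def vs (l : I → 𝔹) (e : I × (𝔹 × 𝔹)) : Finset 𝔹 := {l e.1, e.2.1, e.2.2}

lemma mem_vs {e : I × (𝔹 × 𝔹)} {x : 𝔹} : x ∈ vs l e ↔ x = l e.1 ∨ x = e.2.1 ∨ x = e.2.2 := by
  simp [vs]

lemma Good.card_vs (h : Good Q σ l u v) {e : I × (𝔹 × 𝔹)} (he : e ∈ EE σ u v) :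
    (vs l e).card = 3 := by
  obtain ⟨h1, h2, h3⟩ := h.distinct (mem_EE.1 he)
  unfold vs
  rw [Finset.card_insert_of_notMem, Finset.card_insert_of_notMem, Finset.card_singleton]
  · simpa using h3
  · simp [h1, h2]

lemma Good.EE_card (h : Good Q σ l u v) : (EE σ u v).card ≤ 4 * Q ^ 1092 := by
  refine (card_biUnion_le_mul _ _ (a := Q ^ 498) (b := 4 * Q ^ 594) ?_ ?_).trans (le_of_eq ?_)
  · rw [Finset.card_univ, h.card]
  · intro i _
    exact Finset.card_image_le.trans (h.TI_card i)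
  · rw [mul_left_comm, ← pow_add]

/-- labelled triples containing a given block -/
noncomputable def EEz (σ : St V 𝔹) (l : I → 𝔹) (u v : I → V) (z : 𝔹) : Finset (I × (𝔹 × 𝔹)) :=
  (EE σ u v).filter fun e => z ∈ vs l e

lemma Good.EEz_card (h : Good Q σ l u v) (hQ : 100 ≤ Q) (z : 𝔹) :
    (EEz σ l u v z).card ≤ Q ^ 595 := by
  have hsub : EEz σ l u v z ⊆ ((univ.filter fun i => l i = z).biUnion fun i =>
      (TI σ u v i).image fun p => (i, p)) ∪
      ((univ.biUnion fun i => ((TI σ u v i).filter fun p => p.1 = z).image fun p => (i, p)) ∪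
      (univ.biUnion fun i => ((TI σ u v i).filter fun p => p.2 = z).image fun p => (i, p))) := by
    intro e he
    simp only [EEz, Finset.mem_filter, mem_EE, mem_vs] at he
    simp only [Finset.mem_union, Finset.mem_biUnion, Finset.mem_image, Finset.mem_filter,
      Finset.mem_univ, true_and]
    rcases he.2 with h1 | h1 | h1
    · exact Or.inl ⟨e.1, h1.symm, e.2, he.1, rfl⟩
    · exact Or.inr (Or.inl ⟨e.1, e.2, ⟨he.1, h1.symm⟩, rfl⟩)
    · exact Or.inr (Or.inr ⟨e.1, e.2, ⟨he.1, h1.symm⟩, rfl⟩)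
  have c1 : ((univ.filter fun i => l i = z).biUnion fun i =>
      (TI σ u v i).image fun p => (i, p)).card ≤ 1 * (4 * Q ^ 594) := by
    refine card_biUnion_le_mul _ _ ?_ fun i _ => Finset.card_image_le.trans (h.TI_card i)
    rw [Finset.card_le_one]
    intro a ha b hb
    rw [Finset.mem_filter] at ha hb
    exact h.linj (ha.2.trans hb.2.symm)
  have c2 : (univ.biUnion fun i => ((TI σ u v i).filter fun p => p.1 = z).image
      fun p => (i, p)).card ≤ Q ^ 498 * (4 * Q ^ 82) := by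
    refine card_biUnion_le_mul _ _ ?_ fun i _ => Finset.card_image_le.trans (h.TI_row i z)
    rw [Finset.card_univ, h.card]
  have c3 : (univ.biUnion fun i => ((TI σ u v i).filter fun p => p.2 = z).image
      fun p => (i, p)).card ≤ Q ^ 498 * (4 * Q ^ 82) := by
    refine card_biUnion_le_mul _ _ ?_ fun i _ => Finset.card_image_le.trans (h.TI_col i z)
    rw [Finset.card_univ, h.card]
  have e1 : Q ^ 498 * (4 * Q ^ 82) = 4 * Q ^ 580 := by rw [mul_left_comm, ← pow_add]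
  have e2 : Q ^ 580 ≤ Q ^ 594 := Nat.pow_le_pow_right (by omega) (by norm_num)
  have e3 : 100 * Q ^ 594 ≤ Q ^ 595 := by
    calc 100 * Q ^ 594 ≤ Q * Q ^ 594 := Nat.mul_le_mul_right _ hQ
      _ = Q ^ 595 := by rw [← pow_succ']
  refine (Finset.card_le_card hsub).trans ((Finset.card_union_le _ _).trans ?_)
  refine (Nat.add_le_add c1 ((Finset.card_union_le _ _).trans (Nat.add_le_add c2 c3))).trans ?_
  omega

/-- six different blocks -/
def C1 (σ : St V 𝔹) (l : I → 𝔹) (u v : I → V) (G : Finset 𝔹) : Prop :=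
  ∃ p ∈ EE σ u v ×ˢ EE σ u v, Disjoint (vs l p.1) (vs l p.2) ∧ vs l p.1 ∪ vs l p.2 ⊆ G

/-- five different blocks -/
def C2 (σ : St V 𝔹) (l : I → 𝔹) (u v : I → V) (G : Finset 𝔹) : Prop :=
  ∃ z ∈ (univ : Finset 𝔹), ∃ p ∈ EEz σ l u v z ×ˢ EEz σ l u v z,
    5 ≤ (vs l p.1 ∪ vs l p.2).card ∧ vs l p.1 ∪ vs l p.2 ⊆ G

lemma Good.probC1 (h : Good Q σ l u v) (M : Model Q Ω 𝔹) :
    pr (fun ω => C1 σ l u v (M.G ω)) ≤ (4 * (Q : ℝ) ^ 1092) ^ 2 * (1 / (Q : ℝ) ^ 496) ^ 6 := by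
  refine pr_exists_le_mul _ _ (by positivity) ?_ ?_
  · rw [Finset.card_product, ← sq]
    push_cast
    refine pow_le_pow_left₀ (by positivity) ?_ 2
    exact_mod_cast h.EE_card
  · rintro ⟨e, e'⟩ hp
    rw [Finset.mem_product] at hp
    by_cases hd : Disjoint (vs l e) (vs l e')
    · refine (pr_mono (q := fun ω => vs l e ∪ vs l e' ⊆ M.G ω) fun ω hω => hω.2).trans
        ((M.subG _).trans (le_of_eq ?_))
      rw [Finset.card_union_of_disjoint hd, h.card_vs hp.1, h.card_vs hp.2]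
    · rw [pr_false fun ω hω => hd hω.1]
      positivity

lemma Good.probC2 (h : Good Q σ l u v) (M : Model Q Ω 𝔹) (hQ : 100 ≤ Q) :
    pr (fun ω => C2 σ l u v (M.G ω)) ≤
      (Q : ℝ) ^ 528 * (((Q : ℝ) ^ 595) ^ 2 * (1 / (Q : ℝ) ^ 496) ^ 5) := by
  have hQ1 : (1 : ℝ) ≤ (Q : ℝ) := by
    have : 1 ≤ Q := by omega
    exact_mod_cast this
  refine pr_exists_le_mul _ _ (by positivity) ?_ ?_
  · rw [Finset.card_univ, M.card𝔹]
    push_cast
    exact le_rfl
  · intro z _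
    refine pr_exists_le_mul _ _ (by positivity) ?_ ?_
    · rw [Finset.card_product, ← sq]
      push_cast
      refine pow_le_pow_left₀ (by positivity) ?_ 2
      exact_mod_cast h.EEz_card hQ z
    · rintro ⟨e, e'⟩ -
      by_cases hd : 5 ≤ (vs l e ∪ vs l e').card
      · refine (pr_mono (q := fun ω => vs l e ∪ vs l e' ⊆ M.G ω) fun ω hω => hω.2).trans
          ((M.subG _).trans ?_)
        refine pow_le_pow_of_le_one (by positivity) ?_ hd
        rw [div_le_one (by positivity)]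
        exact one_le_pow₀ hQ1
      · rw [pr_false fun ω hω => hd hω.1]
        positivity

/-- pairs killed by `p` -/
noncomputable def LL (σ : St V 𝔹) (u v : I → V) (p : 𝔹 × 𝔹) : Finset I :=
  univ.filter fun i => p ∈ TI σ u v i

/-- heavy pairs of blocks -/
noncomputable def HV (Q : ℕ) (σ : St V 𝔹) (u v : I → V) : Finset (𝔹 × 𝔹) :=
  univ.filter fun p => p.1 ≠ p.2 ∧ Q ^ 497 ≤ (LL σ u v p).card

lemma Good.HV_card (h : Good Q σ l u v) (hQ : 100 ≤ Q) : (HV Q σ u v).card ≤ 8 * Q ^ 302 := by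
  set R : Finset (I × I) := univ.filter fun p : I × I => ¬ Unrel σ u v p.1 p.2 with hR
  set U : Finset (I × I) := univ.filter fun p : I × I => Unrel σ u v p.1 p.2 with hU
  -- the number of unrelated pairs of indices in `L p`
  have h1 : ∀ p ∈ HV Q σ u v, Q ^ 994 ≤
      2 * (U.filter fun q => p ∈ TI σ u v q.1 ∩ TI σ u v q.2).card := by
    intro p hp
    have hp2 := (Finset.mem_filter.1 hp).2.2
    have hsub : LL σ u v p ×ˢ LL σ u v p ⊆
        R ∪ (U.filter fun q => p ∈ TI σ u v q.1 ∩ TI σ u v q.2) := by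
      rintro ⟨i, j⟩ hij
      rw [Finset.mem_product] at hij
      simp only [LL, Finset.mem_filter, Finset.mem_univ, true_and] at hij
      simp only [hR, hU, Finset.mem_union, Finset.mem_filter, Finset.mem_univ, true_and,
        Finset.mem_inter]
      by_cases hun : Unrel σ u v i j
      · exact Or.inr ⟨hun, hij⟩
      · exact Or.inl hun
    have h2 := (Finset.card_le_card hsub).trans (Finset.card_union_le _ _)
    rw [Finset.card_product] at h2
    have h3 : Q ^ 994 ≤ (LL σ u v p).card * (LL σ u v p).card := by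
      calc Q ^ 994 = Q ^ 497 * Q ^ 497 := by rw [← pow_add]
        _ ≤ _ := Nat.mul_le_mul hp2 hp2
    have h4 : R.card ≤ 4 * Q ^ 993 := by
      have := h.few
      have e : 4 * Q ^ 996 = Q ^ 3 * (4 * Q ^ 993) := by
        rw [mul_left_comm, ← pow_add]
      rw [e] at this
      exact Nat.le_of_mul_le_mul_left this (pow_pos (by omega) _)
    have h5 : 100 * Q ^ 993 ≤ Q ^ 994 := by
      calc 100 * Q ^ 993 ≤ Q * Q ^ 993 := Nat.mul_le_mul_right _ hQ
        _ = Q ^ 994 := by rw [← pow_succ']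
    omega
  have h2 : (HV Q σ u v).card * Q ^ 994 ≤
      ∑ p ∈ HV Q σ u v, 2 * (U.filter fun q => p ∈ TI σ u v q.1 ∩ TI σ u v q.2).card := by
    rw [← smul_eq_mul]
    exact Finset.card_nsmul_le_sum _ _ _ h1
  have h3 : ∑ p ∈ HV Q σ u v, (U.filter fun q => p ∈ TI σ u v q.1 ∩ TI σ u v q.2).card ≤
      Q ^ 996 * (4 * Q ^ 300) := by
    calc ∑ p ∈ HV Q σ u v, (U.filter fun q => p ∈ TI σ u v q.1 ∩ TI σ u v q.2).card
        ≤ ∑ p, (U.filter fun q => p ∈ TI σ u v q.1 ∩ TI σ u v q.2).card :=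
          Finset.sum_le_sum_of_subset (Finset.subset_univ _)
      _ = ∑ q ∈ U, (TI σ u v q.1 ∩ TI σ u v q.2).card := by
          simp only [Finset.card_filter]
          rw [Finset.sum_comm]
          refine Finset.sum_congr rfl fun q _ => ?_
          rw [← Finset.card_filter]
          congr 1
          ext p; simp
      _ ≤ U.card • (4 * Q ^ 300) := by
          refine Finset.sum_le_card_nsmul _ _ _ fun q hq => ?_
          exact h.TI_inter (Finset.mem_filter.1 hq).2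
      _ ≤ Q ^ 996 * (4 * Q ^ 300) := by
          rw [smul_eq_mul]
          refine Nat.mul_le_mul_right _ ((Finset.card_le_univ _).trans (le_of_eq ?_))
          rw [Fintype.card_prod, h.card, ← pow_add]
  rw [← Finset.mul_sum] at h2
  have h4 : (HV Q σ u v).card * Q ^ 994 ≤ (8 * Q ^ 302) * Q ^ 994 := by
    refine h2.trans ((Nat.mul_le_mul_left 2 h3).trans (le_of_eq ?_))
    rw [show 8 * Q ^ 302 * Q ^ 994 = 8 * (Q ^ 302 * Q ^ 994) by ring, ← pow_add,
      show 2 * (Q ^ 996 * (4 * Q ^ 300)) = 8 * (Q ^ 996 * Q ^ 300) by ring, ← pow_add]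
  exact Nat.le_of_mul_le_mul_right h4 (pow_pos (by omega) _)

/-- a heavy pair occurs -/
def C3 (Q : ℕ) (σ : St V 𝔹) (u v : I → V) (G : Finset 𝔹) : Prop :=
  ∃ p ∈ HV Q σ u v, ({p.1, p.2} : Finset 𝔹) ⊆ G

lemma Good.probC3 (h : Good Q σ l u v) (M : Model Q Ω 𝔹) (hQ : 100 ≤ Q) :
    pr (fun ω => C3 Q σ u v (M.G ω)) ≤ (8 * (Q : ℝ) ^ 302) * (1 / (Q : ℝ) ^ 496) ^ 2 := by
  refine pr_exists_le_mul _ _ (by positivity) ?_ ?_
  · exact_mod_cast h.HV_card hQ
  · intro p hp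
    refine (M.subG _).trans (le_of_eq ?_)
    rw [Finset.card_pair (Finset.mem_filter.1 hp).2.1]

/-- a light pair kills many surviving pairs -/
def C4 (Q : ℕ) (σ : St V 𝔹) (l : I → 𝔹) (u v : I → V) (G : Finset 𝔹) : Prop :=
  ∃ p ∈ (univ : Finset (𝔹 × 𝔹)), (LL σ u v p).card < Q ^ 497 ∧
    100 * Q ≤ ((LL σ u v p).image l ∩ G).card

lemma probC4 (M : Model Q Ω 𝔹) (hQ : 100 ≤ Q) :
    pr (fun ω => C4 Q σ l u v (M.G ω)) ≤ (Q : ℝ) ^ 1056 *
      (3 * ((Q : ℝ) ^ 497 * (1 / (Q : ℝ) ^ 496)) / (100 * Q)) ^ (100 * Q) := by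
  have hQ1 : (0 : ℝ) < (Q : ℝ) := by
    have : 0 < Q := by omega
    exact_mod_cast this
  refine pr_exists_le_mul _ _ (by positivity) ?_ ?_
  · rw [Finset.card_univ, Fintype.card_prod, M.card𝔹, ← pow_add]
    push_cast
    exact le_rfl
  · intro p _
    by_cases hp : (LL σ u v p).card < Q ^ 497
    · refine (pr_mono (q := fun ω => 100 * Q ≤ ((LL σ u v p).image l ∩ M.G ω).card)
        fun ω hω => hω.2).trans ((M.cntG _ _).trans ((choose_mul_pow_le _ _ (by positivity)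
        (by omega)).trans ?_))
      push_cast
      refine pow_le_pow_left₀ (by positivity) ?_ _
      have : (((LL σ u v p).image l).card : ℝ) ≤ (Q : ℝ) ^ 497 := by
        exact_mod_cast Finset.card_image_le.trans hp.le
      gcongr
    · rw [pr_false fun ω hω => hp hω.1]
      positivity

/-- The combinatorial lemma. -/
lemma Good.comb (h : Good Q σ l u v) (hQ : 100 ≤ Q) {G : Finset 𝔹} (K : Finset I)
    (hK : 900 * Q + 3 < K.card) (w : I → 𝔹 × 𝔹) (hw : ∀ i ∈ K, w i ∈ TI σ u v i)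
    (hG : ∀ i ∈ K, l i ∈ G ∧ (w i).1 ∈ G ∧ (w i).2 ∈ G) :
    C1 σ l u v G ∨ C2 σ l u v G ∨ C3 Q σ u v G ∨ C4 Q σ l u v G := by
  by_contra hcon
  push Not at hcon
  obtain ⟨n1, n2, n3, n4⟩ := hcon
  have hne : K.Nonempty := Finset.card_pos.1 (by omega)
  obtain ⟨i0, hi0⟩ := hne
  have hE : ∀ i ∈ K, (i, w i) ∈ EE σ u v := fun i hi => mem_EE.2 (hw i hi)
  have hvs : ∀ i ∈ K, vs l (i, w i) ⊆ G := by
    intro i hi x hx
    obtain ⟨g1, g2, g3⟩ := hG i hi
    rw [mem_vs] at hx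
    rcases hx with rfl | rfl | rfl
    · exact g1
    · exact g2
    · exact g3
  set Y := vs l (i0, w i0) with hY
  have hYcard : Y.card = 3 := h.card_vs (hE i0 hi0)
  have hpair : ∀ i ∈ K, l i ∉ Y → w i ∈ Y ×ˢ Y := by
    intro i hi hli
    have hXcard : (vs l (i, w i)).card = 3 := h.card_vs (hE i hi)
    have hsubG : vs l (i, w i) ∪ Y ⊆ G := Finset.union_subset (hvs i hi) (hvs i0 hi0)
    have hnd : ¬ Disjoint (vs l (i, w i)) Y := by
      intro hd
      exact n1 ⟨((i, w i), (i0, w i0)), Finset.mem_product.2 ⟨hE i hi, hE i0 hi0⟩, hd, hsubG⟩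
    have hun : (vs l (i, w i) ∪ Y).card < 5 := by
      by_contra hge
      push Not at hge
      rw [Finset.not_disjoint_iff] at hnd
      obtain ⟨z, hz1, hz2⟩ := hnd
      exact n2 ⟨z, Finset.mem_univ _, ((i, w i), (i0, w i0)), Finset.mem_product.2
        ⟨Finset.mem_filter.2 ⟨hE i hi, hz1⟩, Finset.mem_filter.2 ⟨hE i0 hi0, hz2⟩⟩, hge, hsubG⟩
    have hcards := Finset.card_union_add_card_inter (vs l (i, w i)) Y
    have hint : vs l (i, w i) ∩ Y ⊆ {(w i).1, (w i).2} := by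
      intro x hx
      rw [Finset.mem_inter, mem_vs] at hx
      rcases hx.1 with h1 | h1 | h1
      · exact absurd (h1 ▸ hx.2) hli
      · simp [h1]
      · simp [h1]
    have heq : vs l (i, w i) ∩ Y = {(w i).1, (w i).2} := by
      refine Finset.eq_of_subset_of_card_le hint ?_
      have := Finset.card_le_two (a := (w i).1) (b := (w i).2)
      omega
    have m1 : (w i).1 ∈ vs l (i, w i) ∩ Y := by rw [heq]; simp
    have m2 : (w i).2 ∈ vs l (i, w i) ∩ Y := by rw [heq]; simp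
    exact Finset.mem_product.2 ⟨(Finset.mem_inter.1 m1).2, (Finset.mem_inter.1 m2).2⟩
  have hex : ∃ p ∈ Y ×ˢ Y, 100 * Q < (K.filter fun i => w i = p).card := by
    by_contra hno
    push Not at hno
    have hsub : K ⊆ (univ.filter fun i => l i ∈ Y) ∪
        (Y ×ˢ Y).biUnion fun p => K.filter fun i => w i = p := by
      intro i hi
      rw [Finset.mem_union]
      by_cases hli : l i ∈ Y
      · exact Or.inl (Finset.mem_filter.2 ⟨Finset.mem_univ _, hli⟩)
      · exact Or.inr (Finset.mem_biUnion.2 ⟨w i, hpair i hi hli,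
          Finset.mem_filter.2 ⟨hi, rfl⟩⟩)
    have c1 : (univ.filter fun i => l i ∈ Y).card ≤ 3 := by
      rw [← hYcard]
      exact Finset.card_le_card_of_injOn l (by intro i hi; simpa using hi) h.linj.injOn
    have c2 : ((Y ×ˢ Y).biUnion fun p => K.filter fun i => w i = p).card ≤ 9 * (100 * Q) := by
      refine card_biUnion_le_mul _ _ ?_ hno
      rw [Finset.card_product, hYcard]
    have := (Finset.card_le_card hsub).trans (Finset.card_union_le _ _)
    omega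
  obtain ⟨p, -, hp⟩ := hex
  have hne : (K.filter fun i => w i = p).Nonempty := Finset.card_pos.1 (by omega)
  obtain ⟨i1, hi1⟩ := hne
  rw [Finset.mem_filter] at hi1
  obtain ⟨hi1K, hi1p⟩ := hi1
  have hd := h.distinct (hw i1 hi1K)
  have hg := hG i1 hi1K
  rw [hi1p] at hd hg
  by_cases hheavy : Q ^ 497 ≤ (LL σ u v p).card
  · apply n3
    refine ⟨p, Finset.mem_filter.2 ⟨Finset.mem_univ _, hd.2.2, hheavy⟩, ?_⟩
    intro x hx
    rw [Finset.mem_insert, Finset.mem_singleton] at hx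
    rcases hx with rfl | rfl
    · exact hg.2.1
    · exact hg.2.2
  · apply n4
    refine ⟨p, Finset.mem_univ _, not_le.1 hheavy, hp.le.trans ?_⟩
    rw [← Finset.card_image_of_injective (K.filter fun i => w i = p) h.linj]
    refine Finset.card_le_card ?_
    intro x hx
    obtain ⟨i, hi, rfl⟩ := Finset.mem_image.1 hx
    rw [Finset.mem_filter] at hi
    refine Finset.mem_inter.2 ⟨Finset.mem_image.2 ⟨i, ?_, rfl⟩, (hG i hi.1).1⟩
    refine Finset.mem_filter.2 ⟨Finset.mem_univ _, ?_⟩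
    rw [← hi.2]
    exact hw i hi.1

lemma Good.bad_cases (h : Good Q σ l u v) (hQ : 100 ≤ Q) (t : ℕ) (s : Sd 𝔹)
    (hbad : Bad σ u v t s) :
    Q ^ 498 < 2 * (killed σ u v s.1).card ∨
    ((Q : ℝ) ^ 498 / 2 ≤ ((okB σ l u v s.1).card : ℝ) ∧
      (okB σ l u v s.1 ∩ s.2).card ≤ 900 * Q + 3 + t) ∨
    C1 σ l u v s.2 ∨ C2 σ l u v s.2 ∨ C3 Q σ u v s.2 ∨ C4 Q σ l u v s.2 := by
  by_cases hA : Q ^ 498 < 2 * (killed σ u v s.1).card
  · exact Or.inl hA
  by_cases hB : (okB σ l u v s.1 ∩ s.2).card ≤ 900 * Q + 3 + t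
  · refine Or.inr (Or.inl ⟨?_, hB⟩)
    have h1 := h.okB_card s.1
    have h2 : Q ^ 498 ≤ 2 * (okB σ l u v s.1).card := by omega
    have h3 : (Q : ℝ) ^ 498 ≤ 2 * ((okB σ l u v s.1).card : ℝ) := by exact_mod_cast h2
    linarith
  refine Or.inr (Or.inr ?_)
  push Not at hB
  set H : Finset I := (univ \ killed σ u v s.1).filter fun i => l i ∈ s.2 with hH
  have hHcard : (okB σ l u v s.1 ∩ s.2).card ≤ H.card := by
    rw [← Finset.card_image_of_injective H h.linj]
    refine Finset.card_le_card ?_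
    intro x hx
    rw [Finset.mem_inter] at hx
    obtain ⟨i, hi, rfl⟩ := Finset.mem_image.1 hx.1
    exact Finset.mem_image.2 ⟨i, Finset.mem_filter.2 ⟨hi, hx.2⟩, rfl⟩
  set K : Finset I := H.filter fun i => ∃ p ∈ TI σ u v i, p.1 ∈ s.2 ∧ p.2 ∈ s.2 with hKdef
  have hsub : H ⊆ (univ.filter fun i => Gd σ u v s i) ∪ K := by
    intro i hi
    by_cases hiK : i ∈ K
    · exact Finset.mem_union_right _ hiK
    refine Finset.mem_union_left _ (Finset.mem_filter.2 ⟨Finset.mem_univ _, ?_⟩)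
    have hi' := hi
    rw [hH, Finset.mem_filter] at hi'
    obtain ⟨hi1, hi2⟩ := hi'
    have hnk : i ∉ killed σ u v s.1 := (Finset.mem_sdiff.1 hi1).2
    simp only [killed, Finset.mem_filter, Finset.mem_univ, true_and, not_not] at hnk
    refine ⟨⟨⟨⟨l i, Finset.mem_inter.2 ⟨h.lu i, hi2⟩⟩, hnk.1⟩,
      ⟨⟨l i, Finset.mem_inter.2 ⟨h.lv i, hi2⟩⟩, hnk.2⟩⟩, ?_, ?_⟩
    · intro hT
      obtain ⟨p, hp1, hp2⟩ := TI_of_Tk hT
      exact hiK (Finset.mem_filter.2 ⟨hi, p, Finset.mem_union_left _ hp1, hp2⟩)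
    · intro hT
      obtain ⟨p, hp1, hp2⟩ := TI_of_Tk hT
      exact hiK (Finset.mem_filter.2 ⟨hi, p, Finset.mem_union_right _ hp1, hp2⟩)
  have hcard := (Finset.card_le_card hsub).trans (Finset.card_union_le _ _)
  unfold Bad at hbad
  have hKcard : 900 * Q + 3 < K.card := by omega
  have hch : ∀ i, ∃ p : 𝔹 × 𝔹, i ∈ K → p ∈ TI σ u v i ∧ p.1 ∈ s.2 ∧ p.2 ∈ s.2 := by
    intro i
    by_cases hi : i ∈ K
    · obtain ⟨p, hp1, hp2⟩ := (Finset.mem_filter.1 hi).2
      exact ⟨p, fun _ => ⟨hp1, hp2⟩⟩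
    · exact ⟨(l i, l i), fun h => absurd h hi⟩
  choose w hw using hch
  refine h.comb hQ K hKcard w (fun i hi => (hw i hi).1) (fun i hi => ⟨?_, (hw i hi).2⟩)
  exact (Finset.mem_filter.1 (Finset.mem_filter.1 hi).1).2

/-- the bound for one step -/
noncomputable def stepBound (Q t : ℕ) : ℝ :=
  (2 * (Q : ℝ) ^ 114) ^ 2 * (1 / (Q : ℝ) ^ 512) ^ 2 +
  (2 ^ (900 * Q + 3 + t) * Real.exp (-((Q : ℝ) ^ 498 / 2 / (2 * (Q : ℝ) ^ 496))) +
  ((4 * (Q : ℝ) ^ 1092) ^ 2 * (1 / (Q : ℝ) ^ 496) ^ 6 +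
  ((Q : ℝ) ^ 528 * (((Q : ℝ) ^ 595) ^ 2 * (1 / (Q : ℝ) ^ 496) ^ 5) +
  ((8 * (Q : ℝ) ^ 302) * (1 / (Q : ℝ) ^ 496) ^ 2 +
  (Q : ℝ) ^ 1056 * (3 * ((Q : ℝ) ^ 497 * (1 / (Q : ℝ) ^ 496)) / (100 * Q)) ^ (100 * Q)))))

theorem Good.step (h : Good Q σ l u v) (M : Model Q Ω 𝔹) (hQ : 100 ≤ Q) (t : ℕ) :
    pr (fun ω => Bad σ u v t (M.J ω, M.G ω)) ≤ stepBound Q t := by
  refine (pr_mono fun ω hω => h.bad_cases hQ t _ hω).trans ?_
  refine (pr_or_le _ _).trans (add_le_add (h.probA M hQ) ?_)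
  refine (pr_or_le _ _).trans (add_le_add (probB M _) ?_)
  refine (pr_or_le _ _).trans (add_le_add (h.probC1 M) ?_)
  refine (pr_or_le _ _).trans (add_le_add (h.probC2 M hQ) ?_)
  exact (pr_or_le _ _).trans (add_le_add (h.probC3 M hQ) (probC4 M hQ))

end PartC

end Pool.Agent.H40.ER
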