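import Pool.Agent.H40.ER.Local
import Pool.Agent.H40.ER.Step

/-!
# The global properties
-/

set_option linter.unusedSectionVars false
set_option exponentiation.threshold 4000

namespace Pool.Agent.H40.ER

open Finset
open scoped Classical

variable {V 𝔹 Ω : Type} [Fintype V] [LinearOrder V] [Fintype 𝔹] [DecidableEq 𝔹] [Fintype Ω]
  [Nonempty Ω] {Q : ℕ}

/-! ### Common blocks between two large sets -/

section D1

/-- blocks of the members of `S0`, apart from `L` -/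
def newB (S0 : Finset V) (L : Finset 𝔹) (σ : St V 𝔹) : Finset 𝔹 :=
  (S0.biUnion fun a => (σ a).1) \ L

/-- all blocks of the members of `S0` and of `L` -/
def oldB (S0 : Finset V) (L : Finset 𝔹) (σ : St V 𝔹) : Finset 𝔹 :=
  (S0.biUnion fun a => (σ a).1) ∪ L

/-- event: many old blocks -/
def PA (Q : ℕ) (S0 : Finset V) (L : Finset 𝔹) (_v : V) (σ : St V 𝔹) (s : Sd 𝔹) : Prop :=
  Q ^ 15 ≤ (oldB S0 L σ ∩ s.1).card

/-- event: no common block although there are many blocks -/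
def PB (Q : ℕ) (S0 : Finset V) (L : Finset 𝔹) (_v : V) (σ : St V 𝔹) (s : Sd 𝔹) : Prop :=
  Q ^ 514 ≤ 2 * (newB S0 L σ).card ∧ Disjoint (newB S0 L σ) s.1

lemma oldB_card {S0 : Finset V} {L : Finset 𝔹} {σ : St V 𝔹} (hσ : ∀ v, (σ v).1.card ≤ Q ^ 16)
    (hQ : 100 ≤ Q) (hS : S0.card = Q ^ 498) (hL : L.card = Q ^ 498) :
    (oldB S0 L σ).card ≤ 2 * Q ^ 514 := by
  refine (Finset.card_union_le _ _).trans ?_
  have h1 : (S0.biUnion fun a => (σ a).1).card ≤ Q ^ 498 * Q ^ 16 :=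
    card_biUnion_le_mul _ _ hS.le fun a _ => hσ a
  rw [← pow_add] at h1
  have h2 : Q ^ 498 ≤ Q ^ 514 := Nat.pow_le_pow_right (by omega) (by norm_num)
  norm_num at h1
  omega

lemma pr_PA (M : Model Q Ω 𝔹) (hQ : 100 ≤ Q) {S0 : Finset V} {L : Finset 𝔹} {σ : St V 𝔹}
    (hσ : ∀ v, (σ v).1.card ≤ Q ^ 16) (hS : S0.card = Q ^ 498) (hL : L.card = Q ^ 498) (v : V) :
    pr (fun a => PA Q S0 L v σ (M.J a, M.G a)) ≤ (1 / (Q : ℝ)) ^ (Q ^ 15) := by
  have hQpos : (0 : ℝ) < Q := by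
    have : 0 < Q := by omega
    exact_mod_cast this
  have hQ100 : (100 : ℝ) ≤ Q := by exact_mod_cast hQ
  refine (M.cntJ _ _).trans ((choose_mul_pow_le _ _ (by positivity)
    (pow_pos (by omega) _)).trans ?_)
  refine pow_le_pow_left₀ (by positivity) ?_ _
  have h1 : ((oldB S0 L σ).card : ℝ) ≤ 2 * (Q : ℝ) ^ 514 := by
    exact_mod_cast oldB_card hσ hQ hS hL
  push_cast
  calc 3 * (((oldB S0 L σ).card : ℝ) * (1 / (Q : ℝ) ^ 512)) / (Q : ℝ) ^ 15
      ≤ 3 * ((2 * (Q : ℝ) ^ 514) * (1 / (Q : ℝ) ^ 512)) / (Q : ℝ) ^ 15 := by gcongr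
    _ = 6 / (Q : ℝ) ^ 13 := by field_simp; norm_num
    _ ≤ 1 / (Q : ℝ) := by
      rw [div_le_div_iff₀ (by positivity) hQpos]
      calc 6 * (Q : ℝ) ≤ Q * Q := by gcongr; linarith
        _ = (Q : ℝ) ^ 2 := by ring
        _ ≤ (Q : ℝ) ^ 13 := pow_cast_le hQ (by norm_num)
        _ = 1 * (Q : ℝ) ^ 13 := by ring

lemma pr_PB (M : Model Q Ω 𝔹) (hQ : 100 ≤ Q) {S0 : Finset V} {L : Finset 𝔹} {σ : St V 𝔹}
    (v : V) :
    pr (fun a => PB Q S0 L v σ (M.J a, M.G a)) ≤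
      Real.exp (-((Q : ℝ) ^ 514 / 2 / (2 * (Q : ℝ) ^ 512))) := by
  have hQpos : (0 : ℝ) < Q := by
    have : 0 < Q := by omega
    exact_mod_cast this
  by_cases h : Q ^ 514 ≤ 2 * (newB S0 L σ).card
  · refine (pr_mono fun a ha => ha.2).trans ((M.lowJ _).trans ?_)
    have h1 : (Q : ℝ) ^ 514 ≤ 2 * ((newB S0 L σ).card : ℝ) := by exact_mod_cast h
    have h2 : (Q : ℝ) ^ 514 / 2 ≤ ((newB S0 L σ).card : ℝ) := by linarith
    rw [Real.exp_le_exp, neg_le_neg_iff]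
    gcongr
  · rw [pr_false fun a ha => h ha.1]
    positivity

lemma sq_le_aux (hQ : 100 ≤ Q) : Q ^ 2 ≤ 2 * ((Q - 1) * (Q - 1)) := by
  obtain ⟨k, rfl⟩ : ∃ k, Q = k + 1 := ⟨Q - 1, by omega⟩
  simp only [Nat.add_sub_cancel]
  nlinarith

/-- Few members of `S0` with many old blocks: the set of blocks is large. -/
lemma newB_large {S0 : Finset V} {L : Finset 𝔹} {σ : St V 𝔹}
    (hσ : ∀ v, (σ v).1.card = Q ^ 16) (hQ : 100 ≤ Q) (hS : S0.card = Q ^ 498)
    (hfew : ¬ Q ^ 497 ≤ (S0.filter fun v => PA Q S0 L v (cut σ v) (σ v)).card) :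
    Q ^ 514 ≤ 2 * (newB S0 L σ).card := by
  set B := S0 \ (S0.filter fun v => PA Q S0 L v (cut σ v) (σ v)) with hB
  have hmemB : ∀ {a : V}, a ∈ B → a ∈ S0 ∧ ¬ PA Q S0 L a (cut σ a) (σ a) := by
    intro a ha
    rw [hB, Finset.mem_sdiff, Finset.mem_filter] at ha
    exact ⟨ha.1, fun h => ha.2 ⟨ha.1, h⟩⟩
  have hBcard : Q ^ 498 ≤ B.card + Q ^ 497 := by
    push Not at hfew
    have := Finset.card_sdiff_add_card_eq_card (Finset.filter_subset
      (fun v => PA Q S0 L v (cut σ v) (σ v)) S0)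
    rw [← hB] at this
    omega
  have hdisj : ∀ a ∈ B, ∀ b ∈ B, a ≠ b →
      Disjoint ((σ a).1 \ oldB S0 L (cut σ a)) ((σ b).1 \ oldB S0 L (cut σ b)) := by
    have key : ∀ a ∈ B, ∀ b ∈ B, a < b →
        Disjoint ((σ a).1 \ oldB S0 L (cut σ a)) ((σ b).1 \ oldB S0 L (cut σ b)) := by
      intro a ha b _ hab
      rw [Finset.disjoint_left]
      intro x hx hx'
      rw [Finset.mem_sdiff] at hx hx'
      apply hx'.2
      refine Finset.mem_union_left _ (Finset.mem_biUnion.2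
        ⟨a, (hmemB ha).1, mem_cut_fst.2 ⟨hab, hx.1⟩⟩)
    intro a ha b hb hab
    rcases lt_or_gt_of_ne hab with h | h
    · exact key a ha b hb h
    · exact (key b hb a ha h).symm
  have hsub : (B.biUnion fun a => (σ a).1 \ oldB S0 L (cut σ a)) ⊆ newB S0 L σ := by
    intro x hx
    obtain ⟨a, ha, hx⟩ := Finset.mem_biUnion.1 hx
    rw [Finset.mem_sdiff] at hx
    refine Finset.mem_sdiff.2 ⟨Finset.mem_biUnion.2 ⟨a, (hmemB ha).1, hx.1⟩, ?_⟩
    intro hxL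
    exact hx.2 (Finset.mem_union_right _ hxL)
  have hcard : B.card * (Q ^ 16 - Q ^ 15) ≤ (newB S0 L σ).card := by
    refine le_trans ?_ (Finset.card_le_card hsub)
    rw [Finset.card_biUnion hdisj, ← smul_eq_mul]
    refine Finset.card_nsmul_le_sum _ _ _ fun a ha => ?_
    have h1 := (hmemB ha).2
    unfold PA at h1
    push Not at h1
    have h2 := Finset.card_sdiff_add_card_inter (σ a).1 (oldB S0 L (cut σ a))
    rw [Finset.inter_comm] at h1
    rw [hσ a] at h2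
    omega
  have e1 : Q ^ 498 = Q * Q ^ 497 := by rw [← pow_succ']
  have e2 : Q ^ 16 = Q * Q ^ 15 := by rw [← pow_succ']
  have h3 : (Q - 1) * Q ^ 497 ≤ B.card := by
    rw [Nat.sub_mul, one_mul]
    omega
  have h4 : Q ^ 16 - Q ^ 15 = (Q - 1) * Q ^ 15 := by
    rw [Nat.sub_mul, one_mul, e2]
  rw [h4] at hcard
  have h5 : (Q - 1) * Q ^ 497 * ((Q - 1) * Q ^ 15) ≤ (newB S0 L σ).card :=
    (Nat.mul_le_mul_right _ h3).trans hcard
  have e3 : Q ^ 514 = Q ^ 2 * (Q ^ 497 * Q ^ 15) := by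
    rw [← pow_add, ← pow_add]
  have h7 := sq_le_aux hQ
  rw [e3]
  calc Q ^ 2 * (Q ^ 497 * Q ^ 15) ≤ 2 * ((Q - 1) * (Q - 1)) * (Q ^ 497 * Q ^ 15) :=
        Nat.mul_le_mul_right _ h7
    _ = 2 * ((Q - 1) * Q ^ 497 * ((Q - 1) * Q ^ 15)) := by
        generalize Q ^ 497 = a
        generalize Q ^ 15 = b
        generalize Q - 1 = c
        ring
    _ ≤ _ := Nat.mul_le_mul_left 2 h5

/-- Two large sets have a common block outside a given set of blocks. -/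
def D1 (Q : ℕ) (σ : St V 𝔹) : Prop :=
  ∀ S0 S1 : Finset V, ∀ L : Finset 𝔹, S0.card = Q ^ 498 → S1.card = Q ^ 498 → L.card = Q ^ 498 →
    (∀ a ∈ S0, ∀ b ∈ S1, a < b) → ∃ u ∈ S0, ∃ v ∈ S1, ∃ x ∈ (σ u).1, x ∈ (σ v).1 ∧ x ∉ L

theorem fail_D1 (M : Model Q Ω 𝔹) (hQ : 100 ≤ Q) (hV : Fintype.card V ≤ Q ^ 1000) :
    pr (fun ω : V → Ω => ¬ D1 Q (st M ω)) ≤
      ((Q : ℝ) ^ 1000) ^ (Q ^ 498) * (((Q : ℝ) ^ 1000) ^ (Q ^ 498) *
        (((Q : ℝ) ^ 528) ^ (Q ^ 498) *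
        (2 ^ (Q ^ 498) * ((1 / (Q : ℝ)) ^ (Q ^ 15)) ^ (Q ^ 497) +
        Real.exp (-((Q : ℝ) ^ 514 / 2 / (2 * (Q : ℝ) ^ 512))) ^ (Q ^ 498)))) := by
  have hcV : (((univ : Finset V).powersetCard (Q ^ 498)).card : ℝ) ≤
      ((Q : ℝ) ^ 1000) ^ (Q ^ 498) := by
    rw [Finset.card_powersetCard]
    refine (choose_le_pow' _ _).trans (pow_le_pow_left₀ (by positivity) ?_ _)
    rw [Finset.card_univ]; exact_mod_cast hV
  have hcB : (((univ : Finset 𝔹).powersetCard (Q ^ 498)).card : ℝ) ≤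
      ((Q : ℝ) ^ 528) ^ (Q ^ 498) := by
    rw [Finset.card_powersetCard]
    refine (choose_le_pow' _ _).trans (pow_le_pow_left₀ (by positivity) ?_ _)
    rw [Finset.card_univ, M.card𝔹]; push_cast; exact le_rfl
  refine (pr_mono (q := fun ω => ∃ S0 ∈ (univ : Finset V).powersetCard (Q ^ 498),
    ∃ S1 ∈ (univ : Finset V).powersetCard (Q ^ 498),
    ∃ L ∈ (univ : Finset 𝔹).powersetCard (Q ^ 498),
      (Q ^ 497 ≤ (S0.filter fun v => PA Q S0 L v (cut (st M ω) v) (st M ω v)).card) ∨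
      (∀ v ∈ S1, PB Q S0 L v (cut (st M ω) v) (st M ω v))) ?_).trans ?_
  · intro ω hω
    unfold D1 at hω
    push Not at hω
    obtain ⟨S0, S1, L, h0, h1, hL, hlt, hno⟩ := hω
    refine ⟨S0, Finset.mem_powersetCard.2 ⟨Finset.subset_univ _, h0⟩, S1,
      Finset.mem_powersetCard.2 ⟨Finset.subset_univ _, h1⟩, L,
      Finset.mem_powersetCard.2 ⟨Finset.subset_univ _, hL⟩, ?_⟩
    by_cases hA : Q ^ 497 ≤ (S0.filter fun v => PA Q S0 L v (cut (st M ω) v) (st M ω v)).card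
    · exact Or.inl hA
    right
    have hlarge := newB_large (fun v => M.cardJ (ω v)) hQ h0 hA
    intro v hv
    have hcut : newB S0 L (cut (st M ω) v) = newB S0 L (st M ω) := by
      unfold newB
      congr 1
      refine Finset.biUnion_congr rfl fun a ha => ?_
      rw [cut_of_lt (hlt a ha v hv)]
    unfold PB
    rw [hcut]
    refine ⟨hlarge, ?_⟩
    rw [Finset.disjoint_left]
    intro x hx hxv
    unfold newB at hx
    rw [Finset.mem_sdiff, Finset.mem_biUnion] at hx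
    obtain ⟨⟨a, ha, hxa⟩, hxL⟩ := hx
    exact hxL (hno a ha v hv x hxa hxv)
  · refine pr_exists_le_mul _ _ (by positivity) hcV fun S0 hS0 => ?_
    refine pr_exists_le_mul _ _ (by positivity) hcV fun S1 hS1 => ?_
    refine pr_exists_le_mul _ _ (by positivity) hcB fun L hL => ?_
    have h0 := (Finset.mem_powersetCard.1 hS0).2
    have h1 := (Finset.mem_powersetCard.1 hS1).2
    have hL' := (Finset.mem_powersetCard.1 hL).2
    refine (pr_or_le _ _).trans (add_le_add ?_ ?_)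
    · refine (seq_st M (PA Q S0 L) (q := (1 / (Q : ℝ)) ^ (Q ^ 15)) (by positivity)
        (fun v ω => pr_PA M hQ (cut_st_J_card M ω v) h0 hL' v) S0 (Q ^ 497)).trans ?_
      refine mul_le_mul_of_nonneg_right ?_ (by positivity)
      rw [h0]
      exact_mod_cast Nat.choose_le_two_pow _ _
    · refine (seq_st_fixed M (PB Q S0 L) (q := Real.exp (-((Q : ℝ) ^ 514 / 2 /
        (2 * (Q : ℝ) ^ 512)))) (by positivity) (fun v ω => pr_PB M hQ v) S1).trans ?_
      rw [h1]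

end D1

/-! ### Few partners inside a set -/

section D2

/-- event: many old blocks -/
def PC (Q : ℕ) (X : Finset V) (_v : V) (σ : St V 𝔹) (s : Sd 𝔹) : Prop :=
  Q ^ 5 ≤ ((X.biUnion fun a => (σ a).1) ∩ s.1).card

lemma pr_PC (M : Model Q Ω 𝔹) (hQ : 100 ≤ Q) {X : Finset V} {σ : St V 𝔹}
    (hσ : ∀ v, (σ v).1.card ≤ Q ^ 16) (hX : X.card = 2 * Q ^ 498) (v : V) :
    pr (fun a => PC Q X v σ (M.J a, M.G a)) ≤ (1 / (Q : ℝ)) ^ (2 * Q ^ 5) := by
  have hQpos : (0 : ℝ) < Q := by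
    have : 0 < Q := by omega
    exact_mod_cast this
  have hQ100 : (100 : ℝ) ≤ Q := by exact_mod_cast hQ
  refine (M.cntJ _ _).trans ((choose_mul_pow_le _ _ (by positivity)
    (pow_pos (by omega) _)).trans ?_)
  rw [pow_mul (1 / (Q : ℝ))]
  refine pow_le_pow_left₀ (by positivity) ?_ _
  have h0 : (X.biUnion fun a => (σ a).1).card ≤ (2 * Q ^ 498) * Q ^ 16 :=
    card_biUnion_le_mul _ _ hX.le fun a _ => hσ a
  have h1 : ((X.biUnion fun a => (σ a).1).card : ℝ) ≤ 2 * (Q : ℝ) ^ 514 := by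
    have e : (2 * Q ^ 498) * Q ^ 16 = 2 * Q ^ 514 := by rw [mul_assoc, ← pow_add]
    rw [e] at h0
    exact_mod_cast h0
  push_cast
  calc 3 * (((X.biUnion fun a => (σ a).1).card : ℝ) * (1 / (Q : ℝ) ^ 512)) / (Q : ℝ) ^ 5
      ≤ 3 * ((2 * (Q : ℝ) ^ 514) * (1 / (Q : ℝ) ^ 512)) / (Q : ℝ) ^ 5 := by gcongr
    _ = 6 / (Q : ℝ) ^ 3 := by field_simp; norm_num
    _ ≤ (1 / (Q : ℝ)) ^ 2 := by
      rw [div_pow, one_pow, div_le_div_iff₀ (by positivity) (by positivity)]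
      calc 6 * (Q : ℝ) ^ 2 ≤ Q * (Q : ℝ) ^ 2 := by gcongr; linarith
        _ = 1 * (Q : ℝ) ^ 3 := by ring

/-- Few partners in sets of size `2 Q ^ 498`. -/
def D2 (Q : ℕ) (σ : St V 𝔹) : Prop :=
  ∀ X : Finset V, X.card = 2 * Q ^ 498 →
    ((X ×ˢ X).filter fun p => ¬ Disjoint (σ p.1).1 (σ p.2).1).card ≤ Q ^ 993

lemma D2_of {σ : St V 𝔹} (hloc : Loc Q σ) (hQ : 100 ≤ Q) {X : Finset V}
    (hX : X.card = 2 * Q ^ 498)
    (hfew : ¬ Q ^ 494 ≤ (X.filter fun v => PC Q X v (cut σ v) (σ v)).card) :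
    ((X ×ˢ X).filter fun p => ¬ Disjoint (σ p.1).1 (σ p.2).1).card ≤ Q ^ 993 := by
  -- earlier partners
  let E : V → Finset V := fun a => X.filter fun b => b < a ∧ ¬ Disjoint (σ b).1 (σ a).1
  have hE : ∀ a ∈ X, ¬ PC Q X a (cut σ a) (σ a) → (E a).card ≤ Q ^ 494 := by
    intro a _ hPC
    unfold PC at hPC
    push Not at hPC
    have hsub : E a ⊆ ((X.biUnion fun b => (cut σ a b).1) ∩ (σ a).1).biUnion
        fun x => univ.filter fun v => x ∈ (σ v).1 := by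
      intro b hb
      simp only [E, Finset.mem_filter] at hb
      obtain ⟨hbX, hba, hnd⟩ := hb
      rw [Finset.not_disjoint_iff] at hnd
      obtain ⟨x, hx1, hx2⟩ := hnd
      refine Finset.mem_biUnion.2 ⟨x, Finset.mem_inter.2 ⟨Finset.mem_biUnion.2
        ⟨b, hbX, mem_cut_fst.2 ⟨hba, hx1⟩⟩, hx2⟩, ?_⟩
      exact Finset.mem_filter.2 ⟨Finset.mem_univ _, hx1⟩
    refine (Finset.card_le_card hsub).trans ((card_biUnion_le_mul _ _ hPC.le
      fun x _ => hloc.L0 x).trans (le_of_eq ?_))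
    rw [← pow_add]
  have hsum : ∑ a ∈ X, (E a).card ≤ 4 * Q ^ 992 := by
    rw [← Finset.sum_filter_add_sum_filter_not X (fun v => PC Q X v (cut σ v) (σ v))]
    have s1 : ∑ a ∈ X.filter (fun v => PC Q X v (cut σ v) (σ v)), (E a).card ≤
        Q ^ 494 * (2 * Q ^ 498) := by
      refine (Finset.sum_le_card_nsmul _ _ (2 * Q ^ 498) fun a _ => ?_).trans ?_
      · rw [← hX]; exact Finset.card_le_card (Finset.filter_subset _ _)
      · rw [smul_eq_mul]
        push Not at hfew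
        exact Nat.mul_le_mul_right _ hfew.le
    have s2 : ∑ a ∈ X.filter (fun v => ¬ PC Q X v (cut σ v) (σ v)), (E a).card ≤
        (2 * Q ^ 498) * Q ^ 494 := by
      refine (Finset.sum_le_card_nsmul _ _ (Q ^ 494) fun a ha => ?_).trans ?_
      · exact hE a (Finset.mem_filter.1 ha).1 (Finset.mem_filter.1 ha).2
      · rw [smul_eq_mul]
        refine Nat.mul_le_mul_right _ ?_
        rw [← hX]; exact Finset.card_le_card (Finset.filter_subset _ _)
    have e1 : Q ^ 494 * (2 * Q ^ 498) = 2 * Q ^ 992 := by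
      rw [mul_left_comm, ← pow_add]
    have e2 : (2 * Q ^ 498) * Q ^ 494 = 2 * Q ^ 992 := by
      rw [mul_assoc, ← pow_add]
    omega
  have hsub : ((X ×ˢ X).filter fun p => ¬ Disjoint (σ p.1).1 (σ p.2).1) ⊆
      ((X.biUnion fun a => (E a).image fun b => (a, b)) ∪
      (X.biUnion fun a => (E a).image fun b => (b, a))) ∪ X.image fun a => (a, a) := by
    rintro ⟨a, b⟩ hab
    simp only [Finset.mem_filter, Finset.mem_product] at hab
    obtain ⟨⟨ha, hb⟩, hnd⟩ := hab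
    simp only [Finset.mem_union, Finset.mem_biUnion, Finset.mem_image, E, Finset.mem_filter,
      Prod.mk.injEq]
    rcases lt_trichotomy a b with h | h | h
    · exact Or.inl (Or.inr ⟨b, hb, a, ⟨ha, h, hnd⟩, rfl, rfl⟩)
    · exact Or.inr ⟨a, ha, rfl, h⟩
    · refine Or.inl (Or.inl ⟨a, ha, b, ⟨hb, h, ?_⟩, rfl, rfl⟩)
      rwa [disjoint_comm]
  have c1 : (X.biUnion fun a => (E a).image fun b => (a, b)).card ≤ ∑ a ∈ X, (E a).card :=
    Finset.card_biUnion_le.trans (Finset.sum_le_sum fun a _ => Finset.card_image_le)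
  have c2 : (X.biUnion fun a => (E a).image fun b => (b, a)).card ≤ ∑ a ∈ X, (E a).card :=
    Finset.card_biUnion_le.trans (Finset.sum_le_sum fun a _ => Finset.card_image_le)
  have c3 : (X.image fun a => (a, a)).card ≤ 2 * Q ^ 498 := by
    rw [← hX]; exact Finset.card_image_le
  have c4 := (Finset.card_le_card hsub).trans (Finset.card_union_le _ _)
  have c5 := Finset.card_union_le (X.biUnion fun a => (E a).image fun b => (a, b))
    (X.biUnion fun a => (E a).image fun b => (b, a))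
  have e3 : Q ^ 498 ≤ Q ^ 992 := Nat.pow_le_pow_right (by omega) (by norm_num)
  have e4 : 100 * Q ^ 992 ≤ Q ^ 993 := by
    calc 100 * Q ^ 992 ≤ Q * Q ^ 992 := Nat.mul_le_mul_right _ hQ
      _ = Q ^ 993 := by rw [← pow_succ']
  omega

theorem fail_D2 (M : Model Q Ω 𝔹) (hQ : 100 ≤ Q) (hV : Fintype.card V ≤ Q ^ 1000) :
    pr (fun ω : V → Ω => ∃ X ∈ (univ : Finset V).powersetCard (2 * Q ^ 498),
      Q ^ 494 ≤ (X.filter fun v => PC Q X v (cut (st M ω) v) (st M ω v)).card) ≤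
      ((Q : ℝ) ^ 1000) ^ (2 * Q ^ 498) * (2 ^ (2 * Q ^ 498) *
        ((1 / (Q : ℝ)) ^ (2 * Q ^ 5)) ^ (Q ^ 494)) := by
  have hcV : (((univ : Finset V).powersetCard (2 * Q ^ 498)).card : ℝ) ≤
      ((Q : ℝ) ^ 1000) ^ (2 * Q ^ 498) := by
    rw [Finset.card_powersetCard]
    refine (choose_le_pow' _ _).trans (pow_le_pow_left₀ (by positivity) ?_ _)
    rw [Finset.card_univ]; exact_mod_cast hV
  refine pr_exists_le_mul _ _ (by positivity) hcV fun X hX => ?_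
  have hX' := (Finset.mem_powersetCard.1 hX).2
  refine (seq_st M (PC Q X) (q := (1 / (Q : ℝ)) ^ (2 * Q ^ 5)) (by positivity)
    (fun v ω => pr_PC M hQ (cut_st_J_card M ω v) hX' v) X (Q ^ 494)).trans ?_
  refine mul_le_mul_of_nonneg_right ?_ (by positivity)
  rw [hX']
  exact_mod_cast Nat.choose_le_two_pow _ _

end D2

/-! ### The main event -/

section Main

variable {I : Type} [Fintype I] [DecidableEq I]

/-- the event of the main step -/
def PM (Q t : ℕ) (l : I → 𝔹) (u v : I → V) (_y : V) (σ : St V 𝔹) (s : Sd 𝔹) : Prop :=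
  Good Q σ l u v ∧ Bad σ u v t s

lemma pr_PM (M : Model Q Ω 𝔹) (hQ : 100 ≤ Q) (t : ℕ) (hst : stepBound Q t ≤ 1 / (Q : ℝ) ^ 600)
    (l : I → 𝔹) (u v : I → V) (y : V) (σ : St V 𝔹) :
    pr (fun a => PM Q t l u v y σ (M.J a, M.G a)) ≤ 1 / (Q : ℝ) ^ 600 := by
  by_cases h : Good Q σ l u v
  · exact (pr_mono fun a ha => ha.2).trans ((h.step M hQ t).trans hst)
  · rw [pr_false fun a ha => h ha.1]
    positivity

/-- main global property -/
def DM (I : Type) [Fintype I] [DecidableEq I] (Q t : ℕ) (σ : St V 𝔹) : Prop :=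
  ∀ (l : I → 𝔹) (u v : I → V),
    (univ.filter fun y => PM Q t l u v y (cut σ y) (σ y)).card < 50 * Q ^ 498

theorem fail_DM (M : Model Q Ω 𝔹) (hQ : 100 ≤ Q) (hV : Fintype.card V ≤ Q ^ 1000)
    (hI : Fintype.card I = Q ^ 498) (t : ℕ) (hst : stepBound Q t ≤ 1 / (Q : ℝ) ^ 600) :
    pr (fun ω : V → Ω => ¬ DM I Q t (st M ω)) ≤
      ((Q : ℝ) ^ 528) ^ (Q ^ 498) * (((Q : ℝ) ^ 1000) ^ (Q ^ 498) *
        (((Q : ℝ) ^ 1000) ^ (Q ^ 498) * ((1 / (Q : ℝ)) ^ 98) ^ (50 * Q ^ 498))) := by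
  have hQpos : (0 : ℝ) < Q := by
    have : 0 < Q := by omega
    exact_mod_cast this
  have hc1 : ((univ : Finset (I → 𝔹)).card : ℝ) ≤ ((Q : ℝ) ^ 528) ^ (Q ^ 498) := by
    rw [Finset.card_univ, Fintype.card_fun, hI, M.card𝔹]; push_cast; exact le_rfl
  have hc2 : ((univ : Finset (I → V)).card : ℝ) ≤ ((Q : ℝ) ^ 1000) ^ (Q ^ 498) := by
    rw [Finset.card_univ, Fintype.card_fun, hI]
    push_cast
    refine pow_le_pow_left₀ (by positivity) ?_ _
    exact_mod_cast hV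
  refine (pr_mono (q := fun ω => ∃ l ∈ (univ : Finset (I → 𝔹)), ∃ u ∈ (univ : Finset (I → V)),
    ∃ v ∈ (univ : Finset (I → V)), 50 * Q ^ 498 ≤ (univ.filter fun y =>
      PM Q t l u v y (cut (st M ω) y) (st M ω y)).card) ?_).trans ?_
  · intro ω hω
    unfold DM at hω
    push Not at hω
    obtain ⟨l, u, v, h⟩ := hω
    exact ⟨l, Finset.mem_univ _, u, Finset.mem_univ _, v, Finset.mem_univ _, h⟩
  · refine pr_exists_le_mul _ _ (by positivity) hc1 fun l _ => ?_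
    refine pr_exists_le_mul _ _ (by positivity) hc2 fun u _ => ?_
    refine pr_exists_le_mul _ _ (by positivity) hc2 fun v _ => ?_
    refine (seq_st M (PM Q t l u v) (q := 1 / (Q : ℝ) ^ 600) (by positivity)
      (fun y ω => pr_PM M hQ t hst l u v y _) univ (50 * Q ^ 498)).trans ?_
    have hKpos : 0 < 50 * Q ^ 498 := Nat.mul_pos (by norm_num) (pow_pos (by omega) _)
    refine (choose_mul_pow_le _ _ (by positivity) hKpos).trans ?_
    refine pow_le_pow_left₀ (by positivity) ?_ _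
    have h1 : ((univ : Finset V).card : ℝ) ≤ (Q : ℝ) ^ 1000 := by
      rw [Finset.card_univ]; exact_mod_cast hV
    push_cast
    calc 3 * (((univ : Finset V).card : ℝ) * (1 / (Q : ℝ) ^ 600)) / (50 * (Q : ℝ) ^ 498)
        ≤ 3 * ((Q : ℝ) ^ 1000 * (1 / (Q : ℝ) ^ 600)) / (50 * (Q : ℝ) ^ 498) := by gcongr
      _ = (3 / 50) * (1 / (Q : ℝ) ^ 98) := by field_simp
      _ ≤ 1 * (1 / (Q : ℝ) ^ 98) := by gcongr; norm_num
      _ = (1 / (Q : ℝ)) ^ 98 := by rw [one_mul, one_div_pow]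

end Main

end Pool.Agent.H40.ER
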