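import Pool.Agent.H40.ER.Model
import Pool.Agent.H40.ER.State

/-!
# The local properties hold with high probability
-/

set_option linter.unusedSectionVars false
set_option exponentiation.threshold 4000

namespace Pool.Agent.H40.ER

open Finset
open scoped Classical

variable {V 𝔹 Ω : Type} [Fintype V] [LinearOrder V] [Fintype 𝔹] [DecidableEq 𝔹] [Fintype Ω]
  [Nonempty Ω] {Q : ℕ}

/-- the state given by the random data -/
def st (M : Model Q Ω 𝔹) (ω : V → Ω) : St V 𝔹 := fun v => (M.J (ω v), M.G (ω v))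

lemma cut_st_update (M : Model Q Ω 𝔹) (ω : V → Ω) (x : Ω) {v u : V} (h : v ≤ u) :
    cut (st M (Function.update ω u x)) v = cut (st M ω) v := by
  funext a
  by_cases ha : a < v
  · rw [cut_of_lt ha, cut_of_lt ha]
    have : a ≠ u := (ha.trans_le h).ne
    simp [st, Function.update_of_ne this]
  · rw [cut_of_not_lt ha, cut_of_not_lt ha]

theorem seq_st_fixed (M : Model Q Ω 𝔹) (P : V → St V 𝔹 → Sd 𝔹 → Prop) {q : ℝ} (hq : 0 ≤ q)
    (hP : ∀ v (ω : V → Ω), pr (fun x => P v (cut (st M ω) v) (M.J x, M.G x)) ≤ q)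
    (A : Finset V) :
    pr (fun ω : V → Ω => ∀ v ∈ A, P v (cut (st M ω) v) (st M ω v)) ≤ q ^ A.card := by
  refine seq_fixed (fun v ω => P v (cut (st M ω) v) (st M ω v)) hq ?_ ?_ A
  · intro v u ω x hvu
    rw [cut_st_update M ω x hvu.le]
    have : st M (Function.update ω u x) v = st M ω v := by
      simp [st, Function.update_of_ne hvu.ne]
    rw [this]
  · intro v ω
    refine le_trans (pr_mono fun x hx => ?_) (hP v ω)
    rw [cut_st_update M ω x le_rfl] at hx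
    have : st M (Function.update ω v x) v = (M.J x, M.G x) := by
      simp [st]
    rwa [this] at hx

theorem seq_st (M : Model Q Ω 𝔹) (P : V → St V 𝔹 → Sd 𝔹 → Prop) {q : ℝ} (hq : 0 ≤ q)
    (hP : ∀ v (ω : V → Ω), pr (fun x => P v (cut (st M ω) v) (M.J x, M.G x)) ≤ q)
    (W : Finset V) (K : ℕ) :
    pr (fun ω : V → Ω => K ≤ (W.filter fun v => P v (cut (st M ω) v) (st M ω v)).card) ≤
      (W.card.choose K : ℝ) * q ^ K := by
  refine seq_count (fun v ω => P v (cut (st M ω) v) (st M ω v)) hq ?_ ?_ W K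
  · intro v u ω x hvu
    rw [cut_st_update M ω x hvu.le]
    have : st M (Function.update ω u x) v = st M ω v := by
      simp [st, Function.update_of_ne hvu.ne]
    rw [this]
  · intro v ω
    refine le_trans (pr_mono fun x hx => ?_) (hP v ω)
    rw [cut_st_update M ω x le_rfl] at hx
    have : st M (Function.update ω v x) v = (M.J x, M.G x) := by
      simp [st]
    rwa [this] at hx

lemma tail_bound (hQ : 100 ≤ Q) {n K : ℕ} {q : ℝ} (hq : 0 ≤ q) (hn : n ≤ Q ^ 1000)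
    (hK : 10000 ≤ K) (h : (Q : ℝ) ^ 1000 * q * Q ≤ K) :
    (n.choose K : ℝ) * q ^ K ≤ (1 / (Q : ℝ)) ^ 5000 := by
  have hQpos : (0 : ℝ) < Q := by
    have : 0 < Q := by omega
    exact_mod_cast this
  have hQ100 : (100 : ℝ) ≤ Q := by exact_mod_cast hQ
  have hKpos : (0 : ℝ) < K := by
    have : 0 < K := by omega
    exact_mod_cast this
  refine (choose_mul_pow_le n K hq (by omega)).trans ?_
  have h1 : 3 * ((n : ℝ) * q) / K ≤ 3 / Q := by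
    rw [div_le_div_iff₀ hKpos hQpos]
    have h2 : (n : ℝ) ≤ (Q : ℝ) ^ 1000 := by exact_mod_cast hn
    have h3 : (n : ℝ) * q * Q ≤ (Q : ℝ) ^ 1000 * q * Q := by gcongr
    linarith
  have h3 : (3 / (Q : ℝ)) ^ 2 ≤ 1 / Q := by
    rw [div_pow, div_le_div_iff₀ (by positivity) hQpos]
    nlinarith
  have h4 : 3 / (Q : ℝ) ≤ 1 := by
    rw [div_le_one hQpos]; linarith
  calc (3 * ((n : ℝ) * q) / K) ^ K ≤ (3 / (Q : ℝ)) ^ K :=
        pow_le_pow_left₀ (by positivity) h1 K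
    _ ≤ (3 / (Q : ℝ)) ^ (2 * 5000) := pow_le_pow_of_le_one (by positivity) h4 (by omega)
    _ = ((3 / (Q : ℝ)) ^ 2) ^ 5000 := by rw [pow_mul]
    _ ≤ (1 / (Q : ℝ)) ^ 5000 := pow_le_pow_left₀ (by positivity) h3 _

/-- Version of the tail bound for states. -/
lemma seq_tail (M : Model Q Ω 𝔹) (hQ : 100 ≤ Q) (hV : Fintype.card V ≤ Q ^ 1000)
    (P : V → St V 𝔹 → Sd 𝔹 → Prop) {q : ℝ} (hq : 0 ≤ q)
    (hP : ∀ v (ω : V → Ω), pr (fun x => P v (cut (st M ω) v) (M.J x, M.G x)) ≤ q) (K : ℕ)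
    (hK : 10000 ≤ K) (h : (Q : ℝ) ^ 1000 * q * Q ≤ K) :
    pr (fun ω : V → Ω => K ≤ (univ.filter fun v => P v (cut (st M ω) v) (st M ω v)).card) ≤
      (1 / (Q : ℝ)) ^ 5000 :=
  (seq_st M P hq hP univ K).trans (tail_bound hQ hq (by rwa [Finset.card_univ]) hK h)

section Events

variable (M : Model Q Ω 𝔹)

lemma st_J_card (ω : V → Ω) (v : V) : (st M ω v).1.card ≤ Q ^ 16 := (M.cardJ _).le

lemma st_G_card (ω : V → Ω) (v : V) : (st M ω v).2.card ≤ Q ^ 32 := (M.cardG _).le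

lemma cut_st_J_card (ω : V → Ω) (y v : V) : (cut (st M ω) y v).1.card ≤ Q ^ 16 := by
  by_cases h : v < y
  · rw [cut_of_lt h]; exact st_J_card M ω v
  · rw [cut_of_not_lt h]; simp

lemma pr_J (x : 𝔹) : pr (fun a => x ∈ M.J a) ≤ 1 / (Q : ℝ) ^ 512 := by
  refine (pr_mono (q := fun a => ({x} : Finset 𝔹) ⊆ M.J a) fun a ha => ?_).trans
    ((M.subJ {x}).trans (by simp))
  simpa using ha

lemma pr_tri {s : Sd 𝔹} (hs : s.1.card ≤ Q ^ 16) :
    pr (fun a => tri s (M.J a, M.G a)) ≤ (Q : ℝ) ^ 16 * (1 / (Q : ℝ) ^ 496) := by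
  refine (pr_mono (q := fun a => ∃ b ∈ s.1, ({b} : Finset 𝔹) ⊆ M.G a) ?_).trans
    (pr_exists_le_mul _ _ (by positivity) (by exact_mod_cast hs) fun b _ => ?_)
  · rintro a ⟨⟨b, hb⟩, -⟩
    rw [Finset.mem_inter] at hb
    exact ⟨b, hb.1, by simpa using hb.2⟩
  · exact (M.subG {b}).trans (by simp)

lemma pr_tri_J {s : Sd 𝔹} (hs : s.1.card ≤ Q ^ 16) (x : 𝔹) :
    pr (fun a => tri s (M.J a, M.G a) ∧ x ∈ M.J a) ≤
      (Q : ℝ) ^ 16 * ((1 / (Q : ℝ) ^ 512) * (1 / (Q : ℝ) ^ 496)) := by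
  refine (pr_mono (q := fun a => ∃ b ∈ s.1, ({x} : Finset 𝔹) ⊆ M.J a ∧
    ({b} : Finset 𝔹) ⊆ M.G a) ?_).trans
    (pr_exists_le_mul _ _ (by positivity) (by exact_mod_cast hs) fun b _ => ?_)
  · rintro a ⟨⟨⟨b, hb⟩, -⟩, hx⟩
    rw [Finset.mem_inter] at hb
    exact ⟨b, hb.1, by simpa using hx, by simpa using hb.2⟩
  · exact (M.sub {x} {b}).trans (by simp)

lemma pr_tri_tri {s s' : Sd 𝔹} (hs : s.1.card ≤ Q ^ 16) (hs' : s'.1.card ≤ Q ^ 16)
    (hd : Disjoint s.1 s'.1) :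
    pr (fun a => tri s (M.J a, M.G a) ∧ tri s' (M.J a, M.G a)) ≤
      (Q : ℝ) ^ 16 * ((Q : ℝ) ^ 16 * (1 / (Q : ℝ) ^ 496) ^ 2) := by
  refine (pr_mono (q := fun a => ∃ b ∈ s.1, ∃ b' ∈ s'.1, ({b, b'} : Finset 𝔹) ⊆ M.G a) ?_).trans
    (pr_exists_le_mul _ _ (by positivity) (by exact_mod_cast hs) fun b hb =>
    pr_exists_le_mul _ _ (by positivity) (by exact_mod_cast hs') fun b' hb' => ?_)
  · rintro a ⟨⟨⟨b, hb⟩, -⟩, ⟨⟨b', hb'⟩, -⟩⟩
    rw [Finset.mem_inter] at hb hb'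
    refine ⟨b, hb.1, b', hb'.1, ?_⟩
    intro y hy
    rw [Finset.mem_insert, Finset.mem_singleton] at hy
    rcases hy with rfl | rfl
    · exact hb.2
    · exact hb'.2
  · have hne : b ≠ b' := fun h => Finset.disjoint_left.1 hd hb (h ▸ hb')
    refine (M.subG {b, b'}).trans (le_of_eq ?_)
    rw [Finset.card_pair hne]

lemma pr_tri_tri_J {s s' : Sd 𝔹} (hs : s.1.card ≤ Q ^ 16) (hs' : s'.1.card ≤ Q ^ 16)
    (hd : Disjoint s.1 s'.1) (x : 𝔹) :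
    pr (fun a => (tri s (M.J a, M.G a) ∧ tri s' (M.J a, M.G a)) ∧ x ∈ M.J a) ≤
      (Q : ℝ) ^ 16 * ((Q : ℝ) ^ 16 * ((1 / (Q : ℝ) ^ 512) * (1 / (Q : ℝ) ^ 496) ^ 2)) := by
  refine (pr_mono (q := fun a => ∃ b ∈ s.1, ∃ b' ∈ s'.1, ({x} : Finset 𝔹) ⊆ M.J a ∧
      ({b, b'} : Finset 𝔹) ⊆ M.G a) ?_).trans
    (pr_exists_le_mul _ _ (by positivity) (by exact_mod_cast hs) fun b hb =>
    pr_exists_le_mul _ _ (by positivity) (by exact_mod_cast hs') fun b' hb' => ?_)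
  · rintro a ⟨⟨⟨⟨b, hb⟩, -⟩, ⟨⟨b', hb'⟩, -⟩⟩, hx⟩
    rw [Finset.mem_inter] at hb hb'
    refine ⟨b, hb.1, b', hb'.1, by simpa using hx, ?_⟩
    intro y hy
    rw [Finset.mem_insert, Finset.mem_singleton] at hy
    rcases hy with rfl | rfl
    · exact hb.2
    · exact hb'.2
  · have hne : b ≠ b' := fun h => Finset.disjoint_left.1 hd hb (h ▸ hb')
    refine (M.sub {x} {b, b'}).trans (le_of_eq ?_)
    rw [Finset.card_pair hne]
    simp

/-- the event `Fe` in terms of the past and the new vertex -/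
def FeP (Q : ℕ) (u u' : V) (σ : St V 𝔹) (s : Sd 𝔹) : Prop :=
  Loc Q σ ∧ tri (σ u') s ∧ ∃ p ∈ TT σ u, ∃ z ∈ (D σ u').filter (fun z => p.1 ∈ (σ z).1),
    (tri (σ u') s ∧ tri (σ z) s) ∧ p.2 ∈ s.1

lemma FeP_of_Fe {σ : St V 𝔹} (h : Loc Q σ) {u u' q : V} (hF : Fe σ u u' q) :
    FeP Q u u' (cut σ q) (σ q) := by
  obtain ⟨h1, x, x', z, h2, h3, h4, h5, h6⟩ := hF
  have hu : tri (cut σ q u') (σ q) := by
    rw [cut_of_lt h1.1]; exact h1.2
  have hz : tri (cut σ q z) (σ q) := by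
    rw [cut_of_lt h4.1]; exact h4.2
  refine ⟨h.cut q, hu, (x, x'), h2, z, ?_, ⟨hu, hz⟩, h6⟩
  exact Finset.mem_filter.2 ⟨mem_D.2 (rel_cut.2 ⟨h4.1, h3⟩), mem_cut_fst.2 ⟨h4.1, h5⟩⟩

lemma pr_FeP (u u' : V) (σ : St V 𝔹) :
    pr (fun a => FeP Q u u' σ (M.J a, M.G a)) ≤
      (2 * (Q : ℝ) ^ 594) * ((Q : ℝ) ^ 9 * ((Q : ℝ) ^ 16 * ((Q : ℝ) ^ 16 *
        ((1 / (Q : ℝ) ^ 512) * (1 / (Q : ℝ) ^ 496) ^ 2)))) := by
  by_cases hloc : Loc Q σ
  · refine (pr_mono fun a ha => ha.2.2).trans ?_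
    refine pr_exists_le_mul _ _ (by positivity) (by exact_mod_cast hloc.TT_card u) fun p hp => ?_
    refine pr_exists_le_mul _ _ (by positivity) (by exact_mod_cast hloc.L2 u' p.1)
      fun z hz => ?_
    have hr := mem_D.1 (Finset.mem_filter.1 hz).1
    exact pr_tri_tri_J M (hloc.hJ _) (hloc.hJ _) hr.disj _
  · rw [pr_false fun a ha => hloc ha.1]
    positivity

end Events

section LocalMain

variable (M : Model Q Ω 𝔹)

lemma pow_cast_le {a b : ℕ} (hQ : 100 ≤ Q) (h : a ≤ b) : (Q : ℝ) ^ a ≤ (Q : ℝ) ^ b := by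
  have : (1 : ℝ) ≤ Q := by
    have : 1 ≤ Q := by omega
    exact_mod_cast this
  exact pow_le_pow_right₀ this h

lemma big_pow (hQ : 100 ≤ Q) {a : ℕ} (ha : 2 ≤ a) : 10000 ≤ Q ^ a := by
  calc 10000 = 100 ^ 2 := by norm_num
    _ ≤ Q ^ 2 := Nat.pow_le_pow_left hQ 2
    _ ≤ Q ^ a := Nat.pow_le_pow_right (by omega) ha

/-- event for `L0` -/
def P0 (x : 𝔹) (_v : V) (_σ : St V 𝔹) (s : Sd 𝔹) : Prop := x ∈ s.1
/-- event for `L1` -/
def P1 (u : V) (_v : V) (σ : St V 𝔹) (s : Sd 𝔹) : Prop := tri (σ u) s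
/-- event for `L2` -/
def P2 (u : V) (x : 𝔹) (_v : V) (σ : St V 𝔹) (s : Sd 𝔹) : Prop := tri (σ u) s ∧ x ∈ s.1
/-- event for `L3` -/
def P3 (u w : V) (_v : V) (σ : St V 𝔹) (s : Sd 𝔹) : Prop :=
  Disjoint (σ u).1 (σ w).1 ∧ (tri (σ u) s ∧ tri (σ w) s)
/-- event for `L6` -/
def P6 (Q : ℕ) (u u' : V) (_v : V) (σ : St V 𝔹) (s : Sd 𝔹) : Prop := FeP Q u u' σ s

/-- too many vertices at which `P` occurs -/
def Many (M : Model Q Ω 𝔹) (P : V → St V 𝔹 → Sd 𝔹 → Prop) (K : ℕ) (ω : V → Ω) : Prop :=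
  K ≤ (univ.filter fun v => P v (cut (st M ω) v) (st M ω v)).card

lemma pr_many (M : Model Q Ω 𝔹) (hQ : 100 ≤ Q) (hV : Fintype.card V ≤ Q ^ 1000)
    (P : V → St V 𝔹 → Sd 𝔹 → Prop) {q : ℝ} (hq : 0 ≤ q)
    (hP : ∀ v (ω : V → Ω), pr (fun x => P v (cut (st M ω) v) (M.J x, M.G x)) ≤ q) (k : ℕ)
    (hK : 2 ≤ k) (h : (Q : ℝ) ^ 1000 * q * Q ≤ (Q : ℝ) ^ k) :
    pr (Many M P (Q ^ k)) ≤ (1 / (Q : ℝ)) ^ 5000 :=
  seq_tail M hQ hV P hq hP _ (big_pow hQ hK) (by push_cast; exact h)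

lemma fail0 (hQ : 100 ≤ Q) (hV : Fintype.card V ≤ Q ^ 1000) (x : 𝔹) :
    pr (Many (V := V) M (P0 x) (Q ^ 489)) ≤ (1 / (Q : ℝ)) ^ 5000 := by
  have hQpos : (0 : ℝ) < Q := by
    have : 0 < Q := by omega
    exact_mod_cast this
  refine pr_many M hQ hV _ (q := 1 / (Q : ℝ) ^ 512) (by positivity)
    (fun v ω => pr_J M x) _ (by norm_num) (le_of_eq ?_)
  field_simp

lemma fail1 (hQ : 100 ≤ Q) (hV : Fintype.card V ≤ Q ^ 1000) (u : V) :
    pr (Many (V := V) M (P1 u) (Q ^ 521)) ≤ (1 / (Q : ℝ)) ^ 5000 := by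
  have hQpos : (0 : ℝ) < Q := by
    have : 0 < Q := by omega
    exact_mod_cast this
  refine pr_many M hQ hV _ (q := (Q : ℝ) ^ 16 * (1 / (Q : ℝ) ^ 496)) (by positivity)
    (fun v ω => pr_tri M (cut_st_J_card M ω v u)) _ (by norm_num) (le_of_eq ?_)
  field_simp

lemma fail2 (hQ : 100 ≤ Q) (hV : Fintype.card V ≤ Q ^ 1000) (u : V) (x : 𝔹) :
    pr (Many (V := V) M (P2 u x) (Q ^ 9)) ≤ (1 / (Q : ℝ)) ^ 5000 := by
  have hQpos : (0 : ℝ) < Q := by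
    have : 0 < Q := by omega
    exact_mod_cast this
  refine pr_many M hQ hV _ (q := (Q : ℝ) ^ 16 * ((1 / (Q : ℝ) ^ 512) *
        (1 / (Q : ℝ) ^ 496))) (by positivity)
    (fun v ω => pr_tri_J M (cut_st_J_card M ω v u) x) _ (by norm_num) (le_of_eq ?_)
  field_simp

lemma fail3 (hQ : 100 ≤ Q) (hV : Fintype.card V ≤ Q ^ 1000) (u w : V) :
    pr (Many (V := V) M (P3 u w) (Q ^ 41)) ≤ (1 / (Q : ℝ)) ^ 5000 := by
  have hQpos : (0 : ℝ) < Q := by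
    have : 0 < Q := by omega
    exact_mod_cast this
  refine pr_many M hQ hV _ (q := (Q : ℝ) ^ 16 * ((Q : ℝ) ^ 16 *
        (1 / (Q : ℝ) ^ 496) ^ 2)) (by positivity)
    (fun v ω => ?_) _ (by norm_num) (le_of_eq ?_)
  · by_cases hd : Disjoint (cut (st M ω) v u).1 (cut (st M ω) v w).1
    · exact (pr_mono fun a ha => ha.2).trans
        (pr_tri_tri M (cut_st_J_card M ω v u) (cut_st_J_card M ω v w) hd)
    · rw [pr_false fun a ha => hd ha.1]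
      positivity
  · field_simp

lemma fail6 (hQ : 100 ≤ Q) (hV : Fintype.card V ≤ Q ^ 1000) (u u' : V) :
    pr (Many (V := V) M (P6 Q u u') (Q ^ 133)) ≤ (1 / (Q : ℝ)) ^ 5000 := by
  have hQpos : (0 : ℝ) < Q := by
    have : 0 < Q := by omega
    exact_mod_cast this
  have hQ100 : (100 : ℝ) ≤ Q := by exact_mod_cast hQ
  refine pr_many M hQ hV _ (q := (2 * (Q : ℝ) ^ 594) * ((Q : ℝ) ^ 9 * ((Q : ℝ) ^ 16 *
        ((Q : ℝ) ^ 16 * ((1 / (Q : ℝ) ^ 512) * (1 / (Q : ℝ) ^ 496) ^ 2))))) (by positivity)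
    (fun v ω => pr_FeP M u u' _) _ (by norm_num) ?_
  rw [show (Q : ℝ) ^ 1000 * ((2 * (Q : ℝ) ^ 594) * ((Q : ℝ) ^ 9 * ((Q : ℝ) ^ 16 *
        ((Q : ℝ) ^ 16 * ((1 / (Q : ℝ) ^ 512) * (1 / (Q : ℝ) ^ 496) ^ 2))))) * Q =
          2 * (Q : ℝ) ^ 132 by field_simp]
  have : (Q : ℝ) ^ 133 = Q * (Q : ℝ) ^ 132 := by rw [← pow_succ']
  rw [this]
  gcongr
  linarith

lemma good_of_not_many (hQ : 100 ≤ Q) (ω : V → Ω)
    (n0 : ∀ x, ¬ Many M (P0 x) (Q ^ 489) ω) (n1 : ∀ u, ¬ Many M (P1 u) (Q ^ 521) ω)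
    (n2 : ∀ u x, ¬ Many M (P2 u x) (Q ^ 9) ω) (n3 : ∀ u w, ¬ Many M (P3 u w) (Q ^ 41) ω)
    (n6 : ∀ u u', ¬ Many M (P6 Q u u') (Q ^ 133) ω) :
    Loc Q (st M ω) ∧ L6 Q (st M ω) := by
  unfold Many at n0 n1 n2 n3 n6
  push Not at n0 n1 n2 n3 n6
  have hloc : Loc Q (st M ω) := by
    refine ⟨st_J_card M ω, st_G_card M ω, ?_, ?_, ?_, ?_⟩
    · intro x
      refine le_trans (Finset.card_le_card ?_) (n0 x).le
      intro v hv
      exact Finset.mem_filter.2 ⟨Finset.mem_univ _, (Finset.mem_filter.1 hv).2⟩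
    · intro u
      refine le_trans (Finset.card_le_card ?_) (n1 u).le
      intro v hv
      rw [mem_D] at hv
      refine Finset.mem_filter.2 ⟨Finset.mem_univ _, ?_⟩
      unfold P1
      rw [cut_of_lt hv.1]; exact hv.2
    · intro u x
      refine le_trans (Finset.card_le_card ?_) (n2 u x).le
      intro v hv
      rw [Finset.mem_filter, mem_D] at hv
      refine Finset.mem_filter.2 ⟨Finset.mem_univ _, ?_⟩
      unfold P2
      rw [cut_of_lt hv.1.1]; exact ⟨hv.1.2, hv.2⟩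
    · intro u w hd
      refine le_trans (Finset.card_le_card ?_) (n3 u w).le
      intro v hv
      rw [Finset.mem_inter, mem_D, mem_D] at hv
      refine Finset.mem_filter.2 ⟨Finset.mem_univ _, ?_⟩
      unfold P3
      rw [cut_of_lt hv.1.1, cut_of_lt hv.2.1]
      exact ⟨hd, hv.1.2, hv.2.2⟩
  refine ⟨hloc, hloc.inter_card hQ fun u u' _ => ?_⟩
  refine le_trans (Finset.card_le_card ?_) (n6 u u').le
  intro q hq
  exact Finset.mem_filter.2 ⟨Finset.mem_univ _, FeP_of_Fe hloc (Finset.mem_filter.1 hq).2⟩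

theorem local_fail (hQ : 100 ≤ Q) (hV : Fintype.card V ≤ Q ^ 1000) :
    pr (fun ω : V → Ω => ¬ (Loc Q (st M ω) ∧ L6 Q (st M ω))) ≤
      (Q : ℝ) ^ 528 * (1 / (Q : ℝ)) ^ 5000 + ((Q : ℝ) ^ 1000 * (1 / (Q : ℝ)) ^ 5000 +
      ((Q : ℝ) ^ 1000 * ((Q : ℝ) ^ 528 * (1 / (Q : ℝ)) ^ 5000) +
      ((Q : ℝ) ^ 1000 * ((Q : ℝ) ^ 1000 * (1 / (Q : ℝ)) ^ 5000) +
      (Q : ℝ) ^ 1000 * ((Q : ℝ) ^ 1000 * (1 / (Q : ℝ)) ^ 5000)))) := by
  have hcardV : ((univ : Finset V).card : ℝ) ≤ (Q : ℝ) ^ 1000 := by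
    rw [Finset.card_univ]; exact_mod_cast hV
  have hcardB : ((univ : Finset 𝔹).card : ℝ) ≤ (Q : ℝ) ^ 528 := by
    rw [Finset.card_univ, M.card𝔹]; push_cast; exact le_rfl
  refine (pr_mono (q := fun ω =>
    (∃ x ∈ (univ : Finset 𝔹), Many M (P0 x) (Q ^ 489) ω) ∨
    (∃ u ∈ (univ : Finset V), Many M (P1 u) (Q ^ 521) ω) ∨
    (∃ u ∈ (univ : Finset V), ∃ x ∈ (univ : Finset 𝔹), Many M (P2 u x) (Q ^ 9) ω) ∨
    (∃ u ∈ (univ : Finset V), ∃ w ∈ (univ : Finset V), Many M (P3 u w) (Q ^ 41) ω) ∨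
    (∃ u ∈ (univ : Finset V), ∃ u' ∈ (univ : Finset V), Many M (P6 Q u u') (Q ^ 133) ω))
    ?_).trans ?_
  · intro ω hω
    by_contra hcon
    push Not at hcon
    obtain ⟨n0, n1, n2, n3, n6⟩ := hcon
    exact hω (good_of_not_many M hQ ω (fun x => n0 x (Finset.mem_univ _))
      (fun u => n1 u (Finset.mem_univ _))
      (fun u x => n2 u (Finset.mem_univ _) x (Finset.mem_univ _))
      (fun u w => n3 u (Finset.mem_univ _) w (Finset.mem_univ _))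
      (fun u u' => n6 u (Finset.mem_univ _) u' (Finset.mem_univ _)))
  · have hp : (0 : ℝ) ≤ (1 / (Q : ℝ)) ^ 5000 := by positivity
    refine (pr_or_le _ _).trans (add_le_add ?_ ?_)
    · exact pr_exists_le_mul _ _ hp hcardB fun x _ => fail0 M hQ hV x
    refine (pr_or_le _ _).trans (add_le_add ?_ ?_)
    · exact pr_exists_le_mul _ _ hp hcardV fun u _ => fail1 M hQ hV u
    refine (pr_or_le _ _).trans (add_le_add ?_ ?_)
    · exact pr_exists_le_mul _ _ (by positivity) hcardV fun u _ =>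
        pr_exists_le_mul _ _ hp hcardB fun x _ => fail2 M hQ hV u x
    refine (pr_or_le _ _).trans (add_le_add ?_ ?_)
    · exact pr_exists_le_mul _ _ (by positivity) hcardV fun u _ =>
        pr_exists_le_mul _ _ hp hcardV fun w _ => fail3 M hQ hV u w
    · exact pr_exists_le_mul _ _ (by positivity) hcardV fun u _ =>
        pr_exists_le_mul _ _ hp hcardV fun u' _ => fail6 M hQ hV u u'

end LocalMain

end Pool.Agent.H40.ER
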