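import Pool.Agent.H40.ER.Prob

/-!
# Random transversals
-/

namespace Pool.Agent.H40.ER

open Finset

section Transversal

variable {𝔹 : Type*} [Fintype 𝔹] [DecidableEq 𝔹] {a b : ℕ}

/-- the transversal of `𝔹 ≃ Fin a × Fin b` given by `f` -/
def tr (e : 𝔹 ≃ Fin a × Fin b) (f : Fin a → Fin b) : Finset 𝔹 :=
  univ.filter fun x => f (e x).1 = (e x).2

omit [DecidableEq 𝔹] in
lemma mem_tr {e : 𝔹 ≃ Fin a × Fin b} {f : Fin a → Fin b} {x : 𝔹} :
    x ∈ tr e f ↔ f (e x).1 = (e x).2 := by simp [tr]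

lemma card_tr (e : 𝔹 ≃ Fin a × Fin b) (f : Fin a → Fin b) : (tr e f).card = a := by
  have h : tr e f = (univ : Finset (Fin a)).image (fun i => e.symm (i, f i)) := by
    ext x
    rw [mem_tr, Finset.mem_image]
    constructor
    · intro hx
      exact ⟨(e x).1, Finset.mem_univ _, by rw [hx]; simp⟩
    · rintro ⟨i, -, rfl⟩
      simp
  rw [h, Finset.card_image_of_injective, Finset.card_univ, Fintype.card_fin]
  intro i j hij
  have := e.symm.injective hij
  exact (Prod.ext_iff.1 this).1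

lemma pr_eq_const [NeZero b] (c : Fin b) : pr (fun x : Fin b => x = c) = 1 / (b : ℝ) := by
  rw [pr_eq]
  simp [Finset.filter_eq']

omit [DecidableEq 𝔹] in
lemma pr_subset [NeZero b] (e : 𝔹 ≃ Fin a × Fin b) (B : Finset 𝔹) :
    pr (fun f : Fin a → Fin b => B ⊆ tr e f) ≤ (1 / (b : ℝ)) ^ B.card := by
  classical
  by_cases hinj : Set.InjOn (fun x => (e x).1) (B : Set 𝔹)
  · have hcard : (B.image fun x => (e x).1).card = B.card := Finset.card_image_of_injOn hinj
    rw [← hcard]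
    have := seq_fixed (V := Fin a) (Ω := Fin b)
      (fun s f => (∃ x ∈ B, (e x).1 = s) ∧ ∀ x ∈ B, (e x).1 = s → f s = (e x).2)
      (q := 1 / (b : ℝ)) (by positivity)
      (by
        intro v u ω x huv
        simp only [Function.update_of_ne huv.ne])
      (by
        intro v ω
        by_cases hex : ∃ x ∈ B, (e x).1 = v
        · obtain ⟨x, hx, hxv⟩ := hex
          refine (pr_mono (q := fun c : Fin b => c = (e x).2) ?_).trans
            (le_of_eq (pr_eq_const _))
          rintro c ⟨-, h⟩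
          have := h x hx hxv
          simpa using this
        · rw [pr_false (fun c h => hex h.1)]
          positivity)
      (B.image fun x => (e x).1)
    refine le_trans (pr_mono ?_) this
    intro f hf s hs
    obtain ⟨x, hx, rfl⟩ := Finset.mem_image.1 hs
    refine ⟨⟨x, hx, rfl⟩, fun y hy hyx => ?_⟩
    have := mem_tr.1 (hf hy)
    rw [← hyx]; exact this
  · rw [pr_false]
    · positivity
    · intro f hf
      apply hinj
      intro x hx y hy hxy
      have h1 := mem_tr.1 (hf hx)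
      have h2 := mem_tr.1 (hf hy)
      simp only at hxy
      apply e.injective
      refine Prod.ext hxy ?_
      rw [← h1, ← h2, hxy]

lemma pr_inter_card_le [NeZero b] (e : 𝔹 ≃ Fin a × Fin b) (B : Finset 𝔹) (h : ℕ) :
    pr (fun f : Fin a → Fin b => (B ∩ tr e f).card ≤ h) ≤
      2 ^ h * Real.exp (-((B.card : ℝ) / (2 * b))) := by
  have hb : (0 : ℝ) < b := by exact_mod_cast Nat.pos_of_ne_zero (NeZero.ne b)
  let g : Fin a → Fin b → ℝ := fun s c => if e.symm (s, c) ∈ B then 1 / 2 else 1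
  have hprod : ∀ f : Fin a → Fin b, ∏ s, g s (f s) = (1 / 2 : ℝ) ^ (B ∩ tr e f).card := by
    intro f
    have h1 : (B ∩ tr e f).card = ((univ : Finset (Fin a)).filter
        fun s => e.symm (s, f s) ∈ B).card := by
      refine Finset.card_bij (fun x _ => (e x).1) ?_ ?_ ?_
      · intro x hx
        rw [Finset.mem_inter, mem_tr] at hx
        rw [Finset.mem_filter]
        refine ⟨Finset.mem_univ _, ?_⟩
        rw [hx.2]
        simpa using hx.1
      · intro x hx y hy hxy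
        rw [Finset.mem_inter, mem_tr] at hx hy
        apply e.injective
        refine Prod.ext hxy ?_
        rw [← hx.2, ← hy.2, hxy]
      · intro s hs
        rw [Finset.mem_filter] at hs
        refine ⟨e.symm (s, f s), ?_, by simp⟩
        rw [Finset.mem_inter, mem_tr]
        exact ⟨hs.2, by simp⟩
    rw [h1]
    simp only [g]
    rw [Finset.prod_ite]
    simp
  have hsum : ∑ f : Fin a → Fin b, ∏ s, g s (f s) = ∏ s, ∑ c, g s c := by
    rw [Finset.prod_univ_sum]
    simp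
  have hcol : ∀ s, ∑ c, g s c ≤ b * Real.exp (-((((univ : Finset (Fin b)).filter
      fun c => e.symm (s, c) ∈ B).card : ℝ) / (2 * b))) := by
    intro s
    have h1 : ∑ c, g s c = b - (((univ : Finset (Fin b)).filter
      fun c => e.symm (s, c) ∈ B).card : ℝ) / 2 := by
      have h2 : ∀ c, g s c = 1 - (1 / 2) * (if e.symm (s, c) ∈ B then (1 : ℝ) else 0) := by
        intro c
        simp only [g]
        split_ifs <;> norm_num
      rw [Finset.sum_congr rfl fun c _ => h2 c, Finset.sum_sub_distrib, ← Finset.mul_sum,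
        Finset.sum_boole]
      simp
      ring
    rw [h1]
    set n : ℝ := (((univ : Finset (Fin b)).filter fun c => e.symm (s, c) ∈ B).card : ℝ)
    have h3 := Real.add_one_le_exp (-(n / (2 * b)))
    have h4 : (b : ℝ) - n / 2 = b * (-(n / (2 * b)) + 1) := by field_simp; ring
    rw [h4]
    exact mul_le_mul_of_nonneg_left h3 hb.le
  have htot : ∑ s : Fin a, (((univ : Finset (Fin b)).filter
      fun c => e.symm (s, c) ∈ B).card : ℝ) = B.card := by
    have h1 : ∀ s : Fin a, (((univ : Finset (Fin b)).filter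
      fun c => e.symm (s, c) ∈ B).card : ℝ) = ∑ c, if e.symm (s, c) ∈ B then (1 : ℝ) else 0 := by
      intro s
      rw [Finset.sum_boole]
    rw [Finset.sum_congr rfl fun s _ => h1 s, ← Fintype.sum_prod_type (f := fun p : Fin a × Fin b =>
      if e.symm p ∈ B then (1 : ℝ) else 0), ← Equiv.sum_comp e]
    simp
  have hmain : ∑ f : Fin a → Fin b, (1 / 2 : ℝ) ^ (B ∩ tr e f).card ≤
      (b : ℝ) ^ a * Real.exp (-((B.card : ℝ) / (2 * b))) := by
    rw [← Finset.sum_congr rfl fun f _ => hprod f, hsum]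
    refine (Finset.prod_le_prod (fun s _ => ?_) (fun s _ => hcol s)).trans (le_of_eq ?_)
    · refine Finset.sum_nonneg fun c _ => ?_
      simp only [g]; split_ifs <;> norm_num
    · rw [Finset.prod_mul_distrib, Finset.prod_const, Finset.card_univ, Fintype.card_fin,
        ← Real.exp_sum, Finset.sum_neg_distrib, ← Finset.sum_div, htot]
  have hcard : (Fintype.card (Fin a → Fin b) : ℝ) = (b : ℝ) ^ a := by
    rw [Fintype.card_fun, Fintype.card_fin, Fintype.card_fin]; push_cast; rfl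
  unfold pr
  rw [hcard, div_le_iff₀ (by positivity)]
  calc ∑ f : Fin a → Fin b, ind ((B ∩ tr e f).card ≤ h)
      ≤ ∑ f : Fin a → Fin b, 2 ^ h * (1 / 2 : ℝ) ^ (B ∩ tr e f).card := by
        refine Finset.sum_le_sum fun f _ => ?_
        by_cases hf : (B ∩ tr e f).card ≤ h
        · rw [ind_of hf, one_div, inv_pow, ← div_eq_mul_inv, le_div_iff₀ (by positivity), one_mul]
          exact pow_le_pow_right₀ (by norm_num) hf
        · rw [ind_of_not hf]; positivity
    _ = 2 ^ h * ∑ f : Fin a → Fin b, (1 / 2 : ℝ) ^ (B ∩ tr e f).card := by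
        rw [Finset.mul_sum]
    _ ≤ 2 ^ h * ((b : ℝ) ^ a * Real.exp (-((B.card : ℝ) / (2 * b)))) := by gcongr
    _ = _ := by ring

end Transversal

/-- The distributional facts about the random data of one vertex which are used in the proof. -/
structure Model (Q : ℕ) (Ω 𝔹 : Type) [Fintype Ω] [Fintype 𝔹] [DecidableEq 𝔹] where
  J : Ω → Finset 𝔹
  G : Ω → Finset 𝔹
  card𝔹 : Fintype.card 𝔹 = Q ^ 528
  cardJ : ∀ ω, (J ω).card = Q ^ 16
  cardG : ∀ ω, (G ω).card = Q ^ 32
  sub : ∀ B C : Finset 𝔹, pr (fun ω => B ⊆ J ω ∧ C ⊆ G ω) ≤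
    (1 / (Q : ℝ) ^ 512) ^ B.card * (1 / (Q : ℝ) ^ 496) ^ C.card
  lowJ : ∀ B : Finset 𝔹, pr (fun ω => Disjoint B (J ω)) ≤
    Real.exp (-((B.card : ℝ) / (2 * (Q : ℝ) ^ 512)))
  lowG : ∀ (B : Finset 𝔹 → Finset 𝔹) (β : ℝ) (h : ℕ),
    pr (fun ω => β ≤ ((B (J ω)).card : ℝ) ∧ (B (J ω) ∩ G ω).card ≤ h) ≤
      2 ^ h * Real.exp (-(β / (2 * (Q : ℝ) ^ 496)))

/-- The blocks. -/
abbrev Blk (Q : ℕ) : Type := Fin (Q ^ 528)

/-- The random data of one vertex. -/
abbrev Dat (Q : ℕ) : Type := (Fin (Q ^ 16) → Fin (Q ^ 512)) × (Fin (Q ^ 32) → Fin (Q ^ 496))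

/-- first partition of the blocks -/
def eJ (Q : ℕ) : Blk Q ≃ Fin (Q ^ 16) × Fin (Q ^ 512) :=
  (finCongr (by rw [← pow_add])).trans finProdFinEquiv.symm

/-- second partition of the blocks -/
def eG (Q : ℕ) : Blk Q ≃ Fin (Q ^ 32) × Fin (Q ^ 496) :=
  (finCongr (by rw [← pow_add])).trans finProdFinEquiv.symm

/-- The concrete model. -/
noncomputable def model (Q : ℕ) (hQ : 0 < Q) : Model Q (Dat Q) (Blk Q) where
  J ω := tr (eJ Q) ω.1
  G ω := tr (eG Q) ω.2
  card𝔹 := Fintype.card_fin _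
  cardJ ω := card_tr _ _
  cardG ω := card_tr _ _
  sub B C := by
    have : NeZero (Q ^ 512) := ⟨(pow_pos hQ _).ne'⟩
    have : NeZero (Q ^ 496) := ⟨(pow_pos hQ _).ne'⟩
    have h1 := pr_subset (eJ Q) B
    have h2 := pr_subset (eG Q) C
    push_cast at h1 h2
    refine (pr_prod_le (fun f => B ⊆ tr (eJ Q) f) (fun _ g => C ⊆ tr (eG Q) g)
      (fun _ _ => h2)).trans ?_
    exact mul_le_mul_of_nonneg_right h1 (by positivity)
  lowJ B := by
    have : NeZero (Q ^ 512) := ⟨(pow_pos hQ _).ne'⟩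
    have h1 := pr_inter_card_le (eJ Q) B 0
    push_cast at h1
    rw [pow_zero, one_mul] at h1
    refine le_trans (le_trans ?_ (pr_fst_le (β := Fin (Q ^ 32) → Fin (Q ^ 496))
      (fun f => (B ∩ tr (eJ Q) f).card ≤ 0))) h1
    refine pr_mono fun ω hω => ?_
    rw [Finset.disjoint_iff_inter_eq_empty.1 hω]
    simp
  lowG B β h := by
    have : NeZero (Q ^ 496) := ⟨(pow_pos hQ _).ne'⟩
    refine (pr_prod_le (fun f => β ≤ ((B (tr (eJ Q) f)).card : ℝ))
      (fun f g => (B (tr (eJ Q) f) ∩ tr (eG Q) g).card ≤ h)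
      (c := 2 ^ h * Real.exp (-(β / (2 * (Q : ℝ) ^ 496)))) ?_).trans ?_
    · intro f hf
      have h1 := pr_inter_card_le (eG Q) (B (tr (eJ Q) f)) h
      push_cast at h1
      refine h1.trans ?_
      gcongr
    · have := pr_le_one (fun f => β ≤ ((B (tr (eJ Q) f)).card : ℝ))
      have h0 : 0 ≤ (2 : ℝ) ^ h * Real.exp (-(β / (2 * (Q : ℝ) ^ 496))) := by positivity
      nlinarith

section ModelLemmas

variable {Q : ℕ} {Ω 𝔹 : Type} [Fintype Ω] [Fintype 𝔹] [DecidableEq 𝔹]

lemma Model.subJ (M : Model Q Ω 𝔹) (B : Finset 𝔹) :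
    pr (fun ω => B ⊆ M.J ω) ≤ (1 / (Q : ℝ) ^ 512) ^ B.card := by
  have := M.sub B ∅
  simpa using this

lemma Model.subG (M : Model Q Ω 𝔹) (B : Finset 𝔹) :
    pr (fun ω => B ⊆ M.G ω) ≤ (1 / (Q : ℝ) ^ 496) ^ B.card := by
  have := M.sub ∅ B
  simpa using this

omit [Fintype 𝔹] in
lemma pr_card_ge (F : Ω → Finset 𝔹) {q : ℝ} (hq : 0 ≤ q)
    (h : ∀ B, pr (fun ω => B ⊆ F ω) ≤ q ^ B.card) (B : Finset 𝔹) (K : ℕ) :
    pr (fun ω => K ≤ (B ∩ F ω).card) ≤ (B.card.choose K : ℝ) * q ^ K := by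
  refine le_trans (pr_mono (q := fun ω => ∃ A ∈ B.powersetCard K, A ⊆ F ω) ?_) ?_
  · intro ω hω
    obtain ⟨A, hA, hcard⟩ := Finset.exists_subset_card_eq hω
    exact ⟨A, Finset.mem_powersetCard.2 ⟨hA.trans Finset.inter_subset_left, hcard⟩,
      hA.trans Finset.inter_subset_right⟩
  · refine pr_exists_le_mul _ _ (by positivity) (le_of_eq ?_) ?_
    · rw [Finset.card_powersetCard]
    · intro A hA
      refine (h A).trans (le_of_eq ?_)
      rw [(Finset.mem_powersetCard.1 hA).2]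

lemma Model.cntJ (M : Model Q Ω 𝔹) (B : Finset 𝔹) (K : ℕ) :
    pr (fun ω => K ≤ (B ∩ M.J ω).card) ≤ (B.card.choose K : ℝ) * (1 / (Q : ℝ) ^ 512) ^ K :=
  pr_card_ge M.J (by positivity) M.subJ B K

lemma Model.cntG (M : Model Q Ω 𝔹) (B : Finset 𝔹) (K : ℕ) :
    pr (fun ω => K ≤ (B ∩ M.G ω).card) ≤ (B.card.choose K : ℝ) * (1 / (Q : ℝ) ^ 496) ^ K :=
  pr_card_ge M.G (by positivity) M.subG B K

end ModelLemmas

end Pool.Agent.H40.ER
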