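import Pool.Agent.H40.ER.Global

/-!
# Numerical estimates
-/

set_option exponentiation.threshold 6000

namespace Pool.Agent.H40.ER

open Filter

lemma ev_exp (k : ℕ) : ∀ᶠ Q : ℕ in atTop, (Q : ℝ) ^ k * Real.exp (-(Q : ℝ)) ≤ 1 / 8 := by
  have h := (Real.tendsto_pow_mul_exp_neg_atTop_nhds_zero k).comp
    (tendsto_natCast_atTop_atTop (R := ℝ))
  have h2 := h.eventually (gt_mem_nhds (show (0 : ℝ) < 1 / 8 by norm_num))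
  exact h2.mono fun Q hQ => le_of_lt (by simpa using hQ)

lemma exp_sq_le {Q : ℕ} (hQ : 100 ≤ Q) :
    Real.exp (-((Q : ℝ) ^ 514 / 2 / (2 * (Q : ℝ) ^ 512))) ≤ Real.exp (-(Q : ℝ)) := by
  have hQ100 : (100 : ℝ) ≤ Q := by exact_mod_cast hQ
  have hQpos : (0 : ℝ) < Q := by linarith
  rw [Real.exp_le_exp, neg_le_neg_iff]
  rw [show (Q : ℝ) ^ 514 / 2 / (2 * (Q : ℝ) ^ 512) = (Q : ℝ) ^ 2 / 4 by field_simp; norm_num]
  nlinarith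

lemma num_local {Q : ℕ} (hQ : 100 ≤ Q) :
    (Q : ℝ) ^ 528 * (1 / (Q : ℝ)) ^ 5000 + ((Q : ℝ) ^ 1000 * (1 / (Q : ℝ)) ^ 5000 +
      ((Q : ℝ) ^ 1000 * ((Q : ℝ) ^ 528 * (1 / (Q : ℝ)) ^ 5000) +
      ((Q : ℝ) ^ 1000 * ((Q : ℝ) ^ 1000 * (1 / (Q : ℝ)) ^ 5000) +
      (Q : ℝ) ^ 1000 * ((Q : ℝ) ^ 1000 * (1 / (Q : ℝ)) ^ 5000)))) ≤ 1 / 8 := by
  have hQ100 : (100 : ℝ) ≤ Q := by exact_mod_cast hQ
  have hQpos : (0 : ℝ) < Q := by linarith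
  have key : ∀ a : ℕ, a ≤ 2000 → (Q : ℝ) ^ a * (1 / (Q : ℝ)) ^ 5000 ≤ 1 / 100 := by
    intro a ha
    rw [one_div_pow, mul_one_div, div_le_div_iff₀ (by positivity) (by norm_num), one_mul]
    calc (Q : ℝ) ^ a * 100 ≤ (Q : ℝ) ^ a * Q := by gcongr
      _ = (Q : ℝ) ^ (a + 1) := by rw [pow_succ]
      _ ≤ (Q : ℝ) ^ 5000 := pow_cast_le hQ (by omega)
  have k1 := key 528 (by norm_num)
  have k2 := key 1000 (by norm_num)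
  have k3 := key 1528 (by norm_num)
  have k4 := key 2000 (by norm_num)
  rw [← mul_assoc ((Q : ℝ) ^ 1000), ← pow_add, ← mul_assoc ((Q : ℝ) ^ 1000), ← pow_add]
  norm_num only at k1 k2 k3 k4 ⊢
  linarith

lemma num_D1 : ∀ᶠ Q : ℕ in atTop, ((Q : ℝ) ^ 1000) ^ (Q ^ 498) * (((Q : ℝ) ^ 1000) ^ (Q ^ 498) *
        (((Q : ℝ) ^ 528) ^ (Q ^ 498) *
        (2 ^ (Q ^ 498) * ((1 / (Q : ℝ)) ^ (Q ^ 15)) ^ (Q ^ 497) +
        Real.exp (-((Q : ℝ) ^ 514 / 2 / (2 * (Q : ℝ) ^ 512))) ^ (Q ^ 498)))) ≤ 1 / 4 := by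
  filter_upwards [ev_exp 2528, eventually_ge_atTop 2530] with Q h1 hQ'
  have hQ : 100 ≤ Q := by omega
  have hQ100 : (100 : ℝ) ≤ Q := by exact_mod_cast hQ
  have hQpos : (0 : ℝ) < Q := by linarith
  have hm : 1 ≤ Q ^ 498 := Nat.one_le_pow _ _ (by omega)
  have e1 : ((1 / (Q : ℝ)) ^ (Q ^ 15)) ^ (Q ^ 497) = ((1 / (Q : ℝ)) ^ (Q ^ 14)) ^ (Q ^ 498) := by
    rw [← pow_mul, ← pow_mul, ← pow_add, ← pow_add]
  have e2 : ((Q : ℝ) ^ 1000) ^ (Q ^ 498) * (((Q : ℝ) ^ 1000) ^ (Q ^ 498) *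
        (((Q : ℝ) ^ 528) ^ (Q ^ 498) *
        (2 ^ (Q ^ 498) * ((1 / (Q : ℝ)) ^ (Q ^ 15)) ^ (Q ^ 497) +
        Real.exp (-((Q : ℝ) ^ 514 / 2 / (2 * (Q : ℝ) ^ 512))) ^ (Q ^ 498)))) =
      ((Q : ℝ) ^ 1000 * (Q : ℝ) ^ 1000 * (Q : ℝ) ^ 528 * 2 *
        (1 / (Q : ℝ)) ^ (Q ^ 14)) ^ (Q ^ 498) +
      ((Q : ℝ) ^ 1000 * (Q : ℝ) ^ 1000 * (Q : ℝ) ^ 528 *
        Real.exp (-((Q : ℝ) ^ 514 / 2 / (2 * (Q : ℝ) ^ 512)))) ^ (Q ^ 498) := by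
    rw [e1]
    simp only [mul_pow]
    generalize ((Q : ℝ) ^ 1000) ^ (Q ^ 498) = a
    generalize ((Q : ℝ) ^ 528) ^ (Q ^ 498) = b
    generalize ((1 / (Q : ℝ)) ^ (Q ^ 14)) ^ (Q ^ 498) = c
    generalize Real.exp (-((Q : ℝ) ^ 514 / 2 / (2 * (Q : ℝ) ^ 512))) ^ (Q ^ 498) = d
    generalize (2 : ℝ) ^ (Q ^ 498) = e
    ring
  rw [e2]
  have e3 : (Q : ℝ) ^ 1000 * (Q : ℝ) ^ 1000 * (Q : ℝ) ^ 528 = (Q : ℝ) ^ 2528 := by
    rw [← pow_add, ← pow_add]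
  rw [e3]
  have f1 : (Q : ℝ) ^ 2528 * 2 * (1 / (Q : ℝ)) ^ (Q ^ 14) ≤ 1 / 8 := by
    have g1 : (1 / (Q : ℝ)) ^ (Q ^ 14) ≤ (1 / (Q : ℝ)) ^ 2530 := by
      refine pow_le_pow_of_le_one (by positivity) ?_ ?_
      · rw [div_le_one hQpos]; linarith
      · calc 2530 ≤ Q := hQ'
          _ = Q ^ 1 := (pow_one Q).symm
          _ ≤ Q ^ 14 := Nat.pow_le_pow_right (by omega) (by norm_num)
    calc (Q : ℝ) ^ 2528 * 2 * (1 / (Q : ℝ)) ^ (Q ^ 14)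
        ≤ (Q : ℝ) ^ 2528 * 2 * (1 / (Q : ℝ)) ^ 2530 := by gcongr
      _ = 2 / (Q : ℝ) ^ 2 := by field_simp
      _ ≤ 1 / 8 := by
        rw [div_le_div_iff₀ (by positivity) (by norm_num)]
        nlinarith
  have f2 : (Q : ℝ) ^ 2528 * Real.exp (-((Q : ℝ) ^ 514 / 2 / (2 * (Q : ℝ) ^ 512))) ≤ 1 / 8 :=
    le_trans (mul_le_mul_of_nonneg_left (exp_sq_le hQ) (by positivity)) h1
  have g1 : ((Q : ℝ) ^ 2528 * 2 * (1 / (Q : ℝ)) ^ (Q ^ 14)) ^ (Q ^ 498) ≤ 1 / 8 := by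
    refine (pow_le_of_le_one (by positivity) (by linarith) (by omega)).trans f1
  have g2 : ((Q : ℝ) ^ 2528 * Real.exp (-((Q : ℝ) ^ 514 / 2 /
      (2 * (Q : ℝ) ^ 512)))) ^ (Q ^ 498) ≤ 1 / 8 := by
    refine (pow_le_of_le_one (by positivity) (by linarith) (by omega)).trans f2
  linarith

lemma num_D2 {Q : ℕ} (hQ' : 1001 ≤ Q) :
    ((Q : ℝ) ^ 1000) ^ (2 * Q ^ 498) * (2 ^ (2 * Q ^ 498) *
        ((1 / (Q : ℝ)) ^ (2 * Q ^ 5)) ^ (Q ^ 494)) ≤ 1 / 8 := by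
  have hQ : 100 ≤ Q := by omega
  have hQ100 : (100 : ℝ) ≤ Q := by exact_mod_cast hQ
  have hQpos : (0 : ℝ) < Q := by linarith
  have hm : 1 ≤ Q ^ 498 := Nat.one_le_pow _ _ (by omega)
  have e1 : ((1 / (Q : ℝ)) ^ (2 * Q ^ 5)) ^ (Q ^ 494) = ((1 / (Q : ℝ)) ^ Q) ^ (2 * Q ^ 498) := by
    rw [← pow_mul, ← pow_mul]
    congr 1
    rw [mul_assoc, ← pow_add, show Q * (2 * Q ^ 498) = 2 * (Q * Q ^ 498) by
      generalize Q ^ 498 = a; ring, ← pow_succ']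
  rw [e1, ← mul_pow, ← mul_pow]
  have f1 : (Q : ℝ) ^ 1000 * (2 * (1 / (Q : ℝ)) ^ Q) ≤ 1 / 8 := by
    have g1 : (1 / (Q : ℝ)) ^ Q ≤ (1 / (Q : ℝ)) ^ 1001 := by
      refine pow_le_pow_of_le_one (by positivity) ?_ hQ'
      rw [div_le_one hQpos]; linarith
    calc (Q : ℝ) ^ 1000 * (2 * (1 / (Q : ℝ)) ^ Q)
        ≤ (Q : ℝ) ^ 1000 * (2 * (1 / (Q : ℝ)) ^ 1001) := by gcongr
      _ = 2 / (Q : ℝ) := by field_simp
      _ ≤ 1 / 8 := by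
        rw [div_le_div_iff₀ hQpos (by norm_num)]
        linarith
  exact (pow_le_of_le_one (by positivity) (by linarith) (by omega)).trans f1

lemma num_DM {Q : ℕ} (hQ : 100 ≤ Q) :
    ((Q : ℝ) ^ 528) ^ (Q ^ 498) * (((Q : ℝ) ^ 1000) ^ (Q ^ 498) *
        (((Q : ℝ) ^ 1000) ^ (Q ^ 498) * ((1 / (Q : ℝ)) ^ 98) ^ (50 * Q ^ 498))) ≤ 1 / 8 := by
  have hQ100 : (100 : ℝ) ≤ Q := by exact_mod_cast hQ
  have hQpos : (0 : ℝ) < Q := by linarith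
  have hm : 1 ≤ Q ^ 498 := Nat.one_le_pow _ _ (by omega)
  rw [pow_mul ((1 / (Q : ℝ)) ^ 98) 50, ← pow_mul (1 / (Q : ℝ)), ← mul_pow, ← mul_pow, ← mul_pow]
  have f1 : (Q : ℝ) ^ 528 * ((Q : ℝ) ^ 1000 * ((Q : ℝ) ^ 1000 * (1 / (Q : ℝ)) ^ (98 * 50))) ≤
      1 / 8 := by
    rw [show (98 * 50 : ℕ) = 2528 + 2372 by norm_num, pow_add, one_div_pow, one_div_pow]
    calc (Q : ℝ) ^ 528 * ((Q : ℝ) ^ 1000 * ((Q : ℝ) ^ 1000 * (1 / (Q : ℝ) ^ 2528 *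
        (1 / (Q : ℝ) ^ 2372)))) = 1 / (Q : ℝ) ^ 2372 := by field_simp
      _ ≤ 1 / (Q : ℝ) ^ 1 := by
        apply one_div_le_one_div_of_le (by positivity)
        exact pow_cast_le hQ (by norm_num)
      _ ≤ 1 / 8 := by
        rw [pow_one]
        exact one_div_le_one_div_of_le (by norm_num) (by linarith)
  exact (pow_le_of_le_one (by positivity) (by linarith) (by omega)).trans f1

lemma num_step (t : ℕ) : ∀ᶠ Q : ℕ in atTop, stepBound Q t ≤ 1 / (Q : ℝ) ^ 600 := by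
  filter_upwards [ev_exp 1657, ev_exp 601, eventually_ge_atTop (4000 + t)] with Q h1 h2 hQ'
  have hQ : 100 ≤ Q := by omega
  have hQ100 : (100 : ℝ) ≤ Q := by exact_mod_cast hQ
  have hQpos : (0 : ℝ) < Q := by linarith
  have hQt : (4000 : ℝ) + t ≤ Q := by exact_mod_cast hQ'
  have ht0 : (0 : ℝ) ≤ t := Nat.cast_nonneg t
  -- small terms
  have small : ∀ (c : ℝ) (a : ℕ), 0 ≤ c → c ≤ 100 → 602 ≤ a →
      c / (Q : ℝ) ^ a ≤ 1 / (Q : ℝ) ^ 601 := by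
    intro c a hc hc' ha
    rw [div_le_div_iff₀ (by positivity) (by positivity)]
    calc c * (Q : ℝ) ^ 601 ≤ Q * (Q : ℝ) ^ 601 := by gcongr; linarith
      _ = (Q : ℝ) ^ 602 := by rw [← pow_succ']
      _ ≤ (Q : ℝ) ^ a := pow_cast_le hQ ha
      _ = 1 * (Q : ℝ) ^ a := by rw [one_mul]
  have t1 : (2 * (Q : ℝ) ^ 114) ^ 2 * (1 / (Q : ℝ) ^ 512) ^ 2 ≤ 1 / (Q : ℝ) ^ 601 := by
    rw [show (2 * (Q : ℝ) ^ 114) ^ 2 * (1 / (Q : ℝ) ^ 512) ^ 2 = 4 / (Q : ℝ) ^ 796 by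
      field_simp; norm_num]
    exact small 4 796 (by norm_num) (by norm_num) (by norm_num)
  have t2 : 2 ^ (900 * Q + 3 + t) * Real.exp (-((Q : ℝ) ^ 498 / 2 / (2 * (Q : ℝ) ^ 496))) ≤
      1 / (Q : ℝ) ^ 601 := by
    rw [show (Q : ℝ) ^ 498 / 2 / (2 * (Q : ℝ) ^ 496) = (Q : ℝ) ^ 2 / 4 by field_simp; norm_num]
    have g1 : (2 : ℝ) ^ (900 * Q + 3 + t) ≤ Real.exp (900 * Q + 3 + t) := by
      have : (2 : ℝ) ≤ Real.exp 1 := by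
        have := Real.add_one_le_exp (1 : ℝ); linarith
      calc (2 : ℝ) ^ (900 * Q + 3 + t) ≤ (Real.exp 1) ^ (900 * Q + 3 + t) :=
            pow_le_pow_left₀ (by norm_num) this _
        _ = Real.exp (900 * Q + 3 + t) := by
            rw [← Real.exp_nat_mul]; push_cast; ring_nf
    calc 2 ^ (900 * Q + 3 + t) * Real.exp (-((Q : ℝ) ^ 2 / 4))
        ≤ Real.exp (900 * Q + 3 + t) * Real.exp (-((Q : ℝ) ^ 2 / 4)) := by gcongr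
      _ = Real.exp (900 * Q + 3 + t - (Q : ℝ) ^ 2 / 4) := by rw [← Real.exp_add]; ring_nf
      _ ≤ Real.exp (-(Q : ℝ)) := by
          rw [Real.exp_le_exp]
          have : (4000 + (t : ℝ)) * Q ≤ Q * Q := by gcongr
          nlinarith
      _ ≤ 1 / (Q : ℝ) ^ 601 := by
          rw [le_div_iff₀ (by positivity)]
          linarith
  have t3 : (4 * (Q : ℝ) ^ 1092) ^ 2 * (1 / (Q : ℝ) ^ 496) ^ 6 ≤ 1 / (Q : ℝ) ^ 601 := by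
    rw [show (4 * (Q : ℝ) ^ 1092) ^ 2 * (1 / (Q : ℝ) ^ 496) ^ 6 = 16 / (Q : ℝ) ^ 792 by
      field_simp; norm_num]
    exact small 16 792 (by norm_num) (by norm_num) (by norm_num)
  have t4 : (Q : ℝ) ^ 528 * (((Q : ℝ) ^ 595) ^ 2 * (1 / (Q : ℝ) ^ 496) ^ 5) ≤
      1 / (Q : ℝ) ^ 601 := by
    rw [show (Q : ℝ) ^ 528 * (((Q : ℝ) ^ 595) ^ 2 * (1 / (Q : ℝ) ^ 496) ^ 5) =
      1 / (Q : ℝ) ^ 762 by field_simp]
    exact small 1 762 (by norm_num) (by norm_num) (by norm_num)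
  have t5 : (8 * (Q : ℝ) ^ 302) * (1 / (Q : ℝ) ^ 496) ^ 2 ≤ 1 / (Q : ℝ) ^ 601 := by
    rw [show (8 * (Q : ℝ) ^ 302) * (1 / (Q : ℝ) ^ 496) ^ 2 = 8 / (Q : ℝ) ^ 690 by
      field_simp]
    exact small 8 690 (by norm_num) (by norm_num) (by norm_num)
  have t6 : (Q : ℝ) ^ 1056 * (3 * ((Q : ℝ) ^ 497 * (1 / (Q : ℝ) ^ 496)) / (100 * Q)) ^ (100 * Q) ≤
      1 / (Q : ℝ) ^ 601 := by
    rw [show 3 * ((Q : ℝ) ^ 497 * (1 / (Q : ℝ) ^ 496)) / (100 * Q) = 3 / 100 by field_simp]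
    have g1 : (3 / 100 : ℝ) ^ (100 * Q) ≤ Real.exp (-(Q : ℝ)) := by
      have g2 : (3 / 100 : ℝ) ^ 100 ≤ Real.exp (-1) := by
        have g3 : (3 / 100 : ℝ) ^ 100 ≤ (3 / 100) ^ 1 :=
          pow_le_pow_of_le_one (by norm_num) (by norm_num) (by norm_num)
        have g4 : (1 : ℝ) / 3 ≤ Real.exp (-1) := by
          rw [Real.exp_neg, ← one_div]
          exact one_div_le_one_div_of_le (Real.exp_pos 1) Real.exp_one_lt_three.le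
        rw [pow_one] at g3
        linarith
      calc (3 / 100 : ℝ) ^ (100 * Q) = ((3 / 100 : ℝ) ^ 100) ^ Q := by rw [pow_mul]
        _ ≤ (Real.exp (-1)) ^ Q := pow_le_pow_left₀ (by positivity) g2 _
        _ = Real.exp (-(Q : ℝ)) := by rw [← Real.exp_nat_mul]; ring_nf
    calc (Q : ℝ) ^ 1056 * (3 / 100 : ℝ) ^ (100 * Q) ≤ (Q : ℝ) ^ 1056 * Real.exp (-(Q : ℝ)) := by
          gcongr
      _ ≤ 1 / (Q : ℝ) ^ 601 := by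
          rw [le_div_iff₀ (by positivity)]
          have : (Q : ℝ) ^ 1056 * Real.exp (-(Q : ℝ)) * (Q : ℝ) ^ 601 =
              (Q : ℝ) ^ 1657 * Real.exp (-(Q : ℝ)) := by
            rw [mul_right_comm, ← pow_add]
          rw [this]
          linarith
  have hfin : 6 * (1 / (Q : ℝ) ^ 601) ≤ 1 / (Q : ℝ) ^ 600 := by
    rw [mul_one_div, div_le_div_iff₀ (by positivity) (by positivity)]
    calc 6 * (Q : ℝ) ^ 600 ≤ Q * (Q : ℝ) ^ 600 := by gcongr; linarith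
      _ = 1 * (Q : ℝ) ^ 601 := by rw [← pow_succ', one_mul]
  unfold stepBound
  linarith

end Pool.Agent.H40.ER
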