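import Mathlib

/-!
# Finite counting probability and a sequential union bound
-/

namespace Pool.Agent.H40.ER

open Finset

section Pr

variable {α β : Type*} [Fintype α] [Fintype β]

open Classical in
/-- indicator of a proposition -/
noncomputable def ind (p : Prop) : ℝ := if p then 1 else 0

lemma ind_of {p : Prop} (h : p) : ind p = 1 := by simp [ind, h]
lemma ind_of_not {p : Prop} (h : ¬ p) : ind p = 0 := by simp [ind, h]
lemma ind_nonneg (p : Prop) : 0 ≤ ind p := by unfold ind; split_ifs <;> norm_num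
lemma ind_le_one (p : Prop) : ind p ≤ 1 := by unfold ind; split_ifs <;> norm_num
lemma ind_mono {p q : Prop} (h : p → q) : ind p ≤ ind q := by
  by_cases hp : p
  · rw [ind_of hp, ind_of (h hp)]
  · rw [ind_of_not hp]; exact ind_nonneg q
lemma ind_congr {p q : Prop} (h : p ↔ q) : ind p = ind q :=
  le_antisymm (ind_mono h.1) (ind_mono h.2)

/-- Proportion of the elements of a finite type which satisfy `p`. -/
noncomputable def pr (p : α → Prop) : ℝ := (∑ a, ind (p a)) / Fintype.card α

omit [Fintype α] in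
lemma sum_ind (s : Finset α) (p : α → Prop) [DecidablePred p] :
    ∑ a ∈ s, ind (p a) = ((s.filter p).card : ℝ) := by
  rw [← Finset.sum_boole]
  refine Finset.sum_congr rfl fun a _ => ?_
  by_cases h : p a
  · rw [ind_of h, if_pos h]
  · rw [ind_of_not h, if_neg h]

lemma pr_eq (p : α → Prop) [DecidablePred p] :
    pr p = ((univ.filter p).card : ℝ) / Fintype.card α := by
  unfold pr
  rw [sum_ind]

lemma pr_nonneg (p : α → Prop) : 0 ≤ pr p := by
  unfold pr
  exact div_nonneg (Finset.sum_nonneg fun a _ => ind_nonneg _) (by positivity)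

lemma pr_mono {p q : α → Prop} (h : ∀ a, p a → q a) : pr p ≤ pr q := by
  unfold pr
  exact div_le_div_of_nonneg_right (Finset.sum_le_sum fun a _ => ind_mono (h a)) (by positivity)

lemma pr_congr {p q : α → Prop} (h : ∀ a, p a ↔ q a) : pr p = pr q :=
  le_antisymm (pr_mono fun a => (h a).1) (pr_mono fun a => (h a).2)

lemma pr_false {p : α → Prop} (h : ∀ a, ¬ p a) : pr p = 0 := by
  unfold pr
  simp [ind_of_not, h]

lemma pr_le_one (p : α → Prop) : pr p ≤ 1 := by
  classical
  rw [pr_eq]
  rcases Nat.eq_zero_or_pos (Fintype.card α) with h | h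
  · rw [h]; simp
  · rw [div_le_one (by exact_mod_cast h)]
    exact_mod_cast Finset.card_le_univ _

lemma pr_or_le (p q : α → Prop) : pr (fun a => p a ∨ q a) ≤ pr p + pr q := by
  unfold pr
  rw [← add_div, ← Finset.sum_add_distrib]
  refine div_le_div_of_nonneg_right (Finset.sum_le_sum fun a _ => ?_) (by positivity)
  by_cases hp : p a <;> by_cases hq : q a <;> simp [ind, hp, hq]

lemma pr_exists_le {ι : Type*} (s : Finset ι) (p : ι → α → Prop) :
    pr (fun a => ∃ i ∈ s, p i a) ≤ ∑ i ∈ s, pr (p i) := by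
  classical
  induction s using Finset.induction_on with
  | empty => rw [pr_false (by simp)]; simp
  | insert i s hi ih =>
    rw [Finset.sum_insert hi]
    refine le_trans (pr_mono (q := fun a => p i a ∨ ∃ j ∈ s, p j a) ?_) ?_
    · rintro a ⟨j, hj, hja⟩
      rcases Finset.mem_insert.1 hj with rfl | hj
      · exact Or.inl hja
      · exact Or.inr ⟨j, hj, hja⟩
    · exact (pr_or_le _ _).trans (by gcongr)

lemma pr_exists_le_mul {ι : Type*} (s : Finset ι) (p : ι → α → Prop) {c B : ℝ} (hc : 0 ≤ c)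
    (hB : (s.card : ℝ) ≤ B) (h : ∀ i ∈ s, pr (p i) ≤ c) :
    pr (fun a => ∃ i ∈ s, p i a) ≤ B * c := by
  refine (pr_exists_le s p).trans ((Finset.sum_le_sum h).trans ?_)
  rw [Finset.sum_const, nsmul_eq_mul]
  exact mul_le_mul_of_nonneg_right hB hc

/-- Existence from small failure probability. -/
lemma exists_of_pr_lt_one [Nonempty α] {p : α → Prop} (h : pr p < 1) : ∃ a, ¬ p a := by
  by_contra hcon
  push Not at hcon
  have : pr p = 1 := by
    unfold pr
    simp only [ind_of (hcon _)]
    rw [Finset.sum_const, nsmul_eq_mul, mul_one, Finset.card_univ]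
    refine div_self ?_
    exact_mod_cast Fintype.card_ne_zero
  linarith

lemma sum_ind_le (p : α → Prop) {c : ℝ} (h : pr p ≤ c) :
    (∑ a, ind (p a)) ≤ c * Fintype.card α := by
  rcases Nat.eq_zero_or_pos (Fintype.card α) with h0 | h0
  · have := Fintype.card_eq_zero_iff.1 h0
    rw [h0]; simp
  · have hpos : (0 : ℝ) < Fintype.card α := by exact_mod_cast h0
    unfold pr at h
    rwa [div_le_iff₀ hpos] at h

/-- Fubini with a condition on the first coordinate. -/
lemma pr_prod_le (A : α → Prop) (B : α → β → Prop) {c : ℝ}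
    (h : ∀ a, A a → pr (B a) ≤ c) :
    pr (fun x : α × β => A x.1 ∧ B x.1 x.2) ≤ pr A * c := by
  rcases Nat.eq_zero_or_pos (Fintype.card β) with h0 | h0
  · have := Fintype.card_eq_zero_iff.1 h0
    rw [pr_false (p := fun x : α × β => A x.1 ∧ B x.1 x.2) (fun x => isEmptyElim x.2)]
    rcases Classical.em (∃ a, A a) with ⟨a, ha⟩ | hno
    · exact mul_nonneg (pr_nonneg _) ((pr_nonneg _).trans (h a ha))
    · push Not at hno
      rw [pr_false hno]; simp
  have hpos : (0 : ℝ) < Fintype.card β := by exact_mod_cast h0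
  have key : (∑ x : α × β, ind (A x.1 ∧ B x.1 x.2)) ≤
      (∑ a, ind (A a)) * (c * Fintype.card β) := by
    rw [Fintype.sum_prod_type, Finset.sum_mul]
    refine Finset.sum_le_sum fun a _ => ?_
    by_cases hA : A a
    · simp only [hA, true_and]
      rw [ind_of trivial, one_mul]
      exact sum_ind_le _ (h a hA)
    · rw [ind_of_not hA, zero_mul]
      refine le_of_eq (Finset.sum_eq_zero fun b _ => ind_of_not fun h => hA h.1)
  unfold pr
  rw [Fintype.card_prod, Nat.cast_mul]
  rcases Nat.eq_zero_or_pos (Fintype.card α) with h1 | h1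
  · have := Fintype.card_eq_zero_iff.1 h1
    simp
  · have hposa : (0 : ℝ) < Fintype.card α := by exact_mod_cast h1
    rw [div_le_iff₀ (by positivity)]
    refine key.trans (le_of_eq ?_)
    field_simp

lemma pr_fst_le (A : α → Prop) : pr (fun x : α × β => A x.1) ≤ pr A := by
  have := pr_prod_le (α := α) (β := β) A (fun _ _ => True) (c := 1) (fun a _ => pr_le_one _)
  simpa using this

lemma pr_snd_le (B : α → β → Prop) {c : ℝ} (hc : 0 ≤ c) (h : ∀ a, pr (B a) ≤ c) :
    pr (fun x : α × β => B x.1 x.2) ≤ c := by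
  have := pr_prod_le (α := α) (β := β) (fun _ => True) B (c := c) (fun a _ => h a)
  simp only [true_and] at this
  refine this.trans ?_
  have := pr_le_one (fun _ : α => True)
  nlinarith

end Pr

section Seq

variable {V Ω : Type*} [Fintype V] [LinearOrder V] [Fintype Ω] [Nonempty Ω]

/-- resampling one coordinate -/
noncomputable def swapEquiv (v : V) : ((V → Ω) × Ω) ≃ ((V → Ω) × Ω) where
  toFun x := (Function.update x.1 v x.2, x.1 v)
  invFun x := (Function.update x.1 v x.2, x.1 v)
  left_inv x := by simp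
  right_inv x := by simp

lemma pr_resample (v : V) (F E : (V → Ω) → Prop) {q : ℝ}
    (hF : ∀ ω x, F (Function.update ω v x) ↔ F ω)
    (hE : ∀ ω, F ω → pr (fun x => E (Function.update ω v x)) ≤ q) :
    pr (fun ω => F ω ∧ E ω) ≤ pr F * q := by
  have h1 : pr (fun x : (V → Ω) × Ω => F x.1 ∧ E (Function.update x.1 v x.2)) ≤ pr F * q :=
    pr_prod_le F (fun ω x => E (Function.update ω v x)) hE
  refine le_trans (le_of_eq ?_) h1
  have hcard : (0 : ℝ) < Fintype.card Ω := by exact_mod_cast Fintype.card_pos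
  have hcard' : (0 : ℝ) < Fintype.card (V → Ω) := by exact_mod_cast Fintype.card_pos
  have h2 : (∑ x : (V → Ω) × Ω, ind (F x.1 ∧ E x.1)) =
      ∑ x : (V → Ω) × Ω, ind (F x.1 ∧ E (Function.update x.1 v x.2)) := by
    rw [← Equiv.sum_comp (swapEquiv (Ω := Ω) v)]
    refine Finset.sum_congr rfl fun x _ => ?_
    refine ind_congr ?_
    simp only [swapEquiv, Equiv.coe_fn_mk, hF]
  have h3 : (∑ x : (V → Ω) × Ω, ind (F x.1 ∧ E x.1)) =
      (∑ ω : V → Ω, ind (F ω ∧ E ω)) * Fintype.card Ω := by
    rw [Fintype.sum_prod_type, Finset.sum_mul]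
    refine Finset.sum_congr rfl fun ω _ => ?_
    simp only [Finset.sum_const, nsmul_eq_mul, Finset.card_univ]
    rw [mul_comm]
  unfold pr
  rw [← h2, h3, Fintype.card_prod, Nat.cast_mul]
  field_simp

/-- Sequential bound: for a fixed set of times, the probability that all the events occur. -/
theorem seq_fixed (E : V → (V → Ω) → Prop) {q : ℝ} (hq : 0 ≤ q)
    (hdep : ∀ v u (ω : V → Ω) x, v < u → (E v (Function.update ω u x) ↔ E v ω))
    (hprob : ∀ v ω, pr (fun x => E v (Function.update ω v x)) ≤ q)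
    (A : Finset V) : pr (fun ω => ∀ v ∈ A, E v ω) ≤ q ^ A.card := by
  classical
  induction A using Finset.induction_on_max with
  | empty => simpa using pr_le_one _
  | insert v s hv ih =>
    have hvs : v ∉ s := fun h => lt_irrefl _ (hv v h)
    rw [Finset.card_insert_of_notMem hvs, pow_succ]
    refine le_trans (pr_mono (q := fun ω => (∀ u ∈ s, E u ω) ∧ E v ω) ?_) ?_
    · intro ω h
      exact ⟨fun u hu => h u (Finset.mem_insert_of_mem hu), h v (Finset.mem_insert_self _ _)⟩
    · refine (pr_resample v (fun ω => ∀ u ∈ s, E u ω) (E v) (q := q) ?_ ?_).trans ?_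
      · intro ω x
        refine forall₂_congr fun u hu => ?_
        exact hdep u v ω x (hv u hu)
      · intro ω _
        exact hprob v ω
      · exact mul_le_mul_of_nonneg_right ih hq

open Classical in
/-- Sequential bound for the number of events which occur. -/
theorem seq_count (E : V → (V → Ω) → Prop) {q : ℝ} (hq : 0 ≤ q)
    (hdep : ∀ v u (ω : V → Ω) x, v < u → (E v (Function.update ω u x) ↔ E v ω))
    (hprob : ∀ v ω, pr (fun x => E v (Function.update ω v x)) ≤ q)
    (W : Finset V) (K : ℕ) :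
    pr (fun ω => K ≤ (W.filter fun v => E v ω).card) ≤ (W.card.choose K : ℝ) * q ^ K := by
  refine le_trans (pr_mono (q := fun ω => ∃ A ∈ W.powersetCard K, ∀ v ∈ A, E v ω) ?_) ?_
  · intro ω h
    obtain ⟨A, hA, hcard⟩ := Finset.exists_subset_card_eq h
    refine ⟨A, Finset.mem_powersetCard.2 ⟨hA.trans (Finset.filter_subset _ _), hcard⟩, ?_⟩
    intro v hv
    exact (Finset.mem_filter.1 (hA hv)).2
  · refine pr_exists_le_mul _ _ (by positivity) (le_of_eq ?_) ?_
    · rw [Finset.card_powersetCard]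
    · intro A hA
      refine (seq_fixed E hq hdep hprob A).trans (le_of_eq ?_)
      rw [(Finset.mem_powersetCard.1 hA).2]

end Seq

/-- `C(n,k) q^k ≤ (3 n q / k)^k`. -/
lemma choose_mul_pow_le (n k : ℕ) {q : ℝ} (hq : 0 ≤ q) (hk : 0 < k) :
    (n.choose k : ℝ) * q ^ k ≤ (3 * (n * q) / k) ^ k := by
  have h1 : (n.choose k : ℝ) ≤ (n : ℝ) ^ k / (k.factorial : ℝ) := Nat.choose_le_pow_div k n
  have h2 : (k : ℝ) ^ k / (k.factorial : ℝ) ≤ 3 ^ k := by
    refine (Real.pow_div_factorial_le_exp (k : ℝ) (by positivity) k).trans ?_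
    rw [show (k : ℝ) = (k : ℝ) * 1 by ring, Real.exp_nat_mul]
    exact pow_le_pow_left₀ (Real.exp_pos 1).le Real.exp_one_lt_three.le k
  have hkpos : (0 : ℝ) < (k : ℝ) := by exact_mod_cast hk
  have hf : (0 : ℝ) < (k.factorial : ℝ) := by exact_mod_cast Nat.factorial_pos k
  have h3 : 1 / (k.factorial : ℝ) ≤ 3 ^ k / (k : ℝ) ^ k := by
    rw [div_le_div_iff₀ hf (by positivity)]
    rw [div_le_iff₀ hf] at h2
    linarith
  calc (n.choose k : ℝ) * q ^ k ≤ ((n : ℝ) ^ k / (k.factorial : ℝ)) * q ^ k := by gcongr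
    _ = ((n : ℝ) * q) ^ k * (1 / (k.factorial : ℝ)) := by rw [mul_pow]; ring
    _ ≤ ((n : ℝ) * q) ^ k * (3 ^ k / (k : ℝ) ^ k) := by gcongr
    _ = (3 * (n * q) / k) ^ k := by rw [div_pow, mul_pow 3]; ring

end Pool.Agent.H40.ER
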